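import Pool.Agent.Lib.MP_79d702_lc.Two.Layout

/-!
Choice of the parameters.
-/

namespace Pool.Agent.Lib.MP_79d702_lc.Two

open Finset Pool.Agent.Lib.MP_79d702_lc.Neg

theorem exists_par {w Q r m D k v : ℕ} (hw : 1 ≤ w) (hr : 200 * w < 2 ^ r) (hm : 1 ≤ m)
    (hQ : 1 ≤ Q) (h1 : 4096 * r * m ≤ Q) (h2 : 2 ^ 27 * r * (Q ^ 23520 * w) ≤ 2 ^ m)
    (hD : D = 8 * Q ^ 6860) (hk : k = 6400 * D ^ 2 * w) (hv : v = 2 * Q ^ 2940 * k) :
    D * v = 6553600 * (Q ^ 23520 * w) ∧ k ≤ v ∧ 1 ≤ D ∧ 2 * k ≤ (1 / Q : ℝ) ^ 2940 * v ∧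
    ∃ g : Fin (D * v) → Fin v × Fin v, Par (epg g) w (2 * m) r (1 / Q) ∧
      Ex ((1 / Q : ℝ) ^ 980) (fun y => ind (∃ S : Finset (Fin v), k ≤ S.card ∧
        ins (epg g) S ⊆ yᶜ)) ≤ (1 / 2) ^ w := by
  have Q1 : (1 : ℝ) ≤ Q := by exact_mod_cast hQ
  have D1 : 1 ≤ D := by rw [hD]; exact Nat.mul_pos (by norm_num) (by positivity)
  have e1 : D * v = 6553600 * (Q ^ 23520 * w) := by rw [hv, hk, hD]; ring
  have e2 : 2 * k ≤ v := by
    rw [hv]; exact Nat.mul_le_mul_right _ (Nat.le_mul_of_pos_right _ (by positivity))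
  have e3 : w ≤ D ^ 2 * w := Nat.le_mul_of_pos_left _ (by positivity)
  have e4 : k = 6400 * (D ^ 2 * w) := by rw [hk, mul_assoc]
  obtain ⟨g, g1, g2⟩ := exists_host (V := Fin v) (E := Fin (D * v)) (W := 400 * w) (k := k) (w := w)
    (Fintype.card_fin v) (Fintype.card_fin _) D1
    (by rw [show 32 * D ^ 2 * (400 * w) = 12800 * (D ^ 2 * w) by ring]; omega) (by omega)
    (β := (1 / Q : ℝ) ^ 980) (by positivity)
    (pow_le_one₀ (by positivity) (div_le_one_of_le₀ Q1 (by positivity))) (le_of_eq (by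
      rw [hv, hD]; push_cast; field_simp; ring))
  refine ⟨e1, by omega, D1, le_of_eq (by rw [hv]; push_cast; field_simp), g,
    ⟨g1, hw, hr, by omega, by positivity, ?_, ?_⟩, g2⟩
  · rw [mul_one_div, div_le_one (by positivity)]
    have : 2048 * r * (2 * m) ≤ Q := by rw [show 2048 * r * (2 * m) = 4096 * r * m by ring]; exact h1
    exact_mod_cast this
  · have e5 : 8 * (r * Fintype.card (Fin v ⊕ Fin (D * v))) ≤ 2 ^ m := by
      refine le_trans ?_ h2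
      have : v ≤ D * v := Nat.le_mul_of_pos_left _ D1
      rw [Fintype.card_sum, Fintype.card_fin, Fintype.card_fin, mul_left_comm, mul_comm (2 ^ 27),
        mul_assoc]
      exact Nat.mul_le_mul_left _ (by omega)
    have e6 : (8 : ℝ) * (r * Fintype.card (Fin v ⊕ Fin (D * v))) ≤ 2 ^ m := by exact_mod_cast e5
    have e7 : (2 / 3 : ℝ) ^ (2 * m) * 2 ^ m ≤ 1 := by
      rw [pow_mul, ← mul_pow]; exact pow_le_one₀ (by norm_num) (by norm_num)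
    have e8 := mul_le_mul_of_nonneg_left e6 (by positivity : (0 : ℝ) ≤ (2 / 3) ^ (2 * m))
    linarith

theorem exists_Q {w : ℕ} (hw : 1 ≤ w) : ∃ Q r m : ℕ, 200 * w < 2 ^ r ∧ 1 ≤ m ∧ 1 ≤ r ∧ 1 ≤ Q ∧
    4096 * r * m ≤ Q ∧ 2 ^ 27 * r * (Q ^ 23520 * w) ≤ 2 ^ m ∧
    Q ≤ 2 ^ 42 * (Nat.log 2 w + 1) ^ 2 ∧ m ≤ 2 ^ 24 * (Nat.log 2 w + 1) := by
  set l := Nat.log 2 w + 9 with hl
  set q := Nat.size l with hq
  have l1 : w < 2 ^ (Nat.log 2 w + 1) := Nat.lt_pow_succ_log_self (by norm_num) w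
  have l2 : l < 2 ^ q := Nat.lt_size_self l
  have l3 : 2 ^ q ≤ 2 * l := by
    have h0 : 0 < q := Nat.size_pos.mpr (by omega)
    have : 2 ^ (q - 1) ≤ l := Nat.lt_size.mp (by omega)
    rw [show q = q - 1 + 1 by omega, pow_succ]
    omega
  have l4 : q < 2 ^ q := Nat.lt_two_pow_self
  have l5 : 2 ^ l = 2 ^ (Nat.log 2 w + 1) * 256 := by rw [hl, pow_add, pow_add]; norm_num; ring
  have m1 : 27 + q + (2 * q + 33) * 23520 + l ≤ 823229 * 2 ^ q := by omega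
  have q1 : 2 ^ (2 * q + 33) = 2 ^ 33 * (2 ^ q * 2 ^ q) := by ring
  refine ⟨2 ^ (2 * q + 33), l, 27 + q + (2 * q + 33) * 23520 + l, by omega, by omega, by omega,
    Nat.one_le_two_pow, ?_, ?_, ?_, by omega⟩
  · have := Nat.mul_le_mul l2.le m1
    rw [q1, mul_assoc]
    rw [mul_left_comm] at this
    omega
  · rw [← pow_mul, pow_add _ _ l, pow_add, pow_add, mul_assoc _ _ (2 ^ l)]
    exact Nat.mul_le_mul (Nat.mul_le_mul_left _ l2.le) (Nat.mul_le_mul_left _ (by omega))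
  · have h1 : 2 ^ q ≤ 18 * (Nat.log 2 w + 1) := by omega
    have := Nat.mul_le_mul h1 h1
    rw [show 18 * (Nat.log 2 w + 1) * (18 * (Nat.log 2 w + 1)) = 324 * (Nat.log 2 w + 1) ^ 2 by ring]
      at this
    rw [q1]
    omega

theorem exists_const (a b : ℕ) : ∃ c : ℕ, ∀ L Q m : ℕ, 1 ≤ L → Q ≤ a * L ^ 2 → m ≤ a * L →
    a * (Q ^ b * m) ≤ c * L ^ c := by
  refine ⟨a ^ (b + 2) + (2 * b + 1), fun L Q m hL hQ hm => ?_⟩
  calc a * (Q ^ b * m) ≤ a * ((a * L ^ 2) ^ b * (a * L)) :=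
        Nat.mul_le_mul_left _ (Nat.mul_le_mul (Nat.pow_le_pow_left hQ _) hm)
    _ = a ^ (b + 2) * L ^ (2 * b + 1) := by ring
    _ ≤ _ := Nat.mul_le_mul (Nat.le_add_right _ _) (Nat.pow_le_pow_right hL (Nat.le_add_left _ _))

theorem final_bound : ∃ c : ℕ, ∀ (n w : ℕ) (C : Circuit n), C.Decides langT → 1 ≤ w →
    c * 2 ^ C.nots * w * (Nat.log 2 w + 1) ^ c ≤ n → 2 ^ w ≤ 2 ^ (C.nots + 6) * (C.size + 1) := by
  obtain ⟨c, hc⟩ := exists_const (2 ^ 42) 23520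
  refine ⟨c, fun n w C hC hw hn => ?_⟩
  obtain ⟨Q, r, m, h1, h2, h3, h4, h5, h6, h7, h8⟩ := exists_Q hw
  obtain ⟨e1, e2, e3, e4, g, P, e5⟩ := exists_par hw h1 h2 h4 h5 h6 rfl rfl rfl
  generalize 8 * Q ^ 6860 = D at *
  generalize 6400 * D ^ 2 * w = k at *
  generalize 2 * Q ^ 2940 * k = v at *
  have f1 : 2 ^ 42 * (2 ^ C.nots * m * (Q ^ 23520 * w)) ≤ n := by
    refine le_trans ?_ hn
    calc _ = 2 ^ C.nots * w * (2 ^ 42 * (Q ^ 23520 * m)) := by ring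
      _ ≤ 2 ^ C.nots * w * (c * (Nat.log 2 w + 1) ^ c) :=
          Nat.mul_le_mul_left _ (hc _ Q m (by omega) h7 (by omega))
      _ = _ := by ring
  have f2 : 1 ≤ Q ^ 23520 * w := Nat.mul_pos (by positivity) hw
  generalize Q ^ 23520 * w = Z at *
  have f3 : v ≤ D * v := Nat.le_mul_of_pos_left _ e3
  have f4 : Nat.size v ≤ m := by
    refine Nat.size_le.mpr (lt_of_lt_of_le ?_ h6)
    have : Z ≤ r * Z := Nat.le_mul_of_pos_left _ h3
    rw [mul_assoc]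
    omega
  have f5 : m * Z ≤ 2 ^ C.nots * m * Z :=
    Nat.mul_le_mul_right _ (Nat.le_mul_of_pos_left _ (by positivity))
  have f6 : 2 ^ C.nots * Z ≤ 2 ^ C.nots * m * Z :=
    Nat.mul_le_mul_right _ (Nat.le_mul_of_pos_right _ h2)
  have f7 : Z ≤ m * Z := Nat.le_mul_of_pos_left _ h2
  have f8 : Nat.size v * Z ≤ m * Z := Nat.mul_le_mul_right _ f4
  rw [pow_add, mul_comm (2 ^ C.nots)]
  refine layout_bound P e5 e4 (by omega) (by omega) (by omega) (by omega) ?_ ?_ C le_rfl hC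
  · rw [e1, show 4 * Nat.size v * (6553600 * Z) = 26214400 * (Nat.size v * Z) by ring]
    omega
  · rw [e1, show 32 * 2 ^ C.nots * (6553600 * Z) = 209715200 * (2 ^ C.nots * Z) by ring]
    omega

end Pool.Agent.Lib.MP_79d702_lc.Two
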