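import Pool.Agent.Lib.MP_79d702_lc.Two.Lang2

/-!
The lower bound for the language, given a host graph that fits into the input.
-/

namespace Pool.Agent.Lib.MP_79d702_lc.Two

open Finset Pool.Agent.Lib.MP_79d702_lc.Neg

theorem rail_lt {n v N i c b : ℕ} (u : ℕ) (h : 4 * Nat.size v * N ≤ n / 4) (hi : i < N)
    (hc : c < 2) (hb : b < Nat.size v) : n / 4 ≤ rail n v i c b u ∧ rail n v i c b u < n / 2 := by
  unfold rail
  have h1 : (i * 2 + c + 1) * Nat.size v ≤ (N * 2) * Nat.size v := Nat.mul_le_mul_right _ (by omega)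
  have h2 : 4 * Nat.size v * N = 2 * (N * 2 * Nat.size v) := by ring
  rw [add_mul _ 1] at h1
  omega

theorem rail_inj {n v i c b u i' c' b' u' : ℕ} (hc : c < 2) (hc' : c' < 2) (hb : b < Nat.size v)
    (hb' : b' < Nat.size v) (h : rail n v i c b u = rail n v i' c' b' u') :
    i = i' ∧ c = c' ∧ u / 2 ^ b % 2 = u' / 2 ^ b % 2 := by
  unfold rail at h
  have h1 : (i * 2 + c) * Nat.size v + b = (i' * 2 + c') * Nat.size v + b' := by omega
  have h2 := congrArg (· % Nat.size v) h1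
  simp only [Nat.mul_add_mod_of_lt hb, Nat.mul_add_mod_of_lt hb'] at h2
  subst h2
  have h3 := Nat.eq_of_mul_eq_mul_right (by omega) (Nat.add_right_cancel h1)
  omega

theorem eq_of_bits {L u u' : ℕ} (hu : u < 2 ^ L) (hu' : u' < 2 ^ L)
    (h : ∀ b < L, u / 2 ^ b % 2 = u' / 2 ^ b % 2) : u = u' := by
  refine Nat.eq_of_testBit_eq fun b => ?_
  by_cases hb : b < L
  · rw [Nat.testBit_eq_decide_div_mod_eq, Nat.testBit_eq_decide_div_mod_eq, h b hb]
  · have := Nat.pow_le_pow_right (by norm_num : 0 < 2) (not_lt.mp hb)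
    rw [Nat.testBit_eq_false_of_lt (by omega), Nat.testBit_eq_false_of_lt (by omega)]

theorem countP_range (v : ℕ) (p : ℕ → Bool) :
    (List.range v).countP p = (univ.filter fun u : Fin v => p u = true).card := by
  induction v with
  | zero => simp
  | succ v ih =>
    rw [List.range_succ, List.countP_append, ih, card_filter, card_filter, Fin.sum_univ_castSucc]
    simp [List.countP_cons]

variable {v N : ℕ}

def en (g : Fin N → Fin v × Fin v) (i : Fin N) (c : ℕ) : Fin v := if c = 0 then (g i).1 else (g i).2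

def start (n k : ℕ) (g : Fin N → Fin v × Fin v) : Finset ℕ :=
  {3 * v, 3 * N + 1, 3 * k + 2} ∪ (univ ×ˢ range 2 ×ˢ range (Nat.size v)).image
    fun p : Fin N × ℕ × ℕ => rail n v p.1 p.2.1 p.2.2 (en g p.1 p.2.1)

theorem mem_start {n k p : ℕ} {g : Fin N → Fin v × Fin v} : p ∈ start n k g ↔
    (p = 3 * v ∨ p = 3 * N + 1 ∨ p = 3 * k + 2) ∨
      ∃ i : Fin N, ∃ c < 2, ∃ b < Nat.size v, rail n v i c b (en g i c) = p := by
  simp only [start, mem_union, mem_insert, mem_singleton, mem_image, mem_product, mem_univ,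
    mem_range, true_and, Prod.exists]
  exact or_congr_right ⟨fun ⟨i, c, b, ⟨h1, h2⟩, h⟩ => ⟨i, c, h1, b, h2, h⟩,
    fun ⟨i, c, h1, b, h2, h⟩ => ⟨i, c, b, ⟨h1, h2⟩, h⟩⟩

def Blk (n k : ℕ) (g : Fin N → Fin v × Fin v) (X : Finset ℕ) (j : ℕ) : Prop :=
  ∃ S : Finset (Fin v), k ≤ S.card ∧ ∀ i : Fin N, epg g i ⊆ S → n / 2 + j * N + i ∈ X

theorem blk_of_spec {n k : ℕ} {g : Fin N → Fin v × Fin v} (h4 : 4 * Nat.size v * N ≤ n / 4)
    {X : Finset ℕ} (hX : ∀ p ∈ X, p ∈ start n k g ∨ n / 2 ≤ p) {y : List Bool}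
    (h : Spec n (fun p => p < n ∧ p ∈ X) y) : ∃ j, Blk n k g X j := by
  obtain ⟨v', N', k', j, a1, a2, a3, -, a5, a6, a7, a8, a9⟩ := h
  have sel : ∀ p ∈ X, p < n / 4 → p = 3 * v ∨ p = 3 * N + 1 ∨ p = 3 * k + 2 := by
    intro p hp h
    refine (mem_start.mp ((hX p hp).resolve_right (by omega))).resolve_right ?_
    rintro ⟨i, c, hc, b, hb, rfl⟩
    have := (rail_lt (en g i c) h4 i.2 hc hb).1
    omega
  obtain rfl : v = v' := by have := sel _ a5.2 a1; omega
  obtain rfl : N = N' := by have := sel _ a6.2 a2; omega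
  obtain rfl : k = k' := by have := sel _ a7.2 a3; omega
  rw [countP_range] at a8
  refine ⟨j, _, a8, fun i hi => ((a9 i i.2).resolve_right ?_).2⟩
  rintro ⟨c, hc, u, hu, e1, e2⟩
  have e3 : u = en g i c := by
    refine eq_of_bits (hu.trans (Nat.lt_size_self v)) ((en g i c).2.trans (Nat.lt_size_self v))
      fun b hb => ?_
    have h5 := rail_lt u h4 i.2 hc hb
    rcases mem_start.mp ((hX _ (e2 b hb).2).resolve_right (by omega)) with h | ⟨i', c', hc', b',
      hb', h⟩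
    · omega
    · obtain ⟨h6, h7, h8⟩ := rail_inj hc hc' hb hb' h.symm
      rw [h8, Fin.ext h6, h7]
  have e4 : en g i c ∈ epg g i := by
    unfold en epg
    split_ifs <;> simp
  have := (mem_filter.mp (hi e4)).2
  rw [← e3, e1] at this
  exact Bool.false_ne_true this

theorem spec_of_blk {n k j : ℕ} {g : Fin N → Fin v × Fin v} (h1 : 3 * v < n / 4)
    (h2 : 3 * N + 1 < n / 4) (h3 : 3 * k + 2 < n / 4) (h4 : 4 * Nat.size v * N ≤ n / 4)
    (hj : j < n) (hj' : n / 2 + j * N + N ≤ n) {X : Finset ℕ} (hX : start n k g ⊆ X)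
    (h : Blk n k g X j) : ∃ y : List Bool, y.length ≤ n ∧ Spec n (fun p => p < n ∧ p ∈ X) y := by
  obtain ⟨S, s1, s2⟩ := h
  have hy : ∀ u : Fin v, (List.ofFn fun u : Fin v => decide (u ∈ S)).getD u false =
      decide (u ∈ S) := fun u => by simp
  refine ⟨List.ofFn fun u : Fin v => decide (u ∈ S), by simp; omega, v, N, k, j, h1, h2, h3, hj,
    ⟨by omega, hX (mem_start.mpr (by simp))⟩, ⟨by omega, hX (mem_start.mpr (by simp))⟩,
    ⟨by omega, hX (mem_start.mpr (by simp))⟩, ?_, fun i hi => ?_⟩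
  · rw [countP_range]
    simpa only [hy, decide_eq_true_eq, filter_univ_mem] using s1
  · by_cases h : epg g ⟨i, hi⟩ ⊆ S
    · exact Or.inl ⟨by omega, s2 ⟨i, hi⟩ h⟩
    · obtain ⟨c, hc, h'⟩ : ∃ c < 2, en g ⟨i, hi⟩ c ∉ S := by
        by_contra hh
        simp only [not_exists, not_and, not_not] at hh
        exact h (insert_subset (hh 0 (by norm_num)) (singleton_subset_iff.mpr (hh 1 (by norm_num))))
      refine Or.inr ⟨c, hc, _, (en g ⟨i, hi⟩ c).2, by rw [hy]; simpa using h', fun b hb =>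
        ⟨?_, hX (mem_start.mpr (Or.inr ⟨⟨i, hi⟩, c, hc, b, hb, rfl⟩))⟩⟩
      have := (rail_lt (en g ⟨i, hi⟩ c) h4 hi hc hb).2
      omega

theorem layout_bound {n k w m r t : ℕ} {τ : ℝ} {g : Fin N → Fin v × Fin v}
    (P : Par (epg g) w m r τ)
    (hneg : Ex (τ ^ 980) (fun y => ind (∃ S : Finset (Fin v), k ≤ S.card ∧ ins (epg g) S ⊆ yᶜ)) ≤
      (1 / 2) ^ w) (hk : 2 * k ≤ τ ^ 2940 * v) (hN : 1 ≤ N) (h1 : 3 * v < n / 4)
    (h2 : 3 * N + 1 < n / 4) (h3 : 3 * k + 2 < n / 4) (h4 : 4 * Nat.size v * N ≤ n / 4)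
    (h5 : n / 2 + 32 * 2 ^ t * N ≤ n) (C : Circuit n) (ht : C.nots ≤ t) (hC : C.Decides langT) :
    2 ^ w ≤ 64 * 2 ^ t * (C.size + 1) := by
  obtain ⟨-, -, t3, -⟩ := P.facts
  have t0 := P.t0
  have p1 : ∀ k : ℕ, τ ^ k ≤ 1 := fun k => pow_le_one₀ t0.le (by linarith)
  have p0 : ∀ k : ℕ, 0 ≤ τ ^ k := fun k => by positivity
  have hst : ∀ p ∈ start n k g, p < n / 2 := by
    intro p hp
    rcases mem_start.mp hp with h | ⟨i, c, hc, b, hb, rfl⟩
    · omega
    · exact (rail_lt _ h4 i.2 hc hb).2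
  refine bound2 P (emb := fun j i => n / 2 + j * N + i) (fun j i i' h => Fin.ext (by
      simp only at h; omega)) C ht
    (fun j X => start n k g ⊆ X ∧ (∀ p ∈ X, p ∈ start n k g ∨ (n / 2 ≤ p ∧ p < n / 2 + j * N)) ∧
      ∀ j', ¬ Blk n k g X j') (start n k g) ⟨le_rfl, fun p hp => Or.inl hp, ?_⟩ ?_ ?_ ?_
  · rintro j ⟨S, s1, s2⟩
    have h6 := (Ex_mono (p0 980) (p1 _) (φ := fun _ => 1) fun y => (ind_pos ⟨S, s1, fun i hi =>
      absurd (hst _ (s2 i (mem_ins.mp hi))) (by omega)⟩).ge).trans hneg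
    rw [Ex_const] at h6
    exact absurd (pow_lt_one₀ (by norm_num) (by norm_num) (by have := P.hw; omega)) h6.not_gt
  · rintro j X ⟨-, a2, a3⟩ h
    rw [hC, langT_vec] at h
    obtain ⟨y, -, h⟩ := h
    obtain ⟨j', h⟩ := blk_of_spec h4 (fun p hp => (a2 p hp).imp_right And.left) h
    exact a3 j' h
  · rintro j hj X ⟨a1, -, -⟩
    refine le_trans (Ex_mono (p0 _) (p1 _) fun S => ind_mono ?_)
      (pos_accept (V := Fin v) (p0 2940) (p1 _) (k := k) (by simpa using hk))
    refine fun h hS => h ?_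
    rw [hC, langT_vec]
    have e1 := Nat.mul_le_mul_right N (Nat.succ_le_of_lt hj)
    have e2 : j ≤ j * N := Nat.le_mul_of_pos_right _ hN
    rw [Nat.succ_mul] at e1
    exact spec_of_blk (j := j) h1 h2 h3 h4 (by omega) (by omega) (a1.trans subset_union_left)
      ⟨S, hS, fun i hi => mem_union_right _ (mem_image_of_mem _ (mem_ins.mpr hi))⟩
  · rintro j - X ⟨a1, a2, a3⟩
    refine le_trans (Ex_mono (p0 _) (p1 _) fun y => ind_mono fun h => ?_) hneg
    by_contra hy
    refine h ⟨a1.trans subset_union_left, fun p hp => ?_, ?_⟩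
    · rw [Nat.succ_mul]
      rcases mem_union.mp hp with hp | hp
      · exact (a2 p hp).imp_right fun h => ⟨h.1, by omega⟩
      · obtain ⟨i, -, rfl⟩ := mem_image.mp hp
        exact Or.inr ⟨by omega, by omega⟩
    · rintro j' ⟨S, s1, s2⟩
      have hj : ∀ i i' : Fin N, n / 2 + j * N + i' = n / 2 + j' * N + i → j = j' ∧ i' = i := by
        intro i i' h
        have h6 : j * N + i' = j' * N + i := by omega
        have h7 := congrArg (· % N) h6
        simp only [Nat.mul_add_mod_of_lt i.2, Nat.mul_add_mod_of_lt i'.2] at h7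
        rw [h7] at h6
        exact ⟨Nat.eq_of_mul_eq_mul_right hN (Nat.add_right_cancel h6), Fin.ext h7⟩
      by_cases hjj : j = j'
      · subst hjj
        refine hy ⟨S, s1, fun i hi => ?_⟩
        rcases mem_union.mp (s2 i (mem_ins.mp hi)) with hp | hp
        · rcases a2 _ hp with h | h
          · have := hst _ h; omega
          · omega
        · obtain ⟨i', hi', h⟩ := mem_image.mp hp
          exact (hj i i' h).2 ▸ hi'
      · refine a3 j' ⟨S, s1, fun i hi => (mem_union.mp (s2 i hi)).resolve_right fun hp => ?_⟩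
        obtain ⟨i', -, h⟩ := mem_image.mp hp
        exact hjj (hj i i' h).1

end Pool.Agent.Lib.MP_79d702_lc.Two
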