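import Pool.Agent.Lib.MP_79d702_lc.Two.Dich

/-!
The cascade of cores: a regular state has no cheap protocol.
-/

namespace Pool.Agent.Lib.MP_79d702_lc.Two

set_option linter.unusedSectionVars false

open Finset Pool.Agent.Lib.MP_79d702_lc.Neg

variable {E γ δ α β : Type} [Fintype E] [Fintype γ] [DecidableEq γ] [Fintype δ] [DecidableEq δ]
  [Fintype α] [DecidableEq α] [Fintype β] [DecidableEq β]

def Dead (A : Side E γ α) (τ : ℝ) (Z : Set (Finset γ)) (K : Finset γ) (ρ : ℝ) : Prop :=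
  ∃ D, ms A.w D ≤ ρ ∧ Ex τ (fun Ω => ind (∃ S ∈ Z \ D, A.hat K S ⊆ Ω)) ≤ 1 / 4

def Alive (A : Side E γ α) (B : Side E δ β) (a q : ℝ) (Z : Set (Finset γ)) (Y : Set (Finset δ)) :
    Prop :=
  ∃ X K Y' K', X ⊆ Z ∧ Y' ⊆ Y ∧ Good A B a X K Y' K' ∧
    - Real.log (ms A.w X) - Real.log (ms B.w Y') - (3 * a + 6) * (A.h K + B.h K') ≤ q

structure Side.Hat (A : Side E γ α) (a τ : ℝ) (W₁ : ℕ) : Prop where
  h1 : ∀ K c S, K ⊆ c → c ⊆ S → A.hat K c ⊆ A.hat K S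
  h2 : ∀ X K X' p, Spr A a X K → A.h K ≤ W₁ → X' ⊆ X → ms A.w X ≤ 4 * ms A.w X' → τ / 2 ≤ p →
    p ≤ 1 → Ex p (fun Ω => ind (¬ ∃ S ∈ X', A.hat K S ⊆ Ω)) ≤ 1 / 8

def Blocks (A : Side E γ α) (B : Side E δ β) (K : Finset γ) (K' : Finset δ) (T : Finset β)
    (c : Finset γ) : Prop :=
  ∀ y, K' ⊆ y → (∀ e, A.ep e ⊆ K → ¬ B.ep e ⊆ y) → Disjoint (B.hat K' y) T →
    ∀ e, A.ep e ⊆ c → ¬ B.ep e ⊆ y

def Cover (A : Side E γ α) (B : Side E δ β) (τ : ℝ) (W₁ : ℕ) : Prop :=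
  ∀ K K' (J : Finset (Finset γ)),
    (∀ c ∈ J, K ⊆ c ∧ A.h c + B.h K' ≤ W₁ ∧ ∀ e, B.ep e ⊆ K' → ¬ A.ep e ⊆ c) →
    1 / 4 < Ex τ (fun Ω => ind (∃ c ∈ J, A.hat K c ⊆ Ω)) →
    ∃ p : ℝ, 0 ≤ p ∧ p ≤ 1 / 2 ∧ Ex p (fun T => ind (¬ ∃ c ∈ J, Blocks A B K K' T c)) ≤ 1 / 2

def Base (A : Side E γ α) (a : ℝ) (X₀ : Set (Finset γ)) (cX : ℝ) : Prop :=
  ∀ X K, X ⊆ X₀ → (∀ S ∈ X, K ⊆ S) → 0 < ms A.w X → Real.log (ms A.w X) ≤ cX - 5 * a * A.h K

def Claim (A : Side E γ α) (B : Side E δ β) (a τ : ℝ) (W₁ : ℕ) (X₀ : Set (Finset γ))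
    (Y₀ : Set (Finset δ)) (cX q : ℝ) (j : ℕ) : Prop :=
  ∀ Z K u ρ Y K', Z ⊆ X₀ → Y ⊆ Y₀ → (∀ S ∈ Z, K ⊆ S) → ms A.w Z ≤ u → 0 < ρ → ρ ≤ u →
    Real.log ρ ≤ cX - 5 * a * A.h K → Spr B a Y K' → Av A B Z K' → Av B A Y K →
    Real.log u - 2 * Real.log ρ - Real.log (ms B.w Y) - (3 * a + 6) * (A.h K + B.h K') ≤ q →
    W₁ < A.h K + B.h K' + j → Alive A B a q Z Y ∨ Dead A τ Z K ρ

variable {A : Side E γ α} {B : Side E δ β}

theorem Alive.swap {a q : ℝ} {Z : Set (Finset γ)} {Y : Set (Finset δ)} (h : Alive A B a q Z Y) :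
    Alive B A a q Y Z := by
  obtain ⟨X, K, Y', K', h1, h2, ⟨g1, g2, g3, g4⟩, h3⟩ := h
  exact ⟨Y', K', X, K, h2, h1, ⟨g2, g1, g4, g3⟩, by linarith⟩

theorem csize {a q cX cY u ρ m : ℝ} {W₁ s s' : ℕ} (ha : 6 ≤ a)
    (hq : q + cX + cY ≤ (2 * a - 6) * W₁) (h1 : 0 < ρ) (h2 : ρ ≤ u)
    (h3 : Real.log ρ ≤ cX - 5 * a * s) (h4 : Real.log m ≤ cY - 5 * a * s')
    (h5 : Real.log u - 2 * Real.log ρ - Real.log m - (3 * a + 6) * (s + s') ≤ q) : s + s' ≤ W₁ := by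
  have := Real.log_le_log h1 h2
  have h6 : (2 * a - 6) * (s + s') ≤ (2 * a - 6) * W₁ := by linarith
  exact_mod_cast le_of_mul_le_mul_left h6 (by linarith)

theorem cstep {W W₁ : ℕ} (hA : A.OK W) (hB : B.OK W) {a τ q cX cY : ℝ} (ha : 6 ≤ a)
    (hτ0 : 0 ≤ τ) (hτ1 : τ ≤ 1) (tA : A.Hat a τ W₁) (tB : B.Hat a τ W₁) (hc : Cover A B τ W₁)
    {X₀ : Set (Finset γ)} {Y₀ : Set (Finset δ)} (bA : Base A a X₀ cX) (bB : Base B a Y₀ cY)
    (hq : q + cX + cY ≤ (2 * a - 6) * W₁) {j : ℕ} (ih : Claim B A a τ W₁ Y₀ X₀ cY q j) :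
    Claim A B a τ W₁ X₀ Y₀ cX q (j + 1) := by
  intro Z K u ρ Y K' hZ hY x1 x2 x3 x4 x5 sp v1 v2 hpot hj
  by_contra hcon
  rw [not_or] at hcon
  obtain ⟨hal, hde⟩ := hcon
  obtain ⟨J, Q, r, ω, D₀, g1, g2, g3, g4⟩ := greedyS hA a x3 Z K x1 x2
  have l2 := Real.log_two_lt_d9
  have hm := sp.1
  have hbY := bB Y K' hY sp.2.1 hm
  have hsz := csize ha hq x3 x4 x5 hbY hpot
  have main : ∀ c ∈ J, A.h c + B.h K' ≤ W₁ ∧ ∃ D, ms B.w D ≤ ω c * (ms B.w Y / 4) ∧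
      Ex τ (fun Ω => ind (∃ y ∈ {y ∈ Y | ∀ e, A.ep e ⊆ c → ¬ B.ep e ⊆ y} \ D,
        B.hat K' y ⊆ Ω)) ≤ 1 / 4 := by
    intro c hc
    obtain ⟨a0, a1, a2, a3, a4, a5, a6, a7, a8, a9⟩ := g4 c hc
    have ht : Real.log (r c) ≤ Real.log u := Real.log_le_log (x3.trans a3) a4
    have ht' : Real.log ρ ≤ Real.log (r c) := Real.log_le_log x3 a3.le
    rcases hA.hs K c a0 with rfl | h
    · exact absurd ⟨Q K, K, Y, K', a1, le_rfl, ⟨a2, sp, fun S hS => v1 S (a1 hS), v2⟩,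
        by rw [sub_self, mul_zero] at a5; linarith⟩ hal
    have h' : (A.h K : ℝ) + 1 ≤ A.h c := by exact_mod_cast h
    have e0 : ω c * (ms B.w Y / 4) ≤ ms B.w Y :=
      (mul_le_of_le_one_left (by positivity) a7).trans (by linarith)
    have e1 : Real.log (ω c * (ms B.w Y / 4)) ≤ cY - 5 * a * B.h K' :=
      (Real.log_le_log (by positivity) e0).trans hbY
    have e2 : Real.log (ms B.w Y) - 2 * Real.log (ω c * (ms B.w Y / 4)) - Real.log (ms A.w (Q c)) -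
        (3 * a + 6) * (B.h K' + A.h c) ≤ q := by
      rw [Real.log_mul a6.ne' (by positivity), Real.log_div hm.ne' (by norm_num),
        show (4 : ℝ) = 2 ^ 2 by norm_num, Real.log_pow]
      push_cast
      linarith
    refine ⟨by have := csize (W₁ := W₁) ha (by linarith : q + cY + cX ≤ _) (by positivity) e0 e1
                (bA _ c (a1.trans hZ) a2.2.1 a2.1) e2
               omega, ?_⟩
    rcases ih {y ∈ Y | ∀ e, A.ep e ⊆ c → ¬ B.ep e ⊆ y} K' (ms B.w Y) (ω c * (ms B.w Y / 4)) (Q c) c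
      (fun y hy => hY hy.1) (a1.trans hZ) (fun y hy => sp.2.1 y hy.1)
      (ms_mono hB.hw fun y hy => hy.1) (by positivity) e0 e1 a2 (fun y hy => hy.2)
      (fun S hS => v1 S (a1 hS)) e2 (by omega) with ⟨Y', K₂, X', K₁, s1, s2, gd, hp⟩ | h
    · exact absurd (Alive.swap ⟨Y', K₂, X', K₁, fun y hy => (s1 hy).1, s2.trans a1, gd, hp⟩) hal
    · exact h
  choose! m1 D d1 d2 using main
  obtain ⟨p, p0, p1, p2⟩ := hc K K' J (fun c hc => ⟨(g4 c hc).1, m1 c hc, fun e he h => by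
      obtain ⟨-, a1, a2, -⟩ := g4 c hc
      obtain ⟨S, hS⟩ := ms_nonempty a2.1
      exact v1 S (a1 hS) e he (h.trans (a2.2.1 S hS))⟩) (by
    refine (not_le.mp fun h => hde ⟨D₀, g1, h⟩).trans_le (Ex_mono hτ0 hτ1 fun Ω => ind_mono ?_)
    rintro ⟨S, hS, h⟩
    obtain ⟨c, hc, h'⟩ := (g2 S hS.1).resolve_left hS.2
    obtain ⟨a0, -, a2, -⟩ := g4 c hc
    exact ⟨c, hc, (tA.h1 K c S a0 (a2.2.1 S h')).trans h⟩)
  have e2 := (ms_le_sum hB.hw J D (X := {y | ∃ c ∈ J, y ∈ D c}) fun S hS => hS).trans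
    (sum_le_sum d1)
  rw [← sum_mul] at e2
  have e3 := ms_le_add hB.hw (X := Y) (Y := Y \ {y | ∃ c ∈ J, y ∈ D c})
    (Z := {y | ∃ c ∈ J, y ∈ D c}) (by rw [Set.sdiff_union_self]; exact Set.subset_union_left)
  obtain ⟨T, Ω, -, f2, y, hy, f3⟩ := two_stage (e₂ := 1 / 4) p0 (by linarith) hτ0 hτ1
    (fun T => ∃ c ∈ J, Blocks A B K K' T c)
    (fun Ω => ∃ y ∈ Y \ {y | ∃ c ∈ J, y ∈ D c}, B.hat K' y ⊆ Ω)
    (fun T Ω => ∀ c ∈ J, Blocks A B K K' T c →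
      ∃ y ∈ {y ∈ Y | ∀ e, A.ep e ⊆ c → ¬ B.ep e ⊆ y} \ D c, B.hat K' y ⊆ Ω) (by norm_num) p2
    (fun T ⟨c, hc, h⟩ => (Ex_mono hτ0 hτ1 fun Ω => ind_mono fun h' => h' c hc h).trans (d2 c hc))
    (tB.h2 Y K' _ _ sp (by omega) Set.sdiff_subset (by nlinarith) (by nlinarith) (by nlinarith))
    (by norm_num)
  refine f2 fun c hc h => ⟨y, ⟨⟨hy.1, h y (sp.2.1 y hy.1) (v2 y hy.1) ?_⟩,
    fun h' => hy.2 ⟨c, hc, h'⟩⟩, f3.trans sdiff_subset⟩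
  exact disjoint_of_subset_left f3 sdiff_disjoint

theorem claim_all {W W₁ : ℕ} (hA : A.OK W) (hB : B.OK W) {a τ q cX cY : ℝ} (ha : 6 ≤ a)
    (hτ0 : 0 ≤ τ) (hτ1 : τ ≤ 1) (tA : A.Hat a τ W₁) (tB : B.Hat a τ W₁) (cA : Cover A B τ W₁)
    (cB : Cover B A τ W₁)
    {X₀ : Set (Finset γ)} {Y₀ : Set (Finset δ)} (bA : Base A a X₀ cX) (bB : Base B a Y₀ cY)
    (hq : q + cX + cY ≤ (2 * a - 6) * W₁) (j : ℕ) :
    Claim A B a τ W₁ X₀ Y₀ cX q j ∧ Claim B A a τ W₁ Y₀ X₀ cY q j := by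
  induction j with
  | zero =>
    constructor
    · intro Z K u ρ Y K' _ hY _ _ x3 x4 x5 sp _ _ hpot hj
      have := csize ha hq x3 x4 x5 (bB Y K' hY sp.2.1 sp.1) hpot
      omega
    · intro Z K u ρ Y K' _ hY _ _ x3 x4 x5 sp _ _ hpot hj
      have := csize (W₁ := W₁) ha (by linarith : q + cY + cX ≤ _) x3 x4 x5 (bA Y K' hY sp.2.1 sp.1) hpot
      omega
  | succ j ih =>
    exact ⟨cstep hA hB ha hτ0 hτ1 tA tB cA bA bB hq ih.2,
      cstep hB hA ha hτ0 hτ1 tB tA cB bB bA (by linarith) ih.1⟩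

theorem tstep {W W₁ : ℕ} (hA : A.OK W) {a τ q cX cY : ℝ} (ha : 6 ≤ a)
    (hτ0 : 0 ≤ τ) (hτ1 : τ ≤ 1) (tA : A.Hat a τ W₁)
    {X₀ : Set (Finset γ)} {Y₀ : Set (Finset δ)} (bA : Base A a X₀ cX) (bB : Base B a Y₀ cY)
    (hq : q + 3 + cX + cY ≤ (2 * a - 6) * W₁) (cl : Claim A B a τ W₁ X₀ Y₀ cX (q + 3) (W₁ + 1))
    {X : Set (Finset γ)} {K : Finset γ} {Y : Set (Finset δ)} {K' : Finset δ} (hX : X ⊆ X₀)
    (hY : Y ⊆ Y₀) (gd : Good A B a X K Y K')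
    (hp : - Real.log (ms A.w X) - Real.log (ms B.w Y) - (3 * a + 6) * (A.h K + B.h K') ≤ q)
    {X₁ X₂ : Set (Finset γ)} (h : X ⊆ X₁ ∪ X₂) :
    Alive A B a (q + 3) (X ∩ X₁) Y ∨ Alive A B a (q + 3) (X ∩ X₂) Y := by
  obtain ⟨s1, s2, v1, v2⟩ := gd
  have l2 := Real.log_two_lt_d9
  have key : ∀ Z ⊆ X, ms A.w X ≤ 2 * ms A.w Z → Alive A B a (q + 3) Z Y := by
    intro Z hZ hm
    have h0 : 0 < ms A.w Z := by linarith [s1.1]
    have e0 : ms A.w Z / 2 ≤ ms A.w Z := by linarith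
    have e1 : Real.log (ms A.w Z / 2) ≤ cX - 5 * a * A.h K := (Real.log_le_log (by positivity)
      e0).trans (bA Z K (hZ.trans hX) (fun S hS => s1.2.1 S (hZ hS)) h0)
    have e2 : Real.log (ms A.w Z) - 2 * Real.log (ms A.w Z / 2) - Real.log (ms B.w Y) -
        (3 * a + 6) * (A.h K + B.h K') ≤ q + 3 := by
      have := Real.log_le_log s1.1 hm
      rw [Real.log_mul (by norm_num) h0.ne'] at this
      rw [Real.log_div h0.ne' (by norm_num)]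
      linarith
    have e3 := csize ha hq (by positivity) e0 e1 (bB Y K' hY s2.2.1 s2.1) e2
    refine (cl Z K _ _ Y K' (hZ.trans hX) hY (fun S hS => s1.2.1 S (hZ hS)) le_rfl
      (by positivity) e0 e1 s2 (fun S hS => v1 S (hZ hS)) v2 e2 (by omega)).resolve_right ?_
    rintro ⟨D, d1, d2⟩
    have e4 := ms_le_add hA.hw (X := Z) (Y := Z \ D) (Z := D)
      (by rw [Set.sdiff_union_self]; exact Set.subset_union_left)
    have e5 := tA.h2 X K (Z \ D) τ s1 (by omega) (Set.sdiff_subset.trans hZ) (by linarith)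
      (by linarith) hτ1
    simp only [ind_not] at e5
    rw [Ex_sub, Ex_const] at e5
    linarith
  have e := ms_le_add hA.hw (X := X) (Y := X ∩ X₁) (Z := X ∩ X₂)
    (by rw [← Set.inter_union_distrib_left]; exact Set.subset_inter le_rfl h)
  rcases le_total (ms A.w (X ∩ X₁)) (ms A.w (X ∩ X₂)) with h' | h'
  · exact Or.inr (key _ Set.inter_subset_left (by linarith))
  · exact Or.inl (key _ Set.inter_subset_left (by linarith))

theorem noSolv_aux {W W₁ : ℕ} (hA : A.OK W) (hB : B.OK W) {a τ cX cY : ℝ} (ha : 6 ≤ a)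
    (hτ0 : 0 ≤ τ) (hτ1 : τ ≤ 1) (tA : A.Hat a τ W₁) (tB : B.Hat a τ W₁) (cA : Cover A B τ W₁)
    (cB : Cover B A τ W₁)
    {X₀ : Set (Finset γ)} {Y₀ : Set (Finset δ)} (bA : Base A a X₀ cX) (bB : Base B a Y₀ cY)
    (c : ℕ) : ∀ (q : ℝ) X K Y K', X ⊆ X₀ → Y ⊆ Y₀ → Good A B a X K Y K' →
      - Real.log (ms A.w X) - Real.log (ms B.w Y) - (3 * a + 6) * (A.h K + B.h K') ≤ q →
      q + 3 * c + cX + cY ≤ (2 * a - 6) * W₁ → ¬ Solv A.φ B.φ c X Y := by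
  induction c with
  | zero =>
    rintro q X K Y K' - - ⟨s1, s2, -, v2⟩ - - (rfl | rfl | ⟨e, h1, h2⟩)
    · exact Set.not_nonempty_empty (ms_nonempty s1.1)
    · exact Set.not_nonempty_empty (ms_nonempty s2.1)
    · obtain ⟨y, hy⟩ := ms_nonempty s2.1
      refine v2 y hy e ?_ (h2 y hy)
      rcases hA.hs K (K ∪ A.ep e) subset_union_left with h | h
      · exact h ▸ subset_union_right
      · have h3 := s1.2.2 (K ∪ A.ep e) subset_union_left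
        rw [show {S ∈ X | K ∪ A.ep e ⊆ S} = X from Set.ext fun S => and_iff_left_of_imp fun hS =>
          union_subset (s1.2.1 S hS) (h1 S hS), mul_comm] at h3
        have h4 := Real.exp_le_exp.mp (le_of_mul_le_mul_right h3 s1.1)
        have h5 : (A.h K : ℝ) < A.h (K ∪ A.ep e) := by exact_mod_cast h
        nlinarith
  | succ c ih =>
    intro q X K Y K' hX hY gd hp hq hs
    push_cast at hq
    have hc : (0 : ℝ) ≤ c := Nat.cast_nonneg c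
    have cl := claim_all (q := q + 3) hA hB ha hτ0 hτ1 tA tB cA cB bA bB (by linarith) (W₁ + 1)
    have fin : ∀ Z Y', Z ⊆ X → Y' ⊆ Y → Alive A B a (q + 3) Z Y' → ¬ Solv A.φ B.φ c Z Y' := by
      rintro Z Y' h1 h2 ⟨X', K₁, Y'', K₂, s1, s2, gd', hp'⟩ h
      exact ih (q + 3) X' K₁ Y'' K₂ (s1.trans (h1.trans hX)) (s2.trans (h2.trans hY)) gd' hp'
        (by linarith) (h.sub s1 s2)
    rcases hs with ⟨X₁, X₂, h, h1, h2⟩ | ⟨Y₁, Y₂, h, h1, h2⟩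
    · rcases tstep hA ha hτ0 hτ1 tA bA bB (by linarith) cl.1 hX hY gd hp h with h' | h'
      · exact fin _ _ Set.inter_subset_left le_rfl h' (h1.sub Set.inter_subset_right le_rfl)
      · exact fin _ _ Set.inter_subset_left le_rfl h' (h2.sub Set.inter_subset_right le_rfl)
    · rcases tstep (q := q) hB ha hτ0 hτ1 tB bB bA (by linarith) cl.2 hY hX
        ⟨gd.2.1, gd.1, gd.2.2.2, gd.2.2.1⟩ (by linarith) h with h' | h'
      · exact fin _ _ le_rfl Set.inter_subset_left h'.swap (h1.sub le_rfl Set.inter_subset_right)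
      · exact fin _ _ le_rfl Set.inter_subset_left h'.swap (h2.sub le_rfl Set.inter_subset_right)

theorem Side.OK.mono {W : ℕ} (hA : A.OK W) {K U : Finset γ} (h : K ⊆ U) : A.h K ≤ A.h U := by
  rcases hA.hs K U h with h | h
  · rw [h]
  · exact h.le

theorem Spr.base {W : ℕ} (hA : A.OK W) {a : ℝ} (ha : 0 ≤ a) {X : Set (Finset γ)} {K : Finset γ}
    (h : Spr A (5 * a) X K) :
    Base A a X (Real.log (ms A.w X) + 5 * a * A.h K) ∧ Spr A a X K := by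
  refine ⟨fun Z U hZ hU h0 => ?_, h.1, h.2.1, fun U hU => ?_⟩
  · have h1 := (mul_le_mul_of_nonneg_right (ms_mono hA.hw (X := Z) (Y := {S ∈ X | K ∪ U ⊆ S})
      fun S hS => ⟨hZ hS, union_subset (h.2.1 S (hZ hS)) (hU S hS)⟩) (Real.exp_pos _).le).trans
      (h.2.2 (K ∪ U) subset_union_left)
    have h2 := Real.log_le_log (by positivity) h1
    rw [Real.log_mul h0.ne' (by positivity), Real.log_mul (by positivity) h.1.ne', Real.log_exp,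
      Real.log_exp] at h2
    have h3 : (A.h U : ℝ) ≤ A.h (K ∪ U) := by exact_mod_cast hA.mono subset_union_right
    nlinarith
  · have h1 := h.2.2 U hU
    have h3 : (A.h K : ℝ) ≤ A.h U := by exact_mod_cast hA.mono hU
    have h4 : Real.exp (-(5 * a) * A.h U) * Real.exp (4 * a * A.h K) ≤ Real.exp (-a * A.h U) := by
      rw [← Real.exp_add]; exact Real.exp_le_exp.mpr (by nlinarith)
    have h5 : Real.exp (-a * A.h K) = Real.exp (-(5 * a) * A.h K) * Real.exp (4 * a * A.h K) := by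
      rw [← Real.exp_add]; congr 1; ring
    rw [h5, ← mul_assoc]
    refine (mul_le_mul_of_nonneg_right h1 (Real.exp_pos _).le).trans ?_
    rw [mul_right_comm]
    exact mul_le_mul_of_nonneg_right h4 h.1.le

/-- a regular state has no cheap protocol -/
theorem noSolv {W w : ℕ} (hA : A.OK W) (hB : B.OK W) {a τ : ℝ} (ha : 6 ≤ a)
    (hτ0 : 0 ≤ τ) (hτ1 : τ ≤ 1) (tA : A.Hat a τ (200 * w)) (tB : B.Hat a τ (200 * w))
    (cA : Cover A B τ (200 * w)) (cB : Cover B A τ (200 * w)) {c : ℕ}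
    (hc : (c : ℝ) ≤ 60 * a * w) {X : Set (Finset γ)} {K : Finset γ} {Y : Set (Finset δ)}
    {K' : Finset δ} (gd : Good A B (5 * a) X K Y K') (hs : A.h K + B.h K' ≤ w) :
    ¬ Solv A.φ B.φ c X Y := by
  obtain ⟨s1, s2, v1, v2⟩ := gd
  obtain ⟨b1, t1⟩ := s1.base hA (by linarith)
  obtain ⟨b2, t2⟩ := s2.base hB (by linarith)
  refine noSolv_aux hA hB ha hτ0 hτ1 tA tB cA cB b1 b2 c _ X K Y K' le_rfl le_rfl
    ⟨t1, t2, v1, v2⟩ le_rfl ?_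
  have h1 : (A.h K : ℝ) + B.h K' ≤ w := by exact_mod_cast hs
  have h2 : (0 : ℝ) ≤ w := Nat.cast_nonneg w
  push_cast
  nlinarith

end Pool.Agent.Lib.MP_79d702_lc.Two
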