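import Pool.Agent.Lib.MP_79d702_lc.Two.Host

/-!
The chain (hybrid) argument for product distributions on both sides.
-/

namespace Pool.Agent.Lib.MP_79d702_lc.Two

set_option linter.unusedSectionVars false

open Finset Pool.Agent.Lib.MP_79d702_lc.Neg

variable {V E : Type} [Fintype V] [DecidableEq V] [Fintype E] [DecidableEq E]

/-- expected total of `φ` over the pairs of the random chain -/
noncomputable def chain2 (σ β : ℝ) (pos : ℕ → Finset V → Finset ℕ) (neg : ℕ → Finset E → Finset ℕ)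
    (φ : Finset ℕ → Finset ℕ → ℝ) : ℕ → ℕ → Finset ℕ → ℝ
  | 0, _, _ => 0
  | d + 1, j, X => Ex σ (fun S => φ X (X ∪ pos j S)) +
      Ex β (fun y => chain2 σ β pos neg φ d (j + 1) (X ∪ neg j y))

variable {σ β : ℝ} {pos : ℕ → Finset V → Finset ℕ} {neg : ℕ → Finset E → Finset ℕ}

theorem chain2_le_sum (s0 : 0 ≤ σ) (s1 : σ ≤ 1) (b0 : 0 ≤ β) (b1 : β ≤ 1) {κ : Type}
    (G : Finset κ) (φ : Finset ℕ → Finset ℕ → ℝ)
    (ψ : κ → Finset ℕ → Finset ℕ → ℝ) (h : ∀ X Y, X ⊆ Y → φ X Y ≤ ∑ g ∈ G, ψ g X Y) (d : ℕ) :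
    ∀ j X, chain2 σ β pos neg φ d j X ≤ ∑ g ∈ G, chain2 σ β pos neg (ψ g) d j X := by
  induction d with
  | zero => intro j X; simp [chain2]
  | succ d ih =>
    intro j X
    simp only [chain2]
    rw [sum_add_distrib, ← Ex_sum, ← Ex_sum]
    exact add_le_add (Ex_mono s0 s1 fun S => h _ _ subset_union_left) (Ex_mono b0 b1 fun N => ih _ _)

theorem chain2_upper (s0 : 0 ≤ σ) (s1 : σ ≤ 1) (b0 : 0 ≤ β) (b1 : β ≤ 1) (g : Finset ℕ → Prop)
    (e : ℝ) (he : 0 ≤ e) (hg : ∀ X Y, X ⊆ Y → g X → g Y)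
    (hk : ∀ j X, Ex σ (fun S => ind (g (X ∪ pos j S))) ≤
      2 * Ex β (fun y => ind (g (X ∪ neg j y))) + e) (d : ℕ) :
    ∀ j X, chain2 σ β pos neg (fun X Y => ind (¬ g X ∧ g Y)) d j X ≤ 2 * ind (¬ g X) + d * e := by
  induction d with
  | zero => intro j X; have := ind_nonneg (¬ g X); simp only [chain2]; push_cast; linarith
  | succ d ih =>
    intro j X
    simp only [chain2]
    have h1 := Ex_mono b0 b1 fun y : Finset E => ih (j + 1) (X ∪ neg j y)
    rw [Ex_add, Ex_const, Ex_mul] at h1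
    by_cases hX : g X
    · have h3 : Ex σ (fun S => ind (¬ g X ∧ g (X ∪ pos j S))) ≤ 0 :=
        Ex_le s0 s1 fun S => (ind_neg fun h => h.1 hX).le
      have h2 : Ex β (fun y : Finset E => ind (¬ g (X ∪ neg j y))) ≤ 0 :=
        Ex_le b0 b1 fun N => (ind_neg fun h => h (hg _ _ subset_union_left hX)).le
      have := ind_nonneg (¬ g X)
      push_cast
      linarith
    · have h2 := (Ex_mono s0 s1 (φ := fun S => ind (¬ g X ∧ g (X ∪ pos j S)))
        fun S => ind_mono fun h => h.2).trans (hk j X)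
      simp only [ind_not] at h1
      rw [Ex_sub, Ex_const] at h1
      rw [ind_pos hX]
      push_cast
      linarith

theorem chain2_lower (s0 : 0 ≤ σ) (s1 : σ ≤ 1) (b0 : 0 ≤ β) (b1 : β ≤ 1) (F : Finset ℕ → Prop)
    (Inv : ℕ → Finset ℕ → Prop) (M : ℕ) (δ : ℝ) (hδ : 0 ≤ δ) (hM : M * δ ≤ 1)
    (h1 : ∀ j X, Inv j X → ¬ F X)
    (h2 : ∀ j < M, ∀ X, Inv j X → Ex σ (fun S => ind (¬ F (X ∪ pos j S))) ≤ 1 / 2)
    (h3 : ∀ j < M, ∀ X, Inv j X → Ex β (fun y => ind (¬ Inv (j + 1) (X ∪ neg j y))) ≤ δ) (d : ℕ) :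
    (∀ j X, 0 ≤ chain2 σ β pos neg (fun X Y => ind (¬ F X ∧ F Y)) d j X) ∧
    ∀ j X, j + d ≤ M → Inv j X →
      d / 2 * (1 - d * δ) ≤ chain2 σ β pos neg (fun X Y => ind (¬ F X ∧ F Y)) d j X := by
  induction d with
  | zero => simp [chain2]
  | succ d ih =>
    refine ⟨fun j X => ?_, fun j X hj hX => ?_⟩
    · simp only [chain2]
      exact add_nonneg (Ex_nonneg s0 s1 fun _ => ind_nonneg _) (Ex_nonneg b0 b1 fun N => ih.1 _ _)
    · simp only [chain2]
      have h0 := h2 j (by omega) X hX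
      simp only [ind_not] at h0
      rw [Ex_sub, Ex_const] at h0
      have h0' := Ex_mono s0 s1 (ψ := fun S => ind (¬ F X ∧ F (X ∪ pos j S)))
        fun S => ind_mono fun h => ⟨h1 j X hX, h⟩
      have hd : (d : ℝ) * δ ≤ 1 := by
        refine le_trans (mul_le_mul_of_nonneg_right ?_ hδ) hM
        exact_mod_cast (by omega : d ≤ M)
      have ha : 0 ≤ (d : ℝ) / 2 * (1 - d * δ) := mul_nonneg (by positivity) (by linarith)
      have h4 : Ex β (fun y : Finset E => (d / 2 * (1 - d * δ)) *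
            (1 - ind (¬ Inv (j + 1) (X ∪ neg j y)))) ≤
          Ex β (fun y : Finset E => chain2 σ β pos neg (fun X Y => ind (¬ F X ∧ F Y)) d (j + 1)
            (X ∪ neg j y)) := by
        refine Ex_mono b0 b1 fun N => ?_
        by_cases h : Inv (j + 1) (X ∪ neg j N)
        · rw [ind_neg (not_not.mpr h), sub_zero, mul_one]
          exact ih.2 _ _ (by omega) h
        · rw [ind_pos h, sub_self, mul_zero]
          exact ih.1 _ _
      rw [Ex_mul, Ex_sub, Ex_const] at h4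
      have h5 := mul_le_mul_of_nonneg_left (h3 j (by omega) X hX) ha
      have h6 : 0 ≤ (d : ℝ) * d * δ * δ := by positivity
      have h7 : 0 ≤ (d : ℝ) * δ := by positivity
      push_cast
      nlinarith

/-- the abstract lower bound -/
theorem bound2 {ep : E → Finset V} {w m r : ℕ} {τ : ℝ} (P : Par ep w m r τ) {emb : ℕ → E → ℕ}
    (hemb : ∀ j, Function.Injective (emb j)) {n t : ℕ} (C : Circuit n) (ht : C.nots ≤ t)
    (Inv : ℕ → Finset ℕ → Prop) (X₀ : Finset ℕ)
    (h0 : Inv 0 X₀) (h1 : ∀ j X, Inv j X → ¬ C.eval (vec n X) = true)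
    (h2 : ∀ j < 32 * 2 ^ t, ∀ X, Inv j X → Ex (τ ^ 2940) (fun S =>
      ind (¬ C.eval (vec n (X ∪ (ins ep S).image (emb j))) = true)) ≤ 1 / 2)
    (h3 : ∀ j < 32 * 2 ^ t, ∀ X, Inv j X → Ex (τ ^ 980) (fun y : Finset E =>
      ind (¬ Inv (j + 1) (X ∪ yᶜ.image (emb j)))) ≤ (1 / 2) ^ w) :
    2 ^ w ≤ 64 * 2 ^ t * (C.size + 1) := by
  by_cases hsmall : 2 ^ w ≤ 64 * 2 ^ t
  · exact hsmall.trans (Nat.le_mul_of_pos_right _ (by omega))
  have hbig : (64 * 2 ^ t : ℝ) ≤ 2 ^ w := by exact_mod_cast (not_le.mp hsmall).le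
  have hδ : (64 * 2 ^ t : ℝ) * (1 / 2) ^ w ≤ 1 := by
    rw [one_div, inv_pow, ← div_eq_mul_inv, div_le_one (by positivity)]; exact hbig
  have hvec : ∀ X Y : Finset ℕ, X ⊆ Y → ∀ i, vec n X i = true → vec n Y i = true := by
    intro X Y h i hi
    simp only [vec, decide_eq_true_eq] at hi ⊢
    exact h hi
  obtain ⟨-, -, t3, -⟩ := P.facts
  have t0 := P.t0
  have p1 : ∀ k : ℕ, τ ^ k ≤ 1 := fun k => pow_le_one₀ t0.le (by linarith)
  have p0 : ∀ k : ℕ, 0 ≤ τ ^ k := fun k => by positivity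
  obtain ⟨G, g1, g2, g3⟩ := amano_maruoka C ht
  have hlow := (chain2_lower (pos := fun j S => (ins ep S).image (emb j))
    (neg := fun j y => yᶜ.image (emb j)) (p0 2940) (p1 _) (p0 980) (p1 _)
    (fun X => C.eval (vec n X) = true) Inv (32 * 2 ^ t) ((1 / 2) ^ w) (by positivity)
    (by push_cast; nlinarith [pow_pos (two_pos (α := ℝ)) t, pow_pos (one_half_pos (α := ℝ)) w])
    h1 h2 h3 (32 * 2 ^ t)).2 0 X₀ (by omega) h0
  have hmid := chain2_le_sum (pos := fun j S => (ins ep S).image (emb j))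
    (neg := fun j y => yᶜ.image (emb j)) (p0 2940) (p1 _) (p0 980) (p1 _) G
    (fun X Y => ind (¬ C.eval (vec n X) = true ∧ C.eval (vec n Y) = true))
    (fun g X Y => ind (¬ node g.1 g.2 (vec n X) = true ∧ node g.1 g.2 (vec n Y) = true))
    (fun X Y hXY => le_trans (ind_mono fun h => g3 _ _ (hvec X Y hXY) h.1 h.2)
      (ind_exists_le G _)) (32 * 2 ^ t) 0 X₀
  have hup : ∀ g ∈ G, chain2 (τ ^ 2940) (τ ^ 980) (fun j S => (ins ep S).image (emb j))
      (fun j y => yᶜ.image (emb j)) (fun X Y => ind (¬ node g.1 g.2 (vec n X) = true ∧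
      node g.1 g.2 (vec n Y) = true)) (32 * 2 ^ t) 0 X₀ ≤
      2 + (32 * 2 ^ t : ℝ) * (3 * ((C.size + 1) * (1 / 2) ^ w)) := by
    intro g hg
    have := chain2_upper (pos := fun j S => (ins ep S).image (emb j))
      (neg := fun j y => yᶜ.image (emb j)) (p0 2940) (p1 _) (p0 980) (p1 _)
      (fun X => node g.1 g.2 (vec n X) = true)
      (3 * ((C.size + 1) * (1 / 2) ^ w)) (by positivity)
      (fun X Y h => node_mono g.1 (g2 g hg).1 (hvec X Y h) g.2) (fun j X => ?_) (32 * 2 ^ t) 0 X₀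
    · have h4 := ind_le_one (¬ node g.1 g.2 (vec n X₀) = true)
      push_cast at this
      linarith
    · refine (P.key (fun V => vec n (X ∪ V.image (emb j))) (fun i => ?_) g.1 (g2 g hg).1
        g.2).trans ?_
      · by_cases hi : i.val ∈ X
        · exact Or.inr ⟨true, fun V => by simp [vec, hi]⟩
        · by_cases hi' : ∃ a, emb j a = i.val
          · obtain ⟨a, ha⟩ := hi'
            refine Or.inl ⟨a, fun V => ?_⟩
            simp only [vec, decide_eq_true_eq, mem_union, hi, false_or]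
            rw [← ha]
            exact (hemb j).mem_finset_image
          · refine Or.inr ⟨false, fun V => ?_⟩
            simp only [vec, decide_eq_false_iff_not, mem_union, hi, false_or, mem_image]
            exact fun ⟨a, _, ha⟩ => hi' ⟨a, ha⟩
      · have : (g.1.countP Gate.isAndOr : ℝ) ≤ C.size := Nat.cast_le.mpr (g2 g hg).2
        gcongr
  have hsum := hmid.trans (sum_le_card_nsmul G _ _ hup)
  rw [nsmul_eq_mul] at hsum
  have hG : (G.card : ℝ) ≤ 2 * 2 ^ t := by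
    rw [pow_succ, mul_comm] at g1; exact_mod_cast g1
  have hfin := hlow.trans (hsum.trans (mul_le_mul_of_nonneg_right hG (by positivity)))
  push_cast at hfin
  set u : ℝ := 2 ^ t with hu
  set δ : ℝ := (1 / 2) ^ w with hδ'
  have hu0 : 0 < u := by positivity
  have h8 : 1 ≤ 48 * u * (C.size + 1) * δ := by
    have h9 : 16 * u * (1 / 2) ≤ 16 * u * (1 - 32 * u * δ) :=
      mul_le_mul_of_nonneg_left (by linarith) (by positivity)
    have h10 : u * 4 ≤ u * (192 * u * (C.size + 1) * δ) := by nlinarith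
    have := le_of_mul_le_mul_left h10 hu0
    linarith
  have h11 : (2 : ℝ) ^ w ≤ 48 * u * (C.size + 1) := by
    rw [hδ', one_div, inv_pow, ← div_eq_mul_inv, le_div_iff₀ (by positivity), one_mul] at h8
    exact h8
  have h12 : (2 : ℝ) ^ w ≤ 64 * u * (C.size + 1) := by
    have : (0 : ℝ) ≤ u * (C.size + 1) := by positivity
    nlinarith
  rw [hu] at h12
  exact_mod_cast h12

end Pool.Agent.Lib.MP_79d702_lc.Two
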