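import Mathlib

/-!
The clique function on `n` vertices.
-/

namespace Pool.Agent.Lib.MP_79d702_lc.Two

/-- The graph on `Fin n` whose edge `p q` (for `p < q`) is the input bit of the pair `(p, q)`
has a clique with `k` vertices. -/
def HasClique (n k : ℕ) (x : Fin (n * n) → Bool) : Prop :=
  ∃ T : Finset (Fin n), T.card = k ∧
    ∀ p ∈ T, ∀ q ∈ T, p < q → x (finProdFinEquiv (p, q)) = true

end Pool.Agent.Lib.MP_79d702_lc.Two
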