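import Pool.Agent.Lib.MP_79d702_lc.Two.Host2
import Pool.Agent.Lib.MP_79d702_lc.Two.CliqueDef

/-!
The lower bound for the clique function: `a` universal vertices and disjoint copies of the host.
-/

namespace Pool.Agent.Lib.MP_79d702_lc.Two

open Finset Pool.Agent.Lib.MP_79d702_lc.Neg

theorem pos_inj {n p q p' q' : ℕ} (hq : q < n) (hq' : q' < n) (h : q + n * p = q' + n * p') :
    p = p' ∧ q = q' := by
  have h1 := congrArg (· % n) h
  simp only [Nat.add_mul_mod_self_left, Nat.mod_eq_of_lt hq, Nat.mod_eq_of_lt hq'] at h1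
  subst h1
  exact ⟨Nat.eq_of_mul_eq_mul_left (by omega) (Nat.add_left_cancel h), rfl⟩

variable {v : ℕ}

theorem blk_inj {a j j' : ℕ} {u u' : Fin v} (h : a + j * v + u = a + j' * v + u') :
    j = j' ∧ u = u' := by
  have := pos_inj (p := j) (p' := j') u.2 u'.2 (by rw [mul_comm v, mul_comm v]; omega)
  exact ⟨this.1, Fin.ext this.2⟩

def embC (n a : ℕ) (H : Finset (Fin v × Fin v)) (j : ℕ) (e : EH H) : ℕ :=
  (a + j * v + e.1.2) + n * (a + j * v + e.1.1)

open Classical in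
noncomputable def startC (n a : ℕ) (H : Finset (Fin v × Fin v)) : Finset ℕ :=
  (range (n * n)).filter fun x => ∃ p q, q < n ∧ x = q + n * p ∧ (p < a ∨
    ∃ j, ∃ u u' : Fin v, (u, u') ∉ H ∧ p = a + j * v + u ∧ q = a + j * v + u')

def BlkC (n a k : ℕ) (H : Finset (Fin v × Fin v)) (X : Finset ℕ) (j : ℕ) : Prop :=
  ∃ S : Finset (Fin v), k ≤ S.card ∧ (∀ u ∈ S, a + j * v + u < n) ∧
    ∀ e, eph H e ⊆ S → embC n a H j e ∈ X

theorem clique_vec {n k : ℕ} {X : Finset ℕ} : HasClique n k (vec (n * n) X) ↔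
    ∃ T : Finset (Fin n), T.card = k ∧ ∀ p ∈ T, ∀ q ∈ T, p < q → q.val + n * p.val ∈ X := by
  simp [HasClique, vec]

theorem blk_of_clique {n a k : ℕ} {H : Finset (Fin v × Fin v)} (hk : 2 ≤ k) {X : Finset ℕ}
    (hX : ∀ x ∈ X, x ∈ startC n a H ∨ ∃ j e, a + j * v + v ≤ n ∧ x = embC n a H j e)
    (h : HasClique n (a + k) (vec (n * n) X)) : ∃ j, BlkC n a k H X j := by
  classical
  obtain ⟨T, t1, t2⟩ := clique_vec.mp h
  have c1 : (T.filter fun p => ¬ a ≤ p.val).card ≤ a := by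
    rw [← card_range a]
    exact card_le_card_of_injOn Fin.val (fun p hp => by simpa using (mem_filter.mp hp).2)
      Fin.val_injective.injOn
  have c2 := card_filter_add_card_filter_not (s := T) (fun p => a ≤ p.val)
  set T' := T.filter fun p => a ≤ p.val with hT'
  have same : ∀ p ∈ T', ∀ q ∈ T', p < q → ∃ j, ∃ u u' : Fin v, p.val = a + j * v + u ∧
      q.val = a + j * v + u' := by
    intro p hp q hq hpq
    rw [mem_filter] at hp hq
    rcases hX _ (t2 p hp.1 q hq.1 hpq) with h | ⟨j, e, h1, h2⟩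
    · obtain ⟨p', q', h1, h2, h3⟩ := (mem_filter.mp h).2
      obtain ⟨rfl, rfl⟩ := pos_inj q.2 h1 h2
      obtain ⟨j, u, u', -, h4⟩ := h3.resolve_left (by omega)
      exact ⟨j, u, u', h4⟩
    · exact ⟨j, e.1.1, e.1.2, pos_inj q.2 (by omega) h2⟩
  obtain ⟨p₀, hp₀, hmin⟩ := exists_min_image T' id (card_pos.mp (by omega))
  obtain ⟨q₀, hq₀, hne⟩ := exists_mem_ne (by omega : 1 < T'.card) p₀
  obtain ⟨j, u₀, -, h0, -⟩ := same p₀ hp₀ q₀ hq₀ (lt_of_le_of_ne (hmin _ hq₀) hne.symm)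
  have all : ∀ q ∈ T', ∃ u : Fin v, q.val = a + j * v + u := by
    intro q hq
    rcases eq_or_lt_of_le (hmin q hq) with h | h
    · exact ⟨u₀, (show p₀ = q from h) ▸ h0⟩
    · obtain ⟨j', u, u', h1, h2⟩ := same p₀ hp₀ q hq h
      exact ⟨u', (blk_inj (h0.symm.trans h1)).1 ▸ h2⟩
  refine ⟨j, univ.filter fun u => ∃ q ∈ T', q.val = a + j * v + u, ?_, fun u hu => ?_,
    fun e he => ?_⟩
  · refine le_trans (by omega : k ≤ T'.card) ?_
    rw [← card_image_of_injective T' Fin.val_injective]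
    refine le_trans (card_le_card fun x hx => ?_) (card_image_le (f := fun u : Fin v =>
      a + j * v + u.val))
    obtain ⟨q, hq, rfl⟩ := mem_image.mp hx
    obtain ⟨u, hu⟩ := all q hq
    exact mem_image.mpr ⟨u, mem_filter.mpr ⟨mem_univ _, q, hq, hu⟩, hu.symm⟩
  · obtain ⟨q, -, h⟩ := (mem_filter.mp hu).2
    exact h ▸ q.2
  · obtain ⟨p, hp, h1⟩ := (mem_filter.mp (he (mem_insert_self _ _))).2
    obtain ⟨q, hq, h2⟩ := (mem_filter.mp (he (mem_insert_of_mem (mem_singleton_self _)))).2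
    have := t2 p (mem_filter.mp hp).1 q (mem_filter.mp hq).1 (by
      have : e.1.1.val < e.1.2.val := e.2.2
      rw [Fin.lt_def]; omega)
    rwa [h1, h2] at this

theorem clique_of_blk {n a k j : ℕ} {H : Finset (Fin v × Fin v)} (ha : a ≤ n) {X : Finset ℕ}
    (hX : startC n a H ⊆ X) (h : BlkC n a k H X j) : HasClique n (a + k) (vec (n * n) X) := by
  classical
  obtain ⟨S, s1, s2, s3⟩ := h
  have hlt : ∀ m ∈ range a ∪ S.image fun u : Fin v => a + j * v + u.val, m < n := by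
    intro m hm
    rcases mem_union.mp hm with h | h
    · have := mem_range.mp h; omega
    · obtain ⟨u, hu, rfl⟩ := mem_image.mp h
      exact s2 u hu
  obtain ⟨T, t1, t2⟩ := exists_subset_card_eq (s := attachFin _ hlt) (n := a + k) (by
    rw [card_attachFin, card_union_of_disjoint, card_range,
      card_image_of_injective _ fun u u' h => (blk_inj h).2]
    · omega
    · refine disjoint_left.mpr fun m h1 h2 => ?_
      obtain ⟨u, -, rfl⟩ := mem_image.mp h2
      have := mem_range.mp h1; omega)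
  refine clique_vec.mpr ⟨T, t2, fun p hp q hq hpq => ?_⟩
  have hst : (p.val < a ∨ ∃ j, ∃ u u' : Fin v, (u, u') ∉ H ∧ p.val = a + j * v + u ∧
      q.val = a + j * v + u') → q.val + n * p.val ∈ X := fun h =>
    hX (mem_filter.mpr ⟨mem_range.mpr (finProdFinEquiv (p, q)).2, p, q, q.2, rfl, h⟩)
  rw [Fin.lt_def] at hpq
  rcases mem_union.mp ((mem_attachFin _).mp (t1 hp)) with h | h
  · exact hst (Or.inl (mem_range.mp h))
  obtain ⟨u, hu, h1⟩ := mem_image.mp h
  rcases mem_union.mp ((mem_attachFin _).mp (t1 hq)) with h | h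
  · have := mem_range.mp h; omega
  obtain ⟨u', hu', h2⟩ := mem_image.mp h
  by_cases hH : (u, u') ∈ H
  · rw [← h1, ← h2]
    exact s3 ⟨(u, u'), hH, by rw [Fin.lt_def]; simp only; omega⟩
      (insert_subset hu (singleton_subset_iff.mpr hu'))
  · exact hst (Or.inr ⟨j, u, u', hH, h1.symm, h2.symm⟩)

theorem clique_bound {n a k w m r t : ℕ} {τ : ℝ} {H : Finset (Fin v × Fin v)}
    (P : Par (eph H) w m r τ)
    (hneg : Ex (τ ^ 980) (fun y => ind (∃ S : Finset (Fin v), k ≤ S.card ∧ ins (eph H) S ⊆ yᶜ)) ≤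
      (1 / 2) ^ w) (hk : 2 * k ≤ τ ^ 2940 * v) (hk2 : 2 ≤ k) (h5 : a + 32 * 2 ^ t * v ≤ n)
    (C : Circuit (n * n)) (ht : C.nots ≤ t) (hC : ∀ x, C.eval x = true ↔ HasClique n (a + k) x) :
    2 ^ w ≤ 64 * 2 ^ t * (C.size + 1) := by
  classical
  obtain ⟨-, -, t3, -⟩ := P.facts
  have t0 := P.t0
  have p1 : ∀ k : ℕ, τ ^ k ≤ 1 := fun k => pow_le_one₀ t0.le (by linarith)
  have p0 : ∀ k : ℕ, 0 ≤ τ ^ k := fun k => by positivity
  have hv : v ≤ 32 * 2 ^ t * v := Nat.le_mul_of_pos_left _ (by positivity)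
  have hst : ∀ j (e : EH H), a + j * v + e.1.2 < n → embC n a H j e ∉ startC n a H := by
    intro j e he h
    obtain ⟨p, q, h1, h2, h3⟩ := (mem_filter.mp h).2
    obtain ⟨rfl, rfl⟩ := pos_inj he h1 h2
    obtain ⟨j', u, u', h4, h5, h6⟩ := h3.resolve_left (by omega)
    exact h4 ((blk_inj h5).2 ▸ (blk_inj h6).2 ▸ e.2.1)
  have hj : ∀ j j' (e e' : EH H), a + j * v + e.1.2 < n → a + j' * v + e'.1.2 < n →
      embC n a H j e = embC n a H j' e' → j = j' ∧ e = e' := by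
    intro j j' e e' h1 h2 h
    obtain ⟨h3, h4⟩ := pos_inj h1 h2 h
    exact ⟨(blk_inj h3).1, Subtype.ext (Prod.ext (blk_inj h3).2 (blk_inj h4).2)⟩
  have hS : ∀ (S : Finset (Fin v)) (e : EH H), eph H e ⊆ S → e.1.2 ∈ S := fun S e h =>
    h (mem_insert_of_mem (mem_singleton_self _))
  have hfit : ∀ j < 32 * 2 ^ t, a + j * v + v ≤ n := by
    intro j hj
    have e1 := Nat.mul_le_mul_right v (Nat.succ_le_of_lt hj)
    rw [Nat.succ_mul] at e1
    omega
  refine bound2 P (emb := embC n a H) (fun j e e' h => ?_) C ht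
    (fun j X => startC n a H ⊆ X ∧ (∀ x ∈ X, x ∈ startC n a H ∨
      ∃ j' e, j' < j ∧ a + j' * v + v ≤ n ∧ x = embC n a H j' e) ∧
      ∀ j', ¬ BlkC n a k H X j') (startC n a H) ⟨le_rfl, fun p hp => Or.inl hp, ?_⟩ ?_ ?_ ?_
  · have := pos_inj (n := n) (p := e.1.1) (p' := e'.1.1) (q := e.1.2) (q' := e'.1.2) (by omega)
      (by omega) (by simp only [embC, mul_add] at h; omega)
    exact Subtype.ext (Prod.ext (Fin.ext this.1) (Fin.ext this.2))
  · rintro j ⟨S, s1, s2, s3⟩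
    have h6 := (Ex_mono (p0 980) (p1 _) (φ := fun _ => 1) fun y => (ind_pos ⟨S, s1, fun e he =>
      absurd (s3 e (mem_ins.mp he)) (hst j e (s2 _ (hS S e (mem_ins.mp he))))⟩).ge).trans hneg
    rw [Ex_const] at h6
    exact absurd (pow_lt_one₀ (by norm_num) (by norm_num) (by have := P.hw; omega)) h6.not_gt
  · rintro j X ⟨-, a2, a3⟩ h
    obtain ⟨j', h⟩ := blk_of_clique hk2 (fun p hp => (a2 p hp).imp_right
      fun ⟨j', e, _, h⟩ => ⟨j', e, h⟩) ((hC _).mp h)
    exact a3 j' h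
  · rintro j hj X ⟨a1, -, -⟩
    refine le_trans (Ex_mono (p0 _) (p1 _) fun S => ind_mono ?_)
      (pos_accept (V := Fin v) (p0 2940) (p1 _) (k := k) (by simpa using hk))
    refine fun h hS => h ((hC _).mpr (clique_of_blk (j := j) (by omega)
      (a1.trans subset_union_left) ⟨S, hS, fun u _ => ?_, fun i hi =>
        mem_union_right _ (mem_image_of_mem _ (mem_ins.mpr hi))⟩))
    have := hfit j hj
    omega
  · rintro j hj' X ⟨a1, a2, a3⟩
    have hf := hfit j hj'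
    refine le_trans (Ex_mono (p0 _) (p1 _) fun y => ind_mono fun h => ?_) hneg
    by_contra hy
    refine h ⟨a1.trans subset_union_left, fun p hp => ?_, ?_⟩
    · rcases mem_union.mp hp with hp | hp
      · exact (a2 p hp).imp_right fun ⟨j', e, h1, h2⟩ => ⟨j', e, by omega, h2⟩
      · obtain ⟨i, -, rfl⟩ := mem_image.mp hp
        exact Or.inr ⟨j, i, by omega, hf, rfl⟩
    · rintro j' ⟨S, s1, s2, s3⟩
      by_cases hjj : j = j'
      · subst hjj
        refine hy ⟨S, s1, fun i hi => ?_⟩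
        rcases mem_union.mp (s3 i (mem_ins.mp hi)) with hp | hp
        · rcases a2 _ hp with h | ⟨j', e, h1, h2, h3⟩
          · exact absurd h (hst j i (by omega))
          · have := (hj _ _ _ _ (by omega) (by omega) h3).1
            omega
        · obtain ⟨i', hi', h⟩ := mem_image.mp hp
          exact (hj _ _ _ _ (by omega) (by omega) h).2 ▸ hi'
      · refine a3 j' ⟨S, s1, s2, fun i hi => (mem_union.mp (s3 i hi)).resolve_right fun hp => ?_⟩
        obtain ⟨i', -, h⟩ := mem_image.mp hp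
        exact hjj (hj _ _ _ _ (by omega) (s2 _ (hS S i hi)) h).1

theorem exists_par2 {w Q r m D k v : ℕ} (hw : 1 ≤ w) (hr : 200 * w < 2 ^ r) (hr1 : 1 ≤ r)
    (hm : 1 ≤ m) (hQ : 1 ≤ Q) (h1 : 8192 * r * m ≤ Q) (h2 : 2 ^ 27 * r * (Q ^ 16660 * w) ≤ 2 ^ m)
    (hD : D = 32 * Q ^ 6860) (hk : k = 6400 * D ^ 2 * w) (hv : v = 2 * Q ^ 2940 * k) :
    v = 13107200 * (Q ^ 16660 * w) ∧ 2 ≤ k ∧ k ≤ v ∧ 2 * k ≤ (1 / Q : ℝ) ^ 2940 * v ∧
    ∃ H : Finset (Fin v × Fin v), Par (eph H) w (4 * m) r (1 / Q) ∧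
      Ex ((1 / Q : ℝ) ^ 980) (fun y => ind (∃ S : Finset (Fin v), k ≤ S.card ∧
        ins (eph H) S ⊆ yᶜ)) ≤ (1 / 2) ^ w := by
  have Q1 : (1 : ℝ) ≤ Q := by exact_mod_cast hQ
  have D1 : 1 ≤ D := by rw [hD]; exact Nat.mul_pos (by norm_num) (by positivity)
  have e1 : v = 13107200 * (Q ^ 16660 * w) := by rw [hv, hk, hD]; ring
  have e2 : 2 * k ≤ v := by
    rw [hv]; exact Nat.mul_le_mul_right _ (Nat.le_mul_of_pos_right _ (by positivity))
  have e3 : w ≤ D ^ 2 * w := Nat.le_mul_of_pos_left _ (by positivity)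
  have e3' : D ≤ D ^ 2 * w := (Nat.le_self_pow (by norm_num) D).trans (Nat.le_mul_of_pos_right _ hw)
  have e4 : k = 6400 * (D ^ 2 * w) := by rw [hk, mul_assoc]
  obtain ⟨H, g1, g2⟩ := exists_host2 (v := v) (W := 400 * w) (k := k) (w := w) D1
    (by rw [show 32 * D ^ 2 * (400 * w) = 12800 * (D ^ 2 * w) by ring]; omega) (by omega)
    (by omega) (by omega) (β := (1 / Q : ℝ) ^ 980) (by positivity)
    (pow_le_one₀ (by positivity) (div_le_one_of_le₀ Q1 (by positivity))) (le_of_eq (by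
      rw [hv, hD]; push_cast; field_simp; ring))
  refine ⟨e1, by omega, by omega, le_of_eq (by rw [hv]; push_cast; field_simp), H,
    ⟨g1, hw, hr, by omega, by positivity, ?_, ?_⟩, g2⟩
  · rw [mul_one_div, div_le_one (by positivity)]
    have : 2048 * r * (4 * m) ≤ Q := by rw [show 2048 * r * (4 * m) = 8192 * r * m by ring]; exact h1
    exact_mod_cast this
  · have e5 : 8 * (r * Fintype.card (Fin v ⊕ EH H)) ≤ 2 ^ m * 2 ^ m := by
      refine le_trans ?_ (Nat.mul_le_mul h2 h2)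
      have c1 : Fintype.card (EH H) ≤ v * v :=
        (Fintype.card_subtype_le (fun e : Fin v × Fin v => e ∈ H ∧ e.1 < e.2)).trans_eq (by simp)
      have c2 : v ≤ v * v := Nat.le_mul_self v
      rw [Fintype.card_sum, Fintype.card_fin]
      generalize Q ^ 16660 * w = Z at *
      calc _ ≤ 8 * (r * (2 * (v * v))) :=
            Nat.mul_le_mul_left _ (Nat.mul_le_mul_left _ (by omega))
        _ = (16 * 13107200 * 13107200) * (r * (1 * (Z * Z))) := by rw [e1]; ring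
        _ ≤ (2 ^ 27 * 2 ^ 27) * (r * (r * (Z * Z))) := Nat.mul_le_mul (by norm_num)
            (Nat.mul_le_mul_left _ (Nat.mul_le_mul_right _ hr1))
        _ = _ := by ring
    have e6 : (8 : ℝ) * (r * Fintype.card (Fin v ⊕ EH H)) ≤ 2 ^ m * 2 ^ m := by exact_mod_cast e5
    have e7 : (2 / 3 : ℝ) ^ (4 * m) * (2 ^ m * 2 ^ m) ≤ 1 := by
      rw [pow_mul, ← mul_pow, ← mul_pow]; exact pow_le_one₀ (by norm_num) (by norm_num)
    have e8 := mul_le_mul_of_nonneg_left e6 (by positivity : (0 : ℝ) ≤ (2 / 3) ^ (4 * m))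
    linarith

theorem clique_final : ∃ c : ℕ, ∀ (n k w : ℕ) (C : Circuit (n * n)),
    (∀ x, C.eval x = true ↔ HasClique n k x) → 1 ≤ w → c * w * (Nat.log 2 w + 1) ^ c ≤ k →
    k + c * 2 ^ C.nots * w * (Nat.log 2 w + 1) ^ c ≤ n →
    2 ^ w ≤ 2 ^ (C.nots + 6) * (C.size + 1) := by
  obtain ⟨c, hc⟩ := exists_const (2 ^ 43) 16660
  refine ⟨c, fun n k w C hC hw hk hn => ?_⟩
  obtain ⟨Q, r, m, h1, h2, h3, h4, h5, h6, h7, h8⟩ := exists_Q hw
  have h9 : 2 ^ 27 * r * ((2 * Q) ^ 16660 * w) ≤ 2 ^ m := by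
    refine le_trans (Nat.mul_le_mul_left _ (Nat.mul_le_mul_right _ ?_)) h6
    have q1 : 4096 ≤ Q := le_trans (by
      rw [mul_assoc]; exact Nat.le_mul_of_pos_right _ (Nat.mul_pos h3 h2)) h5
    have q2 : ∀ a b : ℕ, b ≤ 12 * a → (2 * Q) ^ b ≤ Q ^ (a + b) := fun a b h => by
      rw [mul_pow, pow_add]
      refine Nat.mul_le_mul_right _ ((Nat.pow_le_pow_right (by norm_num) h).trans ?_)
      rw [pow_mul]; exact Nat.pow_le_pow_left q1 _
    exact q2 6860 16660 (by norm_num)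
  obtain ⟨e1, e2, e3, e4, H, P, e5⟩ := exists_par2 (Q := 2 * Q) hw h1 h3 h2 (by omega)
    (by rw [show 8192 * r * m = 2 * (4096 * r * m) by ring]; omega) h9 rfl rfl rfl
  generalize 32 * (2 * Q) ^ 6860 = D at *
  generalize 6400 * D ^ 2 * w = k₀ at *
  generalize 2 * (2 * Q) ^ 2940 * k₀ = v at *
  have f0 : 2 ^ 43 * ((2 * Q) ^ 16660 * w) ≤ c * w * (Nat.log 2 w + 1) ^ c := by
    calc _ = w * (2 ^ 43 * ((2 * Q) ^ 16660 * 1)) := by ring
      _ ≤ w * (c * (Nat.log 2 w + 1) ^ c) :=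
          Nat.mul_le_mul_left _ (hc _ (2 * Q) 1 (by omega) (by omega) (by omega))
      _ = _ := by ring
  generalize (2 * Q) ^ 16660 * w = Z at *
  have f1 := Nat.mul_le_mul_left (2 ^ C.nots) f0
  rw [show c * 2 ^ C.nots * w * (Nat.log 2 w + 1) ^ c =
    2 ^ C.nots * (c * w * (Nat.log 2 w + 1) ^ c) by ring] at hn
  rw [mul_left_comm] at f1
  rw [pow_add, mul_comm (2 ^ C.nots)]
  refine clique_bound (a := k - k₀) P e5 e4 e2 ?_ C le_rfl ?_
  · rw [e1, show 32 * 2 ^ C.nots * (13107200 * Z) = 419430400 * (2 ^ C.nots * Z) by ring]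
    omega
  · rwa [Nat.sub_add_cancel (by omega)]

end Pool.Agent.Lib.MP_79d702_lc.Two
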