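import Pool.Agent.Lib.MP_79d702_lc.Two.Cascade

/-!
A spread family of edge sets has a member all of whose edges are hit by a random set of atoms.
-/

namespace Pool.Agent.Lib.MP_79d702_lc.Two

set_option linter.unusedSectionVars false

open Finset Pool.Agent.Lib.MP_79d702_lc.Neg

variable {E α ι : Type} [Fintype E] [DecidableEq E] [Fintype α] [DecidableEq α] [Fintype ι]

theorem coverD {w : ι → ℝ} (hw : ∀ i, 0 ≤ w i) (atm : E → Finset α) (h0 : ∀ e, (atm e).Nonempty)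
    (h2 : ∀ e, (atm e).card ≤ 2) {W m : ℕ}
    (hsp : ∀ G : Finset α, G.card ≤ W → (univ.filter fun e => atm e ⊆ G).card ≤ 2 * G.card)
    {t : ℝ} (ht : 0 < t) (ht1 : 1024 * t < 1) (ht2 : 1024 * m * t ≤ 1) (r : ℕ) :
    ∀ (l : ℕ) (X : Set ι) (F : ι → Finset E), (∀ i ∈ X, (F i).card ≤ l) → l < 2 ^ r → 2 * l ≤ W →
      (∀ T, ms w {i ∈ X | T ⊆ F i} ≤ (t ^ 6) ^ T.card) → r * t < ms w X →
      Ex (1 - (1 - 1024 * m * t) ^ r) (fun T => ind (¬ ∃ i ∈ X, ∀ e ∈ F i, ¬ Disjoint (atm e) T))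
        ≤ r * ((2 / 3) ^ m * Fintype.card α) := by
  classical
  have hτ0 : 0 ≤ 1024 * m * t := by positivity
  induction r with
  | zero =>
    intro l X F h1 h3 _ _ h4
    obtain ⟨i, hi⟩ := ms_nonempty (w := w) (X := X) (by simpa using h4)
    have h5 : F i = ∅ := card_eq_zero.mp (by have := h1 i hi; omega)
    refine Ex_le (by simp) (by simp) fun T => ?_
    rw [ind_neg (not_not.mpr ⟨i, hi, by simp [h5]⟩)]
    simp
  | succ r ih =>
    intro l X F h1 h3 hW hS h4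
    let ins : Finset α → Finset E := fun G => univ.filter fun e => atm e ⊆ G
    obtain ⟨J, P, ρ, ω, B, g1, g2, -, g4⟩ := greedy hw
      (fun i (c : Finset α × Finset E) => c.1 ⊆ (F i).biUnion atm ∧ F i ∩ ins c.1 = c.2)
      (fun c => (4 * t) ^ c.1.card / 2 ^ (ins c.1).card) (fun _ => by positivity) univ
      (c₀ := (∅, ∅)) (mem_univ _) ht X (fun i _ => ⟨empty_subset _, by
        refine eq_empty_of_forall_notMem fun e he => ?_
        exact (h0 e).ne_empty (subset_empty.mp (mem_filter.mp (mem_inter.mp he).2).2)⟩) le_rfl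
    have hch : ∀ i ∈ {i | ∃ c ∈ J, i ∈ P c}, ∃ c ∈ J, i ∈ P c := fun i hi => hi
    choose! c hc1 hc2 using hch
    have hsize : ∀ d ∈ J, d.2.card ≤ l / 2 := by
      intro d hd
      obtain ⟨-, a1, a2, a3, -, a5, a6, -⟩ := g4 d hd
      obtain ⟨i, hi⟩ := ms_nonempty a5
      have e1 : d.1.card ≤ 2 * l := by
        refine (card_le_card (a2 i hi).1).trans ((card_biUnion_le_card_mul _ _ 2
          fun e _ => h2 e).trans ?_)
        have := h1 i (a1 hi)
        omega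
      have e2 : (ins d.1).card ≤ 2 * d.1.card := hsp _ (e1.trans hW)
      have e3 : ms w (P d) ≤ (t ^ 6) ^ d.2.card := (ms_mono hw (Y := {i ∈ X | d.2 ⊆ F i})
        fun j hj => ⟨a1 hj, (a2 j hj).2 ▸ inter_subset_left⟩).trans (hS d.2)
      have e4 : t ^ d.1.card ≤ (4 * t) ^ d.1.card / 2 ^ (ins d.1).card := by
        rw [le_div_iff₀ (by positivity), mul_pow, mul_comm]
        refine mul_le_mul_of_nonneg_right ((pow_le_pow_right₀ (by norm_num) e2).trans_eq ?_)
          (by positivity)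
        rw [pow_mul]; norm_num
      have e5 : ins ∅ = ∅ := eq_empty_of_forall_notMem fun e he =>
        (h0 e).ne_empty (subset_empty.mp (mem_filter.mp he).2)
      simp only [e5, card_empty, pow_zero, div_one, one_mul] at a6
      have e6 : t ^ (d.1.card + 1) ≤ t ^ (6 * d.2.card) := by
        rw [pow_succ, pow_mul]
        exact (mul_le_mul e4 a3.le ht.le (by positivity)).trans (a6.trans e3)
      have := (pow_le_pow_iff_right_of_lt_one₀ ht (by linarith)).mp e6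
      omega
    have e0 := ms_le_add hw (X := X) (Y := B) (Z := {i | ∃ c ∈ J, i ∈ P c}) g2
    have hsub : ∀ i ∈ {i | ∃ c ∈ J, i ∈ P c}, i ∈ X ∧ (c i).2 ⊆ F i := fun i hi =>
      ⟨(g4 _ (hc1 i hi)).2.1 (hc2 i hi),
        ((g4 _ (hc1 i hi)).2.2.1 i (hc2 i hi)).2 ▸ inter_subset_left⟩
    have IH := ih (l / 2) {i | ∃ c ∈ J, i ∈ P c} (fun i => (c i).2)
      (fun i hi => hsize _ (hc1 i hi)) (by rw [pow_succ] at h3; omega) (by omega)
      (fun T => (ms_mono hw (Y := {i ∈ X | T ⊆ F i}) fun i hi =>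
        ⟨(hsub i hi.1).1, hi.2.trans (hsub i hi.1).2⟩).trans (hS T)) (by push_cast at h4; linarith)
    have hhit : ∀ d ∈ J, Ex (1024 * m * t) (fun V => ind (¬ ∃ i ∈ P d,
        (F i).biUnion atm \ d.1 ⊆ V)) ≤ (2 / 3) ^ m * Fintype.card α := by
      intro d hd
      obtain ⟨-, a1, a2, -, -, a5, -, a7, -⟩ := g4 d hd
      refine hit hw (η := 4 * t) (by positivity) (by linarith) (by linarith) ht2 _ a5 _
        fun T _ => ?_
      by_cases hT : Disjoint d.1 T
      swap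
      · rw [Set.eq_empty_of_forall_notMem (s := {i ∈ P d | T ⊆ (F i).biUnion atm \ d.1})
          fun i hi => hT (disjoint_of_subset_right hi.2 disjoint_sdiff), ms_empty]
        positivity
      have hi : ins d.1 ⊆ ins (d.1 ∪ T) := fun e he =>
        mem_filter.mpr ⟨mem_univ _, (mem_filter.mp he).2.trans subset_union_left⟩
      refine (ms_le_sum hw (ins (d.1 ∪ T) \ ins d.1).powerset (fun A => {i ∈ P d |
        d.1 ∪ T ⊆ (F i).biUnion atm ∧ F i ∩ ins (d.1 ∪ T) = d.2 ∪ A}) fun i hi' =>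
        ⟨F i ∩ (ins (d.1 ∪ T) \ ins d.1), mem_powerset.mpr inter_subset_right, hi'.1,
          union_subset (a2 i hi'.1).1 (hi'.2.trans sdiff_subset), ?_⟩).trans ?_
      · rw [← (a2 i hi'.1).2, ← inter_union_distrib_left, union_sdiff_of_subset hi]
      refine (sum_le_card_nsmul _ _ ((4 * t) ^ T.card / 2 ^ (ins (d.1 ∪ T) \ ins d.1).card *
        ms w (P d)) fun A _ => ?_).trans_eq ?_
      · have := a7 (d.1 ∪ T, d.2 ∪ A) (mem_univ _)
        simp only [card_union_of_disjoint hT] at this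
        rw [← card_sdiff_add_card_eq_card hi] at this
        refine le_of_mul_le_mul_right (this.trans_eq ?_) (by positivity)
        rw [pow_add, pow_add]
        field_simp
      · rw [card_powerset, nsmul_eq_mul]
        push_cast
        field_simp
    have hp0 : 0 ≤ 1 - (1 - 1024 * m * t) ^ r := by
      have : (1 - 1024 * m * t) ^ r ≤ 1 := pow_le_one₀ (by linarith) (by linarith)
      linarith
    have hp1 : 1 - (1 - 1024 * m * t) ^ r ≤ 1 := by
      have : 0 ≤ (1 - 1024 * m * t) ^ r := pow_nonneg (by linarith) _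
      linarith
    rw [show 1 - (1 - 1024 * m * t) ^ (r + 1) = 1 - (1 - (1 - (1 - 1024 * m * t) ^ r)) *
      (1 - 1024 * m * t) by ring, ← Ex_conv]
    refine (Ex_mono hp0 hp1 (ψ := fun T => ind (¬ ∃ i ∈ {i | ∃ c ∈ J, i ∈ P c},
      ∀ e ∈ (c i).2, ¬ Disjoint (atm e) T) + (2 / 3) ^ m * Fintype.card α) fun T => ?_).trans ?_
    · by_cases hT : ∃ i ∈ {i | ∃ c ∈ J, i ∈ P c}, ∀ e ∈ (c i).2, ¬ Disjoint (atm e) T
      · rw [ind_neg (not_not.mpr hT), zero_add]
        obtain ⟨i, hi, hT⟩ := hT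
        refine le_trans (Ex_mono hτ0 ht2 fun V => ind_mono fun h => ?_) (hhit _ (hc1 i hi))
        rintro ⟨j, hj, hV⟩
        obtain ⟨-, a1, a2, -⟩ := g4 _ (hc1 i hi)
        refine h ⟨j, a1 hj, fun e he hd => ?_⟩
        rw [disjoint_union_right] at hd
        by_cases h' : atm e ⊆ (c i).1
        · exact hT e ((a2 j hj).2 ▸ mem_inter.mpr ⟨he, mem_filter.mpr ⟨mem_univ _, h'⟩⟩) hd.1
        · obtain ⟨x, hx, hx'⟩ := not_subset.mp h'
          exact disjoint_left.mp hd.2 hx (hV (mem_sdiff.mpr ⟨mem_biUnion.mpr ⟨e, he, hx⟩, hx'⟩))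
      · rw [ind_pos hT]
        refine (Ex_le hτ0 ht2 fun V => ind_le_one _).trans (le_add_of_nonneg_right (by positivity))
    · rw [Ex_add, Ex_const]
      push_cast
      linarith

/-- regularity of the cores gives spread atoms -/
theorem hat_of {γ : Type} [Fintype γ] [DecidableEq γ] {A : Side E γ α} {W W₁ m : ℕ} (hA : A.OK W)
    {a t : ℝ} (ht : 0 < t) (ht1 : 2048 * t ≤ 1) (ht2 : 2048 * m * t ≤ 1)
    (ha : Real.exp (-a) = t ^ 28) (hm : (2 / 3 : ℝ) ^ m * Fintype.card α ≤ 1 / 8)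
    (h1 : ∀ K c S, K ⊆ c → c ⊆ S → A.hat K c ⊆ A.hat K S)
    (h2 : ∀ K S₀ T, A.h K ≤ W₁ → K ⊆ S₀ → T ⊆ A.hat K S₀ → ∃ U, K ⊆ U ∧
      T.card + 4 * A.h K ≤ 4 * A.h U ∧ ∀ S, K ⊆ S → T ⊆ A.hat K S → U ⊆ S) :
    A.Hat a (t ^ 6) W₁ := by
  refine ⟨h1, fun X K X' p sp hK hX hm' hp0 hp1 => le_trans (hit hA.hw (η := 4 * t ^ 7)
    (by positivity) ?_ ?_ hp1 X' (by linarith [sp.1]) _ fun T hT => ?_) hm⟩
  · have : t ^ 6 ≤ 1 := pow_le_one₀ ht.le (by linarith)
    nlinarith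
  · have : 0 < t ^ 6 := by positivity
    nlinarith
  rcases {S ∈ X' | T ⊆ A.hat K S}.eq_empty_or_nonempty with h | ⟨S₀, hS₀⟩
  · rw [h, ms_empty]
    exact mul_nonneg (by positivity) (ms_nonneg hA.hw _)
  obtain ⟨U, u1, u2, u3⟩ := h2 K S₀ T hK (sp.2.1 _ (hX hS₀.1)) hS₀.2
  have e1 := (mul_le_mul_of_nonneg_right (ms_mono hA.hw (X := {S ∈ X' | T ⊆ A.hat K S})
    (Y := {S ∈ X | U ⊆ S}) fun S hS => ⟨hX hS.1, u3 S (sp.2.1 _ (hX hS.1)) hS.2⟩)
    (Real.exp_pos _).le).trans (sp.2.2 U u1)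
  rw [mul_comm (-a), mul_comm (-a), Real.exp_nat_mul, Real.exp_nat_mul, ha, ← pow_mul,
    ← pow_mul] at e1
  have e2 : t ^ (28 * A.h U) ≤ t ^ (7 * T.card) * t ^ (28 * A.h K) := by
    rw [← pow_add]
    exact pow_le_pow_of_le_one ht.le (by linarith) (by omega)
  have e3 := e1.trans (mul_le_mul e2 hm' sp.1.le (by positivity))
  rw [mul_right_comm] at e3
  refine (le_of_mul_le_mul_right e3 (by positivity)).trans ?_
  rw [mul_pow, ← pow_mul, ← mul_assoc, mul_comm _ (4 : ℝ)]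
  refine mul_le_mul_of_nonneg_right (mul_le_mul_of_nonneg_right
    (le_self_pow₀ (by norm_num) hT.card_pos.ne') (by positivity)) (ms_nonneg hA.hw _)

end Pool.Agent.Lib.MP_79d702_lc.Two
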