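import Pool.Agent.Lib.MP_79d702_lc.Two.Solv

/-!
The two sides of the game, regular states, and the dichotomy: a rectangle without a regular state
has a cheap protocol after few rows and columns are deleted.
-/

namespace Pool.Agent.Lib.MP_79d702_lc.Two

set_option linter.unusedSectionVars false

open Finset Pool.Agent.Lib.MP_79d702_lc.Neg

/-- one player: weights of the inputs, size of cores, supports of the answers, atoms -/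
structure Side (E γ α : Type) where
  w : Finset γ → ℝ
  h : Finset γ → ℕ
  ep : E → Finset γ
  hat : Finset γ → Finset γ → Finset α

variable {E γ δ α β : Type} [Fintype E] [Fintype γ] [DecidableEq γ] [Fintype δ] [DecidableEq δ]

def Side.φ (A : Side E γ α) (S : Finset γ) (e : E) : Prop := A.ep e ⊆ S

structure Side.OK (A : Side E γ α) (W : ℕ) : Prop where
  hw : ∀ S, 0 ≤ A.w S
  hs : ∀ K U, K ⊆ U → K = U ∨ A.h K < A.h U
  hF : ∀ K U, K ⊆ U → A.h U ≤ W →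
    (univ.filter fun e => A.ep e ⊆ U ∧ ¬ A.ep e ⊆ K).card + A.h K ≤ A.h U

/-- `X` is regular around the core `K` -/
def Spr (A : Side E γ α) (a : ℝ) (X : Set (Finset γ)) (K : Finset γ) : Prop :=
  0 < ms A.w X ∧ (∀ S ∈ X, K ⊆ S) ∧ ∀ U, K ⊆ U →
    ms A.w {S ∈ X | U ⊆ S} * Real.exp (-a * A.h K) ≤ Real.exp (-a * A.h U) * ms A.w X

/-- the core of the other player gives no answer on `X` -/
def Av (A : Side E γ α) (B : Side E δ β) (X : Set (Finset γ)) (K' : Finset δ) : Prop :=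
  ∀ S ∈ X, ∀ e, B.ep e ⊆ K' → ¬ A.ep e ⊆ S

def Good (A : Side E γ α) (B : Side E δ β) (a : ℝ) (X : Set (Finset γ)) (K : Finset γ)
    (Y : Set (Finset δ)) (K' : Finset δ) : Prop :=
  Spr A a X K ∧ Spr B a Y K' ∧ Av A B X K' ∧ Av B A Y K

theorem greedyS {A : Side E γ α} {W : ℕ} (hA : A.OK W) (a : ℝ) {ρ u : ℝ} (hρ : 0 < ρ)
    (X : Set (Finset γ)) (K : Finset γ) (hX : ∀ S ∈ X, K ⊆ S) (hu : ms A.w X ≤ u) :
    ∃ (J : Finset (Finset γ)) (P : Finset γ → Set (Finset γ)) (r ω : Finset γ → ℝ)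
      (B : Set (Finset γ)), ms A.w B ≤ ρ ∧
      (∀ S ∈ X, S ∈ B ∨ ∃ c ∈ J, S ∈ P c) ∧ ∑ c ∈ J, ω c ≤ 1 ∧
      ∀ c ∈ J, K ⊆ c ∧ P c ⊆ X ∧ Spr A a (P c) c ∧ ρ < r c ∧ r c ≤ u ∧
        Real.log (r c) - Real.log (ms A.w (P c)) ≤ a * (A.h c - A.h K) ∧
        0 < ω c ∧ ω c ≤ 1 ∧ ω c * r c ≤ ms A.w (P c) ∧
        - Real.log (ω c) ≤ Real.log (r c) - Real.log (ms A.w (P c)) +
          (Real.log u - Real.log (r c)) / 4 + 2 * Real.log 2 := by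
  obtain ⟨J, P, r, ω, B, g1, g2, g3, g4⟩ := greedy hA.hw (fun S c => c ⊆ S)
    (fun c => Real.exp (-a * A.h c)) (fun _ => Real.exp_pos _) (univ.filter (K ⊆ ·))
    (c₀ := K) (by simp) hρ X hX hu
  refine ⟨J, P, r, ω, B, g1, g2, g3, fun c hc => ?_⟩
  obtain ⟨a0, a1, a2, a3, a4, a5, a6, a7, a8, a9, a10, a11⟩ := g4 c hc
  have hK : K ⊆ c := (mem_filter.mp a0).2
  refine ⟨hK, a1, ⟨a5, a2, fun U hU => a7 U (mem_filter.mpr ⟨mem_univ _, hK.trans hU⟩)⟩, a3, a4,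
    ?_, a8, a9, a10, a11⟩
  have hr : 0 < r c := hρ.trans a3
  have := Real.log_le_log (by positivity) a6
  rw [Real.log_mul (by positivity) hr.ne', Real.log_mul (by positivity) a5.ne', Real.log_exp,
    Real.log_exp] at this
  linarith

def Nd (A : Side E γ α) (b : ℝ) (X : Set (Finset γ)) (K : Finset γ) (u ρ : ℝ) : Prop :=
  (∀ S ∈ X, K ⊆ S) ∧ ms A.w X ≤ u ∧ 0 < ρ ∧ ρ ≤ u ∧ Real.log u ≤ -b * A.h K

noncomputable def pot (u ρ : ℝ) : ℝ := 3 * Real.log u - 4 * Real.log ρ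

def Goal (A : Side E γ α) (B : Side E δ β) (c : ℝ) (X : Set (Finset γ)) (ρ : ℝ)
    (Y : Set (Finset δ)) (ρ' : ℝ) : Prop :=
  ∃ D D', ms A.w D ≤ ρ ∧ ms B.w D' ≤ ρ' ∧ SolvR A.φ B.φ c (X \ D) (Y \ D')

theorem Nd.pot_ge {A : Side E γ α} {b : ℝ} {X : Set (Finset γ)} {K : Finset γ} {u ρ : ℝ}
    (h : Nd A b X K u ρ) : b * A.h K ≤ pot u ρ := by
  obtain ⟨-, -, h1, h2, h3⟩ := h
  have := Real.log_le_log h1 h2
  unfold pot
  linarith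

variable {A : Side E γ α} {B : Side E δ β}

theorem Goal.swap {c ρ ρ' : ℝ} {X : Set (Finset γ)} {Y : Set (Finset δ)}
    (h : Goal A B c X ρ Y ρ') : Goal B A c Y ρ' X ρ := by
  obtain ⟨D, D', h1, h2, n, h3, h4⟩ := h
  exact ⟨D', D, h2, h1, n, h3, h4.swap⟩

theorem Goal.up {c c' ρ ρ' : ℝ} {X : Set (Finset γ)} {Y : Set (Finset δ)}
    (h : Goal A B c X ρ Y ρ') (hc : c ≤ c') : Goal A B c' X ρ Y ρ' := by
  obtain ⟨D, D', h1, h2, n, h3, h4⟩ := h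
  exact ⟨D, D', h1, h2, n, h3.trans hc, h4⟩

theorem size_le {a P : ℝ} {W₀ : ℕ} (ha : 36 ≤ a) (hP : P + 28 ≤ a * W₀)
    {X : Set (Finset γ)} {K : Finset γ} {u ρ : ℝ} {Y : Set (Finset δ)} {K' : Finset δ} {u' ρ' : ℝ}
    (h1 : Nd A (7 * a) X K u ρ) (h2 : Nd B (7 * a) Y K' u' ρ')
    (h : pot u ρ + pot u' ρ' - (5 * a + 28) * (A.h K + B.h K') ≤ P + 28) :
    A.h K + B.h K' ≤ W₀ := by
  have h3 := h1.pot_ge
  have h4 := h2.pot_ge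
  have h5 : (0 : ℝ) ≤ A.h K + B.h K' := by positivity
  have h6 : a * (A.h K + B.h K') ≤ a * W₀ := by nlinarith
  exact_mod_cast le_of_mul_le_mul_left h6 (by linarith)

theorem dstep {W W₀ : ℕ} (hA : A.OK W) (hB : B.OK W) (hW : W₀ ≤ W) {a P C : ℝ} (ha : 36 ≤ a)
    (hP : P + 28 ≤ a * W₀) (hC : 0 ≤ C)
    (base : ∀ X K, (∀ S ∈ X, K ⊆ S) → 0 < ms A.w X → Real.log (ms A.w X) ≤ -(7 * a) * A.h K)
    {X : Set (Finset γ)} {K : Finset γ} {u ρ : ℝ} {Y : Set (Finset δ)} {K' : Finset δ} {u' ρ' : ℝ}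
    (h1 : Nd A (7 * a) X K u ρ) (h2 : Nd B (7 * a) Y K' u' ρ') (h3 : Av A B X K') (h4 : Av B A Y K)
    (inv : pot u ρ + pot u' ρ' - (5 * a + 28) * (A.h K + B.h K') ≤ P + 14)
    (cont : ∀ X₁ K₁ u₁ ρ₁ Y₁ ρ₁', X₁ ⊆ X → Y₁ ⊆ Y → K ⊆ K₁ → Nd A (7 * a) X₁ K₁ u₁ ρ₁ →
      Nd B (7 * a) Y₁ K' u' ρ₁' → Av A B X₁ K' → Av B A Y₁ K₁ → Spr A a X₁ K₁ →
      pot u₁ ρ₁ + pot u' ρ₁' - 5 * a * A.h K₁ ≤ pot u ρ + pot u' ρ' - 5 * a * A.h K + 14 →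
      A.h K₁ + B.h K' ≤ W₀ →
      Goal A B (pot u₁ ρ₁ + pot u' ρ₁' + 10 * a * (W₀ - A.h K₁ - B.h K') + C +
        42 * (A.h K₁ - A.h K) - 21) X₁ ρ₁ Y₁ ρ₁') :
    Goal A B (pot u ρ + pot u' ρ' + 10 * a * (W₀ - A.h K - B.h K') + C) X ρ Y ρ' := by
  classical
  have hs : (A.h K : ℝ) + B.h K' ≤ W₀ := by exact_mod_cast size_le ha hP h1 h2 (by linarith)
  have p1 := h1.pot_ge
  have p2 := h2.pot_ge
  obtain ⟨x1, x2, x3, x4, x5⟩ := h1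
  obtain ⟨y1, y2, y3, y4, y5⟩ := h2
  obtain ⟨J, Q, r, ω, D₀, g1, g2, g3, g4⟩ := greedyS hA a (half_pos x3) X K x1 x2
  have l2 := Real.log_two_lt_d9
  have main : ∀ c ∈ J, ∃ D D', ms A.w D ≤ ω c * (ρ / 2) ∧ ms B.w D' ≤ ω c * ρ' ∧
      SolvR A.φ B.φ (pot u ρ + pot u' ρ' + 10 * a * (W₀ - A.h K - B.h K') + C - 2 +
        3 * Real.log (ω c)) (Q c \ D) (Y \ D') := by
    intro c hc
    obtain ⟨a0, a1, a2, a3, a4, a5, a6, a7, a8, a9⟩ := g4 c hc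
    have hΔ : (A.h K : ℝ) ≤ A.h c := by
      rcases hA.hs K c a0 with h | h
      · rw [h]
      · exact_mod_cast h.le
    have ht : Real.log (r c) ≤ Real.log u := Real.log_le_log ((half_pos x3).trans a3) a4
    have n1 : Nd A (7 * a) (Q c) c (ms A.w (Q c)) (ω c * (ρ / 2)) :=
      ⟨a2.2.1, le_rfl, by positivity, (mul_le_mul_of_nonneg_left a3.le a6.le).trans a8,
        base _ _ a2.2.1 a2.1⟩
    set F := univ.filter fun e => A.ep e ⊆ c ∧ ¬ A.ep e ⊆ K with hF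
    have n2 : Nd B (7 * a) {y ∈ Y | ∀ e ∈ F, ¬ B.φ y e} K' u' (ω c * ρ') :=
      ⟨fun y hy => y1 y hy.1, (ms_mono hB.hw fun y hy => hy.1).trans y2, by positivity,
        (mul_le_of_le_one_left y3.le a7).trans y4, y5⟩
    have e1 : pot (ms A.w (Q c)) (ω c * (ρ / 2)) + pot u' (ω c * ρ') ≤ pot u ρ + pot u' ρ' +
        5 * (Real.log (r c) - Real.log (ms A.w (Q c))) - (Real.log u - Real.log (r c)) + 14 := by
      unfold pot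
      rw [Real.log_mul a6.ne' (by positivity), Real.log_mul a6.ne' y3.ne',
        Real.log_div x3.ne' (by norm_num)]
      linarith
    have e2 : A.h c + B.h K' ≤ W₀ := size_le ha hP n1 n2 (by nlinarith)
    obtain ⟨D, D', d1, d2, n, d3, d4⟩ := cont (Q c) c _ _ _ _ a1 (fun y hy => hy.1) a0 n1 n2
      (fun S hS => h3 S (a1 hS)) (fun y hy e he => by
        by_cases h : A.ep e ⊆ K
        · exact h4 y hy.1 e h
        · exact hy.2 e (mem_filter.mpr ⟨mem_univ _, he, h⟩)) a2 (by linarith) e2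
    have e3 : (F.card : ℝ) + A.h K ≤ A.h c := by exact_mod_cast hA.hF K c a0 (by omega)
    refine ⟨D, D', d1, d2, n + F.card, ?_, Solv.avoid F (fun S hS e he =>
      (mem_filter.mp he).2.1.trans (a2.2.1 S hS.1)) (d4.sub le_rfl fun y hy =>
        ⟨⟨hy.1.1, hy.2⟩, hy.1.2⟩)⟩
    push_cast
    nlinarith
  choose! D D' d1 d2 d3 using main
  refine ⟨D₀ ∪ {S | ∃ c ∈ J, S ∈ D c}, {y | ∃ c ∈ J, y ∈ D' c}, ?_, ?_,
    kraftR (fun c => Q c \ D c) _ (by nlinarith) J ω _ (fun S hS => ?_) g3 fun c hc => ?_⟩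
  · have e1 := ms_le_add hA.hw (Set.Subset.refl (D₀ ∪ {S | ∃ c ∈ J, S ∈ D c}))
    have e2 := (ms_le_sum hA.hw J D (X := {S | ∃ c ∈ J, S ∈ D c}) fun S hS => hS).trans
      (sum_le_sum d1)
    rw [← sum_mul] at e2
    nlinarith
  · have e2 := (ms_le_sum hB.hw J D' (X := {S | ∃ c ∈ J, S ∈ D' c}) fun S hS => hS).trans
      (sum_le_sum d2)
    rw [← sum_mul] at e2
    nlinarith
  · rcases g2 S hS.1 with h | ⟨c, hc, h⟩
    · exact absurd (Or.inl h) hS.2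
    · exact ⟨c, hc, h, fun h' => hS.2 (Or.inr ⟨c, hc, h'⟩)⟩
  · obtain ⟨-, -, -, -, -, -, a6, a7, -⟩ := g4 c hc
    obtain ⟨n, h5, h6⟩ := d3 c hc
    exact ⟨a6, a7, n, h5, h6.sub le_rfl fun y hy => ⟨hy.1, fun h => hy.2 ⟨c, hc, h⟩⟩⟩

theorem dich_aux {W W₀ : ℕ} (hA : A.OK W) (hB : B.OK W) (hW : W₀ ≤ W) {a P : ℝ} (ha : 36 ≤ a)
    (hP : P + 28 ≤ a * W₀)
    (baseA : ∀ X K, (∀ S ∈ X, K ⊆ S) → 0 < ms A.w X → Real.log (ms A.w X) ≤ -(7 * a) * A.h K)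
    (baseB : ∀ Y K, (∀ S ∈ Y, K ⊆ S) → 0 < ms B.w Y → Real.log (ms B.w Y) ≤ -(7 * a) * B.h K)
    (X₀ : Set (Finset γ)) (Y₀ : Set (Finset δ))
    (hno : ∀ X K Y K', X ⊆ X₀ → Y ⊆ Y₀ → A.h K + B.h K' ≤ W₀ → ¬ Good A B a X K Y K') (j : ℕ) :
    ∀ X K u ρ Y K' u' ρ', X ⊆ X₀ → Y ⊆ Y₀ → Nd A (7 * a) X K u ρ → Nd B (7 * a) Y K' u' ρ' →
      Av A B X K' → Av B A Y K →
      pot u ρ + pot u' ρ' - (5 * a + 28) * (A.h K + B.h K') ≤ P → W₀ < A.h K + B.h K' + j →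
      Goal A B (pot u ρ + pot u' ρ' + 10 * a * (W₀ - A.h K - B.h K') + 21) X ρ Y ρ' := by
  induction j with
  | zero =>
    intro X K u ρ Y K' u' ρ' _ _ h1 h2 _ _ inv hj
    have := size_le ha hP h1 h2 (by linarith)
    omega
  | succ j ih =>
    intro X K u ρ Y K' u' ρ' hX hY h1 h2 h3 h4 inv hj
    refine dstep hA hB hW ha hP (by norm_num) baseA h1 h2 h3 h4 (by linarith)
      fun X₁ K₁ u₁ ρ₁ Y₁ ρ₁' s1 s2 s3 n1 n2 v1 v2 sp e1 e2 => ?_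
    have hΔ : A.h K ≤ A.h K₁ := by
      rcases hA.hs K K₁ s3 with h | h
      · rw [h]
      · exact h.le
    have hΔ' : (A.h K : ℝ) ≤ A.h K₁ := by exact_mod_cast hΔ
    refine (dstep (C := 0) hB hA hW ha hP le_rfl baseB n2 n1 v2 v1 (by linarith)
      fun Y₂ K₂ u₂ ρ₂ X₂ ρ₂' t1 t2 t3 m1 m2 w1 w2 sp' e3 e4 => ?_).swap.up (by linarith)
    rcases hB.hs K' K₂ t3 with rfl | h
    · exact absurd ⟨sp, sp', v1, w1⟩ (hno X₁ K₁ Y₂ K' (s1.trans hX) (t1.trans (s2.trans hY)) e2)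
    · have h' : (B.h K' : ℝ) + 1 ≤ B.h K₂ := by exact_mod_cast h
      exact (ih X₂ K₁ u₁ ρ₂' Y₂ K₂ u₂ ρ₂ (t2.trans (s1.trans hX)) (t1.trans (s2.trans hY)) m2 m1
        w2 w1 (by linarith) (by omega)).swap.up (by linarith)

/-- the dichotomy -/
theorem dichotomy {W w : ℕ} (hA : A.OK W) (hB : B.OK W) (hW : w ≤ W) (hw : 1 ≤ w) {a : ℝ}
    (ha : 36 ≤ a)
    (baseA : ∀ X K, (∀ S ∈ X, K ⊆ S) → 0 < ms A.w X → Real.log (ms A.w X) ≤ -(7 * a) * A.h K)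
    (baseB : ∀ Y K, (∀ S ∈ Y, K ⊆ S) → 0 < ms B.w Y → Real.log (ms B.w Y) ≤ -(7 * a) * B.h K)
    (hA0 : A.h ∅ = 0) (hB0 : B.h ∅ = 0) (hA1 : ∀ X, ms A.w X ≤ 1) (hB1 : ∀ Y, ms B.w Y ≤ 1)
    (hAe : ∀ e, (A.ep e).Nonempty) (hBe : ∀ e, (B.ep e).Nonempty)
    (X : Set (Finset γ)) (Y : Set (Finset δ))
    (hno : ∀ X₁ K Y₁ K', X₁ ⊆ X → Y₁ ⊆ Y → A.h K + B.h K' ≤ w → ¬ Good A B a X₁ K Y₁ K') :
    Goal A B (11 * a * w) X ((1 / 2) ^ w) Y ((1 / 2) ^ w) := by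
  have hw' : (1 : ℝ) ≤ w := by exact_mod_cast hw
  have l2 := Real.log_two_lt_d9
  have l3 := Real.log_two_gt_d9
  have hp : pot 1 ((1 / 2) ^ w) = 4 * w * Real.log 2 := by
    unfold pot
    rw [Real.log_one, Real.log_pow, one_div, Real.log_inv]; ring
  have hρ : ((1 / 2 : ℝ)) ^ w ≤ 1 := pow_le_one₀ (by norm_num) (by norm_num)
  refine (dich_aux (P := 8 * w) hA hB hW ha (by nlinarith) baseA baseB X Y hno (w + 1) X ∅ 1 _ Y
    ∅ 1 _ le_rfl le_rfl ⟨by simp, hA1 X, by positivity, hρ, by simp [hA0]⟩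
    ⟨by simp, hB1 Y, by positivity, hρ, by simp [hB0]⟩
    (fun S _ e h => absurd (subset_empty.mp h) (hBe e).ne_empty)
    (fun S _ e h => absurd (subset_empty.mp h) (hAe e).ne_empty) ?_ (by omega)).up ?_
  · rw [hp, hA0, hB0]; push_cast; nlinarith
  · rw [hp, hA0, hB0]; push_cast; nlinarith

end Pool.Agent.Lib.MP_79d702_lc.Two
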