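import Pool.Agent.Lib.MP_79d702_lc.Two.CoverD

/-!
The two sides for the clique game in a sparse host graph.
-/

namespace Pool.Agent.Lib.MP_79d702_lc.Two

set_option linter.unusedSectionVars false

open Finset Pool.Agent.Lib.MP_79d702_lc.Neg

variable {V E : Type} [Fintype V] [DecidableEq V] [Fintype E] [DecidableEq E]

/-- the edges inside a set of vertices -/
def ins (ep : E → Finset V) (U : Finset V) : Finset E := univ.filter fun e => ep e ⊆ U

theorem mem_ins {ep : E → Finset V} {U : Finset V} {e : E} : e ∈ ins ep U ↔ ep e ⊆ U := by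
  simp [ins]

theorem ins_mono {ep : E → Finset V} {U U' : Finset V} (h : U ⊆ U') : ins ep U ⊆ ins ep U' :=
  fun _ he => mem_ins.mpr ((mem_ins.mp he).trans h)

structure Host (ep : E → Finset V) (W : ℕ) : Prop where
  h0 : ∀ e, (ep e).Nonempty
  h2 : ∀ e, (ep e).card ≤ 2
  sp : ∀ U : Finset V, U.card ≤ W → (ins ep U).card ≤ 2 * U.card

noncomputable def sideA (σ : ℝ) (ep : E → Finset V) : Side E V (V ⊕ E) where
  w := mu σ
  h := fun U => U.card + min (ins ep U).card (2 * U.card)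
  ep := ep
  hat := fun K S => (S \ K).disjSum
    (univ.filter fun e => ep e ⊆ S ∧ ¬ ep e ⊆ K ∧ ¬ Disjoint (ep e) K)

noncomputable def sideB (E : Type) [Fintype E] [DecidableEq E] (β : ℝ) : Side E E E where
  w := mu β
  h := card
  ep := fun e => {e}
  hat := fun K y => y \ K

variable {ep : E → Finset V} {W : ℕ}

theorem card_new {K U : Finset V} (h : K ⊆ U) :
    (univ.filter fun e => ep e ⊆ U ∧ ¬ ep e ⊆ K).card + (ins ep K).card = (ins ep U).card := by
  rw [← card_sdiff_add_card_eq_card (ins_mono (ep := ep) h)]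
  congr 2
  ext e
  simp [mem_ins]

theorem sideA_ok (H : Host ep W) {σ : ℝ} (h0 : 0 ≤ σ) (h1 : σ ≤ 1) : (sideA σ ep).OK W := by
  refine ⟨mu_nonneg h0 h1, fun K U h => ?_, fun K U h hU => ?_⟩
  · refine (eq_or_ne K U).imp_right fun h' => ?_
    have := card_lt_card (Finset.ssubset_iff_subset_ne.mpr ⟨h, h'⟩)
    have := card_le_card (ins_mono (ep := ep) h)
    simp only [sideA]
    omega
  · simp only [sideA] at hU ⊢
    have := card_new (ep := ep) h
    have := card_le_card h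
    have := H.sp U (by omega)
    have := H.sp K (by omega)
    omega

theorem sideB_ok {β : ℝ} (h0 : 0 ≤ β) (h1 : β ≤ 1) : (sideB E β).OK W := by
  refine ⟨mu_nonneg h0 h1, fun K U h => (eq_or_ne K U).imp_right fun h' =>
    card_lt_card (Finset.ssubset_iff_subset_ne.mpr ⟨h, h'⟩), fun K U h _ => ?_⟩
  simp only [sideB]
  rw [← card_sdiff_add_card_eq_card h]
  refine Nat.add_le_add_right (card_le_card fun e he => ?_) _
  simpa using he

theorem ms_mu_le {γ : Type} [Fintype γ] [DecidableEq γ] {q : ℝ} (h0 : 0 ≤ q) (h1 : q ≤ 1)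
    {X : Set (Finset γ)} {K : Finset γ} (h : ∀ S ∈ X, K ⊆ S) : ms (mu q) X ≤ q ^ K.card :=
  (ms_mono (mu_nonneg h0 h1) (Y := {S | K ⊆ S}) h).trans_eq (Ex_subset q K)

/-- the atoms of an edge -/
def atm (ep : E → Finset V) (K : Finset V) (e : E) : Finset (V ⊕ E) :=
  if Disjoint (ep e) K then (ep e).disjSum ∅ else {Sum.inr e}

theorem atm_nonempty (H : Host ep W) (K : Finset V) (e : E) : (atm ep K e).Nonempty := by
  unfold atm
  split_ifs
  · obtain ⟨v, hv⟩ := H.h0 e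
    exact ⟨Sum.inl v, by simpa using hv⟩
  · simp

theorem atm_card (H : Host ep W) (K : Finset V) (e : E) : (atm ep K e).card ≤ 2 := by
  unfold atm
  split_ifs
  · simpa using H.h2 e
  · simp

theorem atm_sub {σ : ℝ} {K S : Finset V} {e : E} (h1 : ep e ⊆ S) (h2 : ¬ ep e ⊆ K) :
    atm ep K e ⊆ (sideA σ ep).hat K S := by
  unfold atm
  split_ifs with h
  · exact disjSum_mono (subset_sdiff.mpr ⟨h1, h⟩) (empty_subset _)
  · simp [sideA, h1, h2, h]

theorem atm_sparse (H : Host ep W) (K : Finset V) (G : Finset (V ⊕ E)) (hG : G.card ≤ W) :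
    (univ.filter fun e => atm ep K e ⊆ G).card ≤ 2 * G.card := by
  have h1 := card_toLeft_add_card_toRight (u := G)
  have h2 := H.sp G.toLeft (by omega)
  have h3 : (univ.filter fun e => atm ep K e ⊆ G) ⊆ ins ep G.toLeft ∪ G.toRight := by
    intro e he
    have h := (mem_filter.mp he).2
    unfold atm at h
    split_ifs at h
    · exact mem_union_left _ (mem_ins.mpr fun v hv => mem_toLeft.mpr (h (by simpa using hv)))
    · exact mem_union_right _ (mem_toRight.mpr (h (mem_singleton_self _)))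
  have := (card_le_card h3).trans (card_union_le _ _)
  omega

theorem star_bound (H : Host ep W) {K : Finset V} (hK : 2 * K.card ≤ W) (n : ℕ) :
    ∀ U : Finset V, U.card ≤ n → (univ.filter fun e => ep e ⊆ K ∪ U ∧ ¬ Disjoint (ep e) K).card ≤
      4 * U.card + 4 * K.card := by
  rcases K.eq_empty_or_nonempty with rfl | hK0
  · intro U _; simp
  have hK1 := hK0.card_pos
  have small : ∀ U : Finset V, U.card ≤ K.card → (ins ep (K ∪ U)).card ≤ 4 * K.card := by
    intro U hU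
    have := card_union_le K U
    have := H.sp (K ∪ U) (by omega)
    omega
  induction n with
  | zero =>
    intro U hU
    exact le_trans (card_le_card fun e he => mem_ins.mpr (mem_filter.mp he).2.1)
      ((small U (by omega)).trans (by omega))
  | succ n ih =>
    intro U hU
    by_cases h : U.card ≤ K.card
    · exact le_trans (card_le_card fun e he => mem_ins.mpr (mem_filter.mp he).2.1)
        ((small U h).trans (by omega))
    obtain ⟨Q, hQ, hQ'⟩ := exists_subset_card_eq (not_le.mp h).le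
    have h1 := card_sdiff_add_card_eq_card hQ
    have h2 := ih (U \ Q) (by omega)
    have h3 := small Q hQ'.le
    have h4 : (univ.filter fun e => ep e ⊆ K ∪ U ∧ ¬ Disjoint (ep e) K) ⊆ ins ep (K ∪ Q) ∪
        univ.filter fun e => ep e ⊆ K ∪ (U \ Q) ∧ ¬ Disjoint (ep e) K := by
      intro e he
      obtain ⟨h5, h6⟩ := (mem_filter.mp he).2
      by_contra hc
      rw [mem_union, not_or, mem_ins, mem_filter] at hc
      obtain ⟨x, hx, hx'⟩ := not_subset.mp hc.1
      obtain ⟨y, hy, hy'⟩ := not_subset.mp fun h => hc.2 ⟨mem_univ _, h, h6⟩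
      obtain ⟨z, hz, hz'⟩ := not_disjoint_iff.mp h6
      have hy2 := h5 hy
      simp only [mem_union, mem_sdiff, not_or, not_and, not_not] at hx' hy' hy2
      have := two_lt_card_iff.mpr ⟨x, y, z, hx, hy, hz,
        fun h => hx'.2 (h ▸ hy'.2 (hy2.resolve_left hy'.1)), fun h => hx'.1 (h ▸ hz'),
        fun h => hy'.1 (h ▸ hz')⟩
      have := H.h2 e
      omega
    have := (card_le_card h4).trans (card_union_le _ _)
    omega

theorem sideA_hat (H : Host ep W) {W₁ m : ℕ} (hW : 2 * W₁ ≤ W) {σ a t : ℝ} (h0 : 0 ≤ σ)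
    (h1 : σ ≤ 1) (ht : 0 < t) (ht1 : 2048 * t ≤ 1) (ht2 : 2048 * m * t ≤ 1)
    (ha : Real.exp (-a) = t ^ 28) (hm : (2 / 3 : ℝ) ^ m * Fintype.card (V ⊕ E) ≤ 1 / 8) :
    (sideA σ ep).Hat a (t ^ 6) W₁ := by
  refine hat_of (sideA_ok H h0 h1) ht ht1 ht2 ha hm (fun K c S _ h => disjSum_mono
    (sdiff_subset_sdiff h le_rfl) fun e he => ?_) fun K S₀ T hK _ hT => ?_
  · rw [mem_filter] at he ⊢
    exact ⟨he.1, he.2.1.trans h, he.2.2⟩
  refine ⟨K ∪ (T.toLeft ∪ T.toRight.biUnion ep), subset_union_left, ?_, fun S hS h =>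
    union_subset hS (union_subset ?_ (biUnion_subset.mpr fun e he => ?_))⟩
  · set U := K ∪ (T.toLeft ∪ T.toRight.biUnion ep) with hU
    have hKU : K ⊆ U := subset_union_left
    simp only [sideA] at hK hT ⊢
    have e1 := card_toLeft_add_card_toRight (u := T)
    obtain ⟨t1, t2⟩ := subset_disjSum.mp hT
    have e2 : T.toLeft.card ≤ (U \ K).card := card_le_card fun v hv =>
      mem_sdiff.mpr ⟨mem_union_right _ (mem_union_left _ hv), (mem_sdiff.mp (t1 hv)).2⟩
    have e3 := card_sdiff_add_card_eq_card hKU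
    have t3 : ∀ e ∈ T.toRight, ep e ⊆ U := fun e he =>
      (subset_biUnion_of_mem ep he).trans (subset_union_right.trans subset_union_right)
    have e4 : T.toRight.card ≤ (univ.filter fun e => ep e ⊆ U ∧ ¬ ep e ⊆ K).card :=
      card_le_card fun e he => mem_filter.mpr ⟨mem_univ _, t3 e he, (mem_filter.mp (t2 he)).2.2.1⟩
    have e5 := card_new (ep := ep) hKU
    have e6 : T.toRight.card ≤ 4 * (U \ K).card + 4 * K.card :=
      le_trans (card_le_card fun e he => mem_filter.mpr ⟨mem_univ _, by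
        rw [union_sdiff_of_subset hKU]; exact t3 e he, (mem_filter.mp (t2 he)).2.2.2⟩)
        (star_bound H (by omega) _ (U \ K) le_rfl)
    have e7 := H.sp K (by omega)
    have e8 := H.sp U
    omega
  · exact (subset_disjSum.mp h).1.trans sdiff_subset
  · exact (mem_filter.mp ((subset_disjSum.mp h).2 he)).2.1

theorem sideB_hat {W₁ m : ℕ} {β a t : ℝ} (h0 : 0 ≤ β)
    (h1 : β ≤ 1) (ht : 0 < t) (ht1 : 2048 * t ≤ 1) (ht2 : 2048 * m * t ≤ 1)
    (ha : Real.exp (-a) = t ^ 28) (hm : (2 / 3 : ℝ) ^ m * Fintype.card E ≤ 1 / 8) :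
    (sideB E β).Hat a (t ^ 6) W₁ := by
  refine hat_of (sideB_ok (W := 0) h0 h1) ht ht1 ht2 ha hm (fun K c S _ h =>
    sdiff_subset_sdiff h le_rfl) fun K S₀ T _ _ hT => ⟨K ∪ T, subset_union_left, ?_,
      fun S hS h => union_subset hS (h.trans sdiff_subset)⟩
  simp only [sideB] at hT ⊢
  rw [card_union_of_disjoint (disjoint_of_subset_right hT disjoint_sdiff)]
  omega

theorem coverA (H : Host ep W) {W₁ m : ℕ} (hW : 2 * W₁ ≤ W) {σ β t : ℝ} (h0 : 0 ≤ σ)
    (h1 : σ ≤ 1) (ht : 0 < t) (ht1 : 2048 * t ≤ 1) (ht2 : 2048 * m * t ≤ 1)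
    (hm : (2 / 3 : ℝ) ^ m * Fintype.card E ≤ 1 / 8) :
    Cover (sideA σ ep) (sideB E β) (t ^ 6) W₁ := by
  intro K K' J hJ hp
  have hτ : t ^ 6 ≤ 1 := pow_le_one₀ ht.le (by linarith)
  have ht3 : t ^ 3 ≤ t := pow_le_of_le_one ht.le (by linarith) (by norm_num)
  obtain ⟨X, hXd⟩ : ∃ X : Set (Finset (V ⊕ E)), X = {Ω | ∃ c ∈ J, (sideA σ ep).hat K c ⊆ Ω} :=
    ⟨_, rfl⟩
  have hch : ∀ Ω ∈ X, ∃ c ∈ J, (sideA σ ep).hat K c ⊆ Ω := fun Ω h => by rwa [hXd] at h
  choose! c hc1 hc2 using hch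
  have hX : 1 / 4 < ms (mu (t ^ 6)) X := by rw [hXd]; exact hp
  have hm0 : (0 : ℝ) ≤ m := Nat.cast_nonneg m
  have spr : ∀ T : Finset E, T.Nonempty → ms (mu (t ^ 6))
      {Ω ∈ X | T ⊆ univ.filter fun e => ep e ⊆ c Ω ∧ ¬ ep e ⊆ K} ≤
      (4 * t ^ 3) ^ T.card * ms (mu (t ^ 6)) X := by
    intro T hT
    rcases Set.eq_empty_or_nonempty {Ω ∈ X | T ⊆ univ.filter fun e => ep e ⊆ c Ω ∧ ¬ ep e ⊆ K}
      with h | ⟨Ω₀, hΩ₀⟩
    · rw [h, ms_empty]
      exact mul_nonneg (by positivity) (by linarith)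
    obtain ⟨j1, j2, -⟩ := hJ _ (hc1 _ hΩ₀.1)
    have e1 : (univ.filter fun e => ep e ⊆ c Ω₀ ∧ ¬ ep e ⊆ K).card + _ ≤ _ :=
      (sideA_ok H h0 h1).hF K _ j1 (by omega)
    have e2 := card_le_card hΩ₀.2
    have e3 : (T.biUnion (atm ep K)).card ≤ T.card * 2 :=
      card_biUnion_le_card_mul _ _ 2 fun e _ => atm_card H K e
    have e4 : T.card ≤ 2 * (T.biUnion (atm ep K)).card := by
      refine le_trans (card_le_card fun e he => ?_) (atm_sparse H K _ (by omega))
      exact mem_filter.mpr ⟨mem_univ _, subset_biUnion_of_mem (atm ep K) he⟩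
    refine (ms_mu_le (by positivity) hτ (K := T.biUnion (atm ep K)) fun Ω hΩ =>
      biUnion_subset.mpr fun e he => ?_).trans ?_
    · have := (mem_filter.mp (hΩ.2 he)).2
      exact (atm_sub this.1 this.2).trans (hc2 Ω hΩ.1)
    · have e5 : (t ^ 6) ^ (T.biUnion (atm ep K)).card ≤ (t ^ 3) ^ T.card := by
        rw [← pow_mul, ← pow_mul]
        exact pow_le_pow_of_le_one ht.le (by linarith) (by omega)
      have e6 : (4 : ℝ) ≤ 4 ^ T.card := le_self_pow₀ (by norm_num) hT.card_pos.ne'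
      have e7 : 0 < (t ^ 3) ^ T.card := by positivity
      have e8 := mul_le_mul e6 hX.le (by norm_num) (by positivity)
      rw [mul_pow, mul_right_comm]
      exact e5.trans (le_mul_of_one_le_left e7.le (by linarith))
  have e9 := mul_le_mul_of_nonneg_left ht3 hm0
  have := hit (mu_nonneg (by positivity) hτ) (η := 4 * t ^ 3) (p := 1 / 2) (m := m) (by positivity)
    (by linarith) (by linarith) (by norm_num) X (by linarith) _ spr
  refine ⟨1 / 2, by norm_num, le_rfl, le_trans (Ex_mono (by norm_num) (by norm_num) fun T =>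
    ind_mono fun h => ?_) (this.trans (by linarith))⟩
  rintro ⟨Ω, hΩ, hT⟩
  refine h ⟨c Ω, hc1 Ω hΩ, fun y _ hy hd e he h' => ?_⟩
  have h2 : e ∈ y := singleton_subset_iff.mp h'
  have h3 : e ∈ y \ K' := mem_sdiff.mpr ⟨h2, fun h3 => (hJ _ (hc1 Ω hΩ)).2.2 e
    (singleton_subset_iff.mpr h3) he⟩
  exact disjoint_left.mp hd h3 (hT (mem_filter.mpr ⟨mem_univ _, he, fun h3 => hy e h3 h'⟩))

theorem coverB (H : Host ep W) {W₁ m r : ℕ} (hW : 2 * W₁ ≤ W) (hr : W₁ < 2 ^ r) (hr1 : 1 ≤ r)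
    (hm1 : 1 ≤ m) {σ β t : ℝ} (ht : 0 < t) (ht2 : 2048 * r * m * t ≤ 1)
    (hm : r * ((2 / 3 : ℝ) ^ m * Fintype.card (V ⊕ E)) ≤ 1 / 8) :
    Cover (sideB E β) (sideA σ ep) (t ^ 6) W₁ := by
  intro K K' J hJ hp
  have r1 : (1 : ℝ) ≤ r := by exact_mod_cast hr1
  have m1 : (1 : ℝ) ≤ m := by exact_mod_cast hm1
  have t1 : 2048 * m * t ≤ 1 := by nlinarith [mul_pos (zero_lt_one.trans_le m1) ht]
  have t2 : 2048 * r * t ≤ 1 := by nlinarith [mul_pos (zero_lt_one.trans_le r1) ht]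
  have t3 : 2048 * t ≤ 1 := by nlinarith
  have hτ : t ^ 6 ≤ 1 := pow_le_one₀ ht.le (by linarith)
  have hch : ∀ Ω ∈ {Ω | ∃ c ∈ J, (sideB E β).hat K c ⊆ Ω}, ∃ c ∈ J, c \ K ⊆ Ω := fun Ω h => h
  choose! c hc1 hc2 using hch
  have hX : 1 / 4 < ms (mu (t ^ 6)) {Ω | ∃ c ∈ J, (sideB E β).hat K c ⊆ Ω} := hp
  have := coverD (mu_nonneg (q := t ^ 6) (by positivity) hτ) (atm ep K') (atm_nonempty H K')
    (atm_card H K') (m := m) (atm_sparse H K') ht (by linarith) (by linarith) r W₁ _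
    (fun Ω => c Ω \ K) (fun Ω hΩ => (card_le_card sdiff_subset).trans
      (le_of_add_le_left (hJ _ (hc1 Ω hΩ)).2.1)) hr hW
    (fun T => ms_mu_le (by positivity) hτ fun Ω hΩ => hΩ.2.trans (hc2 Ω hΩ.1)) (by linarith)
  have hp0 : (1 - 1024 * m * t) ^ r ≤ 1 := pow_le_one₀ (by linarith) (by
    have : 0 ≤ 1024 * m * t := by positivity
    linarith)
  have hp1 := one_add_mul_le_pow (a := -(1024 * m * t)) (by linarith) r
  rw [← sub_eq_add_neg] at hp1
  refine ⟨_, by linarith, by linarith, le_trans (Ex_mono (by linarith) (by linarith) fun T =>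
    ind_mono fun h => ?_) (this.trans (by linarith))⟩
  rintro ⟨Ω, hΩ, hT⟩
  refine h ⟨c Ω, hc1 Ω hΩ, fun S _ hS hd e he h' => ?_⟩
  refine hT e (mem_sdiff.mpr ⟨singleton_subset_iff.mp he, fun h3 =>
    hS e (singleton_subset_iff.mpr h3) h'⟩) (disjoint_of_subset_left (atm_sub h' fun h3 =>
      (hJ _ (hc1 Ω hΩ)).2.2 e h3 he) hd)

end Pool.Agent.Lib.MP_79d702_lc.Two
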