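import Pool.Agent.Lib.MP_79d702_lc.Two.WSpread

/-!
The greedy partition of a set of points into regular pieces.
-/

namespace Pool.Agent.Lib.MP_79d702_lc.Two

open Finset Pool.Agent.Lib.MP_79d702_lc.Neg

variable {ι γ : Type} [Fintype ι] {w : ι → ℝ}

theorem root_step {r m : ℝ} (hr : 0 < r) (hm : m ≤ r) :
    m / r * r ^ (1 / 4 : ℝ) + 4 * (r - m) ^ (1 / 4 : ℝ) ≤ 4 * r ^ (1 / 4 : ℝ) := by
  have h1 : r - m = r * (1 + -(m / r)) := by field_simp; ring
  have h2 : -1 ≤ -(m / r) := by rw [neg_le_neg_iff, div_le_one hr]; exact hm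
  have h3 := rpow_one_add_le_one_add_mul_self h2 (p := 1 / 4) (by norm_num) (by norm_num)
  rw [h1, Real.mul_rpow hr.le (by linarith)]
  have h4 : 0 < r ^ (1 / 4 : ℝ) := Real.rpow_pos_of_pos hr _
  nlinarith

theorem greedy_aux [DecidableEq γ] (hw : ∀ i, 0 ≤ w i) (rel : ι → γ → Prop) (wt : γ → ℝ)
    (hwt : ∀ c, 0 < wt c) (C : Finset γ) {c₀ : γ} (hc₀ : c₀ ∈ C) {ρ : ℝ} (hρ : 0 < ρ) (n : ℕ) :
    ∀ X : Set ι, X.ncard ≤ n → (∀ i ∈ X, rel i c₀) →
    ∃ (J : Finset γ) (P : γ → Set ι) (r : γ → ℝ) (B : Set ι), ms w B ≤ ρ ∧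
      (∀ i ∈ X, i ∈ B ∨ ∃ c ∈ J, i ∈ P c) ∧
      ∑ c ∈ J, ms w (P c) / r c * r c ^ (1 / 4 : ℝ) ≤ 4 * ms w X ^ (1 / 4 : ℝ) ∧
      ∀ c ∈ J, c ∈ C ∧ P c ⊆ X ∧ (∀ i ∈ P c, rel i c) ∧ ρ < r c ∧ r c ≤ ms w X ∧
        ms w (P c) ≤ r c ∧ wt c * r c ≤ wt c₀ * ms w (P c) ∧
        ∀ c' ∈ C, ms w {i ∈ P c | rel i c'} * wt c ≤ wt c' * ms w (P c) := by
  have small : ∀ X : Set ι, ms w X ≤ ρ →
      ∃ (J : Finset γ) (P : γ → Set ι) (r : γ → ℝ) (B : Set ι), ms w B ≤ ρ ∧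
      (∀ i ∈ X, i ∈ B ∨ ∃ c ∈ J, i ∈ P c) ∧
      ∑ c ∈ J, ms w (P c) / r c * r c ^ (1 / 4 : ℝ) ≤ 4 * ms w X ^ (1 / 4 : ℝ) ∧
      ∀ c ∈ J, c ∈ C ∧ P c ⊆ X ∧ (∀ i ∈ P c, rel i c) ∧ ρ < r c ∧ r c ≤ ms w X ∧
        ms w (P c) ≤ r c ∧ wt c * r c ≤ wt c₀ * ms w (P c) ∧
        ∀ c' ∈ C, ms w {i ∈ P c | rel i c'} * wt c ≤ wt c' * ms w (P c) := by
    intro X hX
    refine ⟨∅, fun _ => ∅, fun _ => 0, X, hX, fun i hi => Or.inl hi, ?_, by simp⟩
    have := Real.rpow_nonneg (ms_nonneg hw X) (1 / 4 : ℝ)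
    rw [sum_empty]; linarith
  induction n with
  | zero =>
    intro X hX _
    refine small X ?_
    rw [(Set.ncard_eq_zero).mp (Nat.le_zero.mp hX), ms_empty]
    exact hρ.le
  | succ n ih =>
    intro X hX h0
    by_cases hs : ms w X ≤ ρ
    · exact small X hs
    rw [not_le] at hs
    have hX0 : 0 < ms w X := hρ.trans hs
    obtain ⟨c, hc, hmax⟩ := exists_max_image C (fun c => ms w {i ∈ X | rel i c} / wt c) ⟨c₀, hc₀⟩
    have hmax' : ∀ c' ∈ C, ms w {i ∈ X | rel i c'} * wt c ≤ wt c' * ms w {i ∈ X | rel i c} := by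
      intro c' hc'
      have := hmax c' hc'
      rw [div_le_div_iff₀ (hwt c') (hwt c)] at this
      linarith
    have e0 : {i ∈ X | rel i c₀} = X := Set.ext fun i => and_iff_left_of_imp (h0 i)
    have h1 := hmax' c₀ hc₀
    rw [e0] at h1
    have hm : 0 < ms w {i ∈ X | rel i c} := by
      by_contra h
      have := mul_le_mul_of_nonneg_left (not_lt.mp h) (hwt c₀).le
      have := mul_pos hX0 (hwt c)
      linarith
    have hsplit := ms_split (w := w) X (fun i => rel i c)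
    obtain ⟨i₀, hi₀⟩ := ms_nonempty hm
    have hlt : {i ∈ X | ¬ rel i c}.ncard < X.ncard :=
      Set.ncard_lt_ncard ⟨fun i hi => hi.1, fun h => (h hi₀.1).2 hi₀.2⟩
    obtain ⟨J, P, r, B, g1, g2, g3, g4⟩ := ih {i ∈ X | ¬ rel i c} (by omega) fun i hi => h0 i hi.1
    have hn := ms_nonneg hw {i ∈ X | ¬ rel i c}
    have hcJ : c ∉ J := by
      intro h
      obtain ⟨-, a1, a2, a3, -, -, a4, -⟩ := g4 c h
      have h2 : 0 < ms w (P c) := by
        by_contra h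
        have := mul_le_mul_of_nonneg_left (not_lt.mp h) (hwt c₀).le
        have := mul_pos (hwt c) (hρ.trans a3)
        linarith
      obtain ⟨i, hi⟩ := ms_nonempty h2
      exact (a1 hi).2 (a2 i hi)
    refine ⟨insert c J, Function.update P c {i ∈ X | rel i c}, Function.update r c (ms w X), B,
      g1, fun i hi => ?_, ?_, fun d hd => ?_⟩
    · by_cases h : rel i c
      · exact Or.inr ⟨c, mem_insert_self _ _, by rw [Function.update_self]; exact ⟨hi, h⟩⟩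
      · refine (g2 i ⟨hi, h⟩).imp_right ?_
        rintro ⟨d, hd, h'⟩
        refine ⟨d, mem_insert_of_mem hd, ?_⟩
        rwa [Function.update_of_ne (ne_of_mem_of_not_mem hd hcJ)]
    · rw [sum_insert hcJ, Function.update_self, Function.update_self,
        sum_congr rfl (g := fun d => ms w (P d) / r d * r d ^ (1 / 4 : ℝ)) fun d hd => by
          rw [Function.update_of_ne (ne_of_mem_of_not_mem hd hcJ),
            Function.update_of_ne (ne_of_mem_of_not_mem hd hcJ)]]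
      have h2 := root_step (m := ms w {i ∈ X | rel i c}) hX0 (by linarith)
      rw [show ms w {i ∈ X | ¬ rel i c} = ms w X - ms w {i ∈ X | rel i c} by linarith] at g3
      linarith
    · rcases mem_insert.mp hd with rfl | hd
      · rw [Function.update_self, Function.update_self]
        refine ⟨hc, fun i hi => hi.1, fun i hi => hi.2, hs, le_rfl, by linarith, by linarith,
          fun c' hc' => le_trans (mul_le_mul_of_nonneg_right (ms_mono hw fun i hi =>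
            ?_) (hwt _).le) (hmax' c' hc')⟩
        exact ⟨hi.1.1, hi.2⟩
      · rw [Function.update_of_ne (ne_of_mem_of_not_mem hd hcJ),
          Function.update_of_ne (ne_of_mem_of_not_mem hd hcJ)]
        obtain ⟨a0, a1, a2, a3, a4, a5, a6, a7⟩ := g4 d hd
        exact ⟨a0, fun i hi => (a1 hi).1, a2, a3, by linarith, a5, a6, a7⟩

/-- the greedy partition, with Kraft weights -/
theorem greedy [DecidableEq γ] (hw : ∀ i, 0 ≤ w i) (rel : ι → γ → Prop) (wt : γ → ℝ)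
    (hwt : ∀ c, 0 < wt c) (C : Finset γ) {c₀ : γ} (hc₀ : c₀ ∈ C) {ρ u : ℝ} (hρ : 0 < ρ)
    (X : Set ι) (hX : ∀ i ∈ X, rel i c₀) (hu : ms w X ≤ u) :
    ∃ (J : Finset γ) (P : γ → Set ι) (r ω : γ → ℝ) (B : Set ι), ms w B ≤ ρ ∧
      (∀ i ∈ X, i ∈ B ∨ ∃ c ∈ J, i ∈ P c) ∧ ∑ c ∈ J, ω c ≤ 1 ∧
      ∀ c ∈ J, c ∈ C ∧ P c ⊆ X ∧ (∀ i ∈ P c, rel i c) ∧ ρ < r c ∧ r c ≤ u ∧
        0 < ms w (P c) ∧ wt c * r c ≤ wt c₀ * ms w (P c) ∧
        (∀ c' ∈ C, ms w {i ∈ P c | rel i c'} * wt c ≤ wt c' * ms w (P c)) ∧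
        0 < ω c ∧ ω c ≤ 1 ∧ ω c * r c ≤ ms w (P c) ∧
        - Real.log (ω c) ≤ Real.log (r c) - Real.log (ms w (P c)) +
          (Real.log u - Real.log (r c)) / 4 + 2 * Real.log 2 := by
  obtain ⟨J, P, r, B, g1, g2, g3, g4⟩ := greedy_aux hw rel wt hwt C hc₀ hρ _ X le_rfl hX
  refine ⟨J, P, r, fun c => ms w (P c) / r c * r c ^ (1 / 4 : ℝ) / (4 * u ^ (1 / 4 : ℝ)), B,
    g1, g2, ?_, fun c hc => ?_⟩
  · rw [← sum_div]
    refine div_le_one_of_le₀ (g3.trans ?_) ?_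
    · exact mul_le_mul_of_nonneg_left
        (Real.rpow_le_rpow (ms_nonneg hw X) hu (by norm_num)) (by norm_num)
    · have := Real.rpow_nonneg ((ms_nonneg hw X).trans hu) (1 / 4 : ℝ)
      linarith
  · obtain ⟨a0, a1, a2, a3, a4, a5, a6, a7⟩ := g4 c hc
    have hr : 0 < r c := hρ.trans a3
    have hu' : 0 < u := hr.trans_le (a4.trans hu)
    have hm : 0 < ms w (P c) := by
      by_contra h
      have := mul_le_mul_of_nonneg_left (not_lt.mp h) (hwt c₀).le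
      have := mul_pos (hwt c) hr
      linarith
    have h1 : 0 < r c ^ (1 / 4 : ℝ) := Real.rpow_pos_of_pos hr _
    have h2 : 0 < u ^ (1 / 4 : ℝ) := Real.rpow_pos_of_pos hu' _
    have h3 : r c ^ (1 / 4 : ℝ) ≤ u ^ (1 / 4 : ℝ) :=
      Real.rpow_le_rpow hr.le (a4.trans hu) (by norm_num)
    have h4 : ms w (P c) / r c * r c ^ (1 / 4 : ℝ) / (4 * u ^ (1 / 4 : ℝ)) ≤ ms w (P c) / r c := by
      rw [mul_div_assoc]
      refine mul_le_of_le_one_right (by positivity) (div_le_one_of_le₀ (by linarith) (by positivity))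
    refine ⟨a0, a1, a2, a3, a4.trans hu, hm, a6, a7, by positivity,
      h4.trans (div_le_one_of_le₀ a5 hr.le), (le_div_iff₀ hr).mp h4, le_of_eq ?_⟩
    rw [Real.log_div (by positivity) (by positivity), Real.log_mul (by positivity) (by positivity),
      Real.log_div hm.ne' hr.ne', Real.log_mul (by positivity) (by positivity),
      Real.log_rpow hr, Real.log_rpow hu', show (4 : ℝ) = 2 ^ 2 by norm_num, Real.log_pow]
    push_cast
    ring

end Pool.Agent.Lib.MP_79d702_lc.Two
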