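import Pool.Agent.Lib.MP_79d702_lc.Two.Key

/-!
A sparse random host graph.
-/

namespace Pool.Agent.Lib.MP_79d702_lc.Two

set_option linter.unusedSectionVars false

open Finset Pool.Agent.Lib.MP_79d702_lc.Neg

variable {V E : Type} [Fintype V] [DecidableEq V] [Fintype E] [DecidableEq E]

def epg (g : E → V × V) (e : E) : Finset V := {(g e).1, (g e).2}

theorem avg_pow {n D : ℕ} (hn : Fintype.card V = n) (hn0 : 0 < n) (hE : Fintype.card E = D * n)
    {x : ℝ} (hx : 0 ≤ x) (U : Finset V) :
    ∑ g : E → V × V, x ^ (ins (epg g) U).card ≤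
      ((n : ℝ) ^ 2) ^ (D * n) * Real.exp ((x - 1) * U.card ^ 2 * D / n) := by
  have h1 : ∀ g : E → V × V, x ^ (ins (epg g) U).card = ∏ e, if g e ∈ U ×ˢ U then x else 1 := by
    intro g
    rw [← prod_const, ins, prod_filter]
    refine prod_congr rfl fun e _ => if_congr ?_ rfl rfl
    simp [epg, insert_subset_iff]
  have h2 : ∑ p : V × V, (if p ∈ U ×ˢ U then x else 1) = (n : ℝ) ^ 2 + (x - 1) * U.card ^ 2 := by
    rw [sum_congr rfl (g := fun p => 1 + if p ∈ U ×ˢ U then x - 1 else 0)
      fun p _ => by split_ifs <;> ring, sum_add_distrib, Fintype.sum_ite_mem]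
    simp [hn]
    ring
  have n0 : (0 : ℝ) < n := by exact_mod_cast hn0
  have h3 : 0 ≤ (n : ℝ) ^ 2 + (x - 1) * U.card ^ 2 := by
    rw [← h2]
    exact sum_nonneg fun p _ => by split_ifs <;> positivity
  simp only [h1]
  rw [← Fintype.piFinset_univ, ← prod_univ_sum (fun _ : E => (univ : Finset (V × V)))
    (fun _ p => if p ∈ U ×ˢ U then x else 1), prod_const, card_univ, hE, h2,
    show (x - 1) * U.card ^ 2 * D / n = (D * n : ℕ) * ((x - 1) * U.card ^ 2 / n ^ 2) by
      push_cast; field_simp, Real.exp_nat_mul, ← mul_pow]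
  refine pow_le_pow_left₀ h3 ?_ _
  refine le_trans (le_of_eq ?_) (mul_le_mul_of_nonneg_left (Real.add_one_le_exp _) (by positivity))
  field_simp
  ring

theorem sparse_term {n D u : ℕ} (hu : 1 ≤ u) (hD : 1 ≤ D) (h : 32 * D ^ 2 * u ≤ n) :
    (n.choose u : ℝ) * (Real.exp u / ((n : ℝ) / (u * D)) ^ (2 * u)) ≤ (1 / 4) ^ u := by
  have u0 : (0 : ℝ) < u := by exact_mod_cast hu
  have D0 : (0 : ℝ) < D := by exact_mod_cast hD
  have h' : (32 * D ^ 2 * u : ℝ) ≤ n := by exact_mod_cast h
  have n0 : (0 : ℝ) < n := lt_of_lt_of_le (by positivity) h'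
  have h1 : (n.choose u : ℝ) ≤ (n : ℝ) ^ u / u.factorial := by
    simpa using Nat.choose_le_pow_div (α := ℝ) u n
  have h2 := Real.pow_div_factorial_le_exp (u : ℝ) u0.le u
  have h3 : (n.choose u : ℝ) ≤ (n / u) ^ u * Real.exp u := by
    refine h1.trans (le_trans (le_of_eq ?_) (mul_le_mul_of_nonneg_left h2 (by positivity)))
    rw [div_pow]
    field_simp
  have h4 : Real.exp u = Real.exp 1 ^ u := by rw [← Real.exp_nat_mul, mul_one]
  refine (mul_le_mul_of_nonneg_right h3 (by positivity)).trans ?_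
  rw [h4, pow_mul, ← div_pow, ← mul_pow, ← mul_pow]
  refine pow_le_pow_left₀ (by positivity) ?_ _
  have e1 := Real.exp_one_lt_d9
  have e0 := Real.exp_pos 1
  have e2 : Real.exp 1 * Real.exp 1 ≤ 8 := by nlinarith
  have e3 : (n : ℝ) / u * Real.exp 1 * (Real.exp 1 / (n / (u * D)) ^ 2) =
      Real.exp 1 * Real.exp 1 * (D ^ 2 * u) / n := by field_simp
  rw [e3, div_le_iff₀ n0]
  have : (0 : ℝ) ≤ D ^ 2 * u := by positivity
  nlinarith

theorem exists_host {n D W k w : ℕ} (hn : Fintype.card V = n) (hE : Fintype.card E = D * n)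
    (hD : 1 ≤ D) (hW : 32 * D ^ 2 * W ≤ n) (hw : w + 1 ≤ n) {β : ℝ} (h0 : 0 ≤ β) (h1 : β ≤ 1)
    (hk : 2 * (n : ℝ) ^ 2 ≤ β * k ^ 2 * D) :
    ∃ g : E → V × V, Host (epg g) W ∧
      Ex β (fun y => ind (∃ S : Finset V, k ≤ S.card ∧ ins (epg g) S ⊆ yᶜ)) ≤ (1 / 2) ^ w := by
  have n0 : (0 : ℝ) < n := by exact_mod_cast (by omega : 0 < n)
  have D1 : (1 : ℝ) ≤ D := by exact_mod_cast hD
  have hM : (0 : ℝ) < ((n : ℝ) ^ 2) ^ (D * n) := by positivity
  have b1 : ∑ g : E → V × V, ind (∃ U : Finset V, U.card ≤ W ∧ 2 * U.card < (ins (epg g) U).card) ≤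
      ((n : ℝ) ^ 2) ^ (D * n) * (1 / 3) := by
    calc _ ≤ ∑ g : E → V × V, ∑ u ∈ Ico 1 (1 + W), ∑ U ∈ powersetCard u (univ : Finset V),
          ((n : ℝ) / (u * D)) ^ (ins (epg g) U).card / ((n : ℝ) / (u * D)) ^ (2 * u) := by
          refine sum_le_sum fun g _ => ind_le_of (by positivity) ?_
          rintro ⟨U, hU, h⟩
          have hU1 : 1 ≤ U.card := by
            obtain ⟨e, he⟩ := card_pos.mp (Nat.zero_lt_of_lt h)
            exact card_pos.mpr ⟨_, mem_ins.mp he (mem_insert_self _ _)⟩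
          refine le_trans ?_ (single_le_sum (f := fun u : ℕ => ∑ U ∈ powersetCard u univ,
            ((n : ℝ) / (u * D)) ^ (ins (epg g) U).card / ((n : ℝ) / (u * D)) ^ (2 * u))
            (fun _ _ => by positivity) (mem_Ico.mpr ⟨hU1, by omega⟩))
          refine le_trans ?_ (single_le_sum (f := fun U' : Finset V =>
            ((n : ℝ) / (U.card * D)) ^ (ins (epg g) U').card / ((n : ℝ) / (U.card * D)) ^
              (2 * U.card)) (a := U) (fun _ _ => by positivity) (by simp))
          have u1 : (1 : ℝ) ≤ U.card := by exact_mod_cast hU1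
          have e1 : (1 : ℝ) ≤ n / (U.card * D) := by
            rw [le_div_iff₀ (by positivity), one_mul]
            have : U.card * D ≤ n := le_trans (by
              rw [mul_comm]; exact Nat.mul_le_mul (by nlinarith) hU) hW
            exact_mod_cast this
          rw [one_le_div (by positivity)]
          exact pow_le_pow_right₀ e1 h.le
      _ = ∑ u ∈ Ico 1 (1 + W), ∑ U ∈ powersetCard u (univ : Finset V),
          (∑ g : E → V × V, ((n : ℝ) / (u * D)) ^ (ins (epg g) U).card) /
            ((n : ℝ) / (u * D)) ^ (2 * u) := by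
          rw [sum_comm]
          refine sum_congr rfl fun u _ => ?_
          rw [sum_comm]
          simp only [sum_div]
      _ ≤ ∑ u ∈ Ico 1 (1 + W), ((n : ℝ) ^ 2) ^ (D * n) * (1 / 4) ^ u := by
          refine sum_le_sum fun u hu => ?_
          rw [mem_Ico] at hu
          have u0 : (0 : ℝ) < u := by exact_mod_cast hu.1
          refine (sum_le_card_nsmul _ _ (((n : ℝ) ^ 2) ^ (D * n) *
            (Real.exp u / ((n : ℝ) / (u * D)) ^ (2 * u))) fun U hU => ?_).trans ?_
          · rw [← mul_div_assoc]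
            refine div_le_div_of_nonneg_right ((avg_pow hn (by omega) hE (by positivity) U).trans
              (mul_le_mul_of_nonneg_left (Real.exp_le_exp.mpr ?_) hM.le)) (by positivity)
            rw [(mem_powersetCard.mp hU).2, div_le_iff₀ n0]
            have : (n : ℝ) / (u * D) * u ^ 2 * D = u * n := by field_simp
            have : (0 : ℝ) ≤ u ^ 2 * D := by positivity
            nlinarith
          · rw [card_powersetCard, card_univ, hn, nsmul_eq_mul, mul_left_comm]
            exact mul_le_mul_of_nonneg_left (sparse_term hu.1 hD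
              (le_trans (Nat.mul_le_mul_left _ (by omega)) hW)) hM.le
      _ ≤ _ := by
          rw [← mul_sum]
          refine mul_le_mul_of_nonneg_left ((geo4 1 W).trans ?_) hM.le
          have : (0 : ℝ) ≤ (1 / 4) ^ (1 + W) := by positivity
          linarith
  have b2 : ∑ g : E → V × V, Ex β (fun y => ind (∃ S : Finset V, k ≤ S.card ∧
      ins (epg g) S ⊆ yᶜ)) ≤ ((n : ℝ) ^ 2) ^ (D * n) * (1 / 2) ^ (w + 1) := by
    calc _ ≤ ∑ g : E → V × V, ∑ S ∈ univ.filter (fun S : Finset V => k ≤ S.card),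
          (1 - β) ^ (ins (epg g) S).card := by
          refine sum_le_sum fun g _ => ?_
          simp only [← Ex_subset, ← Ex_compl]
          rw [← Ex_sum]
          refine Ex_mono h0 h1 fun y => le_trans (ind_mono ?_) (ind_exists_le _ _)
          rintro ⟨S, h2, h3⟩
          exact ⟨S, by simpa using h2, h3⟩
      _ ≤ ∑ S ∈ univ.filter (fun S : Finset V => k ≤ S.card),
          ((n : ℝ) ^ 2) ^ (D * n) * (1 / 4) ^ n := by
          rw [sum_comm]
          refine sum_le_sum fun S hS => (avg_pow hn (by omega) hE (by linarith) S).trans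
            (mul_le_mul_of_nonneg_left ?_ hM.le)
          have e1 : (k : ℝ) ≤ S.card := by exact_mod_cast (mem_filter.mp hS).2
          have e2 : (k : ℝ) ^ 2 ≤ S.card ^ 2 := pow_le_pow_left₀ (by positivity) e1 2
          have e3 : (1 - β - 1) * S.card ^ 2 * D / n ≤ n * (-2) := by
            rw [div_le_iff₀ n0]
            have := mul_le_mul_of_nonneg_left e2 (by positivity : 0 ≤ β * D)
            nlinarith
          refine (Real.exp_le_exp.mpr e3).trans ?_
          rw [Real.exp_nat_mul]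
          refine pow_le_pow_left₀ (Real.exp_pos _).le ?_ _
          rw [Real.exp_neg, one_div]
          refine inv_anti₀ (by norm_num) ?_
          have := Real.add_one_le_exp 1
          rw [show (2 : ℝ) = 1 + 1 by norm_num, Real.exp_add]
          nlinarith
      _ ≤ _ := by
          rw [sum_const, nsmul_eq_mul, mul_left_comm]
          refine mul_le_mul_of_nonneg_left ?_ hM.le
          have e1 : ((univ.filter (fun S : Finset V => k ≤ S.card)).card : ℝ) ≤ 2 ^ n := by
            have := card_le_univ (univ.filter (fun S : Finset V => k ≤ S.card))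
            rw [Fintype.card_finset, hn] at this
            exact_mod_cast this
          refine (mul_le_mul_of_nonneg_right e1 (by positivity)).trans ?_
          rw [← mul_pow]
          norm_num
          exact pow_le_pow_of_le_one (by norm_num) (by norm_num) hw
  obtain ⟨g, -, hg⟩ := exists_lt_of_sum_lt (s := univ) (f := fun g : E → V × V =>
    ind (∃ U : Finset V, U.card ≤ W ∧ 2 * U.card < (ins (epg g) U).card) + 2 ^ w *
      Ex β (fun y => ind (∃ S : Finset V, k ≤ S.card ∧ ins (epg g) S ⊆ yᶜ))) (g := fun _ => 1) (by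
    rw [sum_add_distrib, ← mul_sum]
    have e1 := mul_le_mul_of_nonneg_left b2 (by positivity : (0 : ℝ) ≤ 2 ^ w)
    have e2 : (2 : ℝ) ^ w * (1 / 2) ^ (w + 1) = 1 / 2 := by
      rw [pow_succ, ← mul_assoc, ← mul_pow]; norm_num
    rw [mul_left_comm, e2] at e1
    simp only [sum_const, card_univ, Fintype.card_fun, Fintype.card_prod, hn, hE, nsmul_eq_mul]
    push_cast
    rw [← sq]
    linarith)
  have e0 : 0 ≤ Ex β (fun y => ind (∃ S : Finset V, k ≤ S.card ∧ ins (epg g) S ⊆ yᶜ)) :=
    Ex_nonneg h0 h1 fun _ => ind_nonneg _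
  refine ⟨g, ⟨fun e => insert_nonempty _ _, fun e => card_le_two, fun U hU => ?_⟩, ?_⟩
  · by_contra h
    rw [ind_pos ⟨U, hU, not_le.mp h⟩] at hg
    have : (0 : ℝ) ≤ 2 ^ w := by positivity
    nlinarith
  · have := ind_nonneg (∃ U : Finset V, U.card ≤ W ∧ 2 * U.card < (ins (epg g) U).card)
    rw [one_div, inv_pow, ← one_div, le_div_iff₀ (by positivity)]
    linarith

theorem pos_accept {σ : ℝ} (h0 : 0 ≤ σ) (h1 : σ ≤ 1) {k : ℕ} (hk : 2 * k ≤ σ * Fintype.card V) :
    Ex σ (fun S : Finset V => ind (¬ k ≤ S.card)) ≤ 1 / 2 := by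
  have e1 : Ex σ (fun S : Finset V => (1 / 2 : ℝ) ^ S.card) = (1 - σ / 2) ^ Fintype.card V := by
    unfold Ex mu
    have : ∀ S : Finset V, (∏ i, if i ∈ S then σ else 1 - σ) * (1 / 2 : ℝ) ^ S.card =
        ∏ i, if i ∈ S then σ / 2 else 1 - σ := by
      intro S
      rw [← prod_const, ← Fintype.prod_ite_mem S, ← prod_mul_distrib]
      exact prod_congr rfl fun i _ => by split_ifs <;> ring
    simp only [this]
    rw [sum_prod_mem, prod_const, card_univ]
    congr 1; ring
  have e2 : (1 - σ / 2) ^ Fintype.card V ≤ (1 / 2) ^ k := by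
    refine (pow_le_pow_left₀ (by linarith) (Real.one_sub_le_exp_neg _) _).trans ?_
    rw [← Real.exp_nat_mul]
    refine (Real.exp_le_exp.mpr (by linarith : _ ≤ (k : ℝ) * (-1))).trans ?_
    rw [Real.exp_nat_mul]
    refine pow_le_pow_left₀ (Real.exp_pos _).le ?_ _
    rw [Real.exp_neg, one_div]
    exact inv_anti₀ (by norm_num) (by linarith [Real.add_one_le_exp 1])
  refine (Ex_mono h0 h1 (ψ := fun S => 2 ^ k / 2 * (1 / 2) ^ S.card) fun S =>
    ind_le_of (by positivity) fun h => ?_).trans ?_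
  · have : (2 : ℝ) ^ (S.card + 1) ≤ 2 ^ k := pow_le_pow_right₀ (by norm_num) (by omega)
    rw [one_div, inv_pow, ← div_eq_mul_inv, le_div_iff₀ (by positivity)]
    rw [pow_succ] at this
    linarith
  · rw [Ex_mul, e1]
    refine (mul_le_mul_of_nonneg_left e2 (by positivity)).trans_eq ?_
    rw [div_mul_eq_mul_div, ← mul_pow]; norm_num

end Pool.Agent.Lib.MP_79d702_lc.Two
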