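import Pool.Agent.Lib.MP_79d702_lc.Two.Final

/-!
A sparse random simple host graph.
-/

namespace Pool.Agent.Lib.MP_79d702_lc.Two

set_option linter.unusedSectionVars false

open Finset Pool.Agent.Lib.MP_79d702_lc.Neg

variable {v : ℕ}

/-- the edges of the host graph -/
abbrev EH (H : Finset (Fin v × Fin v)) : Type := {e : Fin v × Fin v // e ∈ H ∧ e.1 < e.2}

def eph (H : Finset (Fin v × Fin v)) (e : EH H) : Finset (Fin v) := {e.1.1, e.1.2}

theorem card_ins (H : Finset (Fin v × Fin v)) (U : Finset (Fin v)) :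
    (ins (eph H) U).card = (H ∩ (U ×ˢ U).filter fun x => x.1 < x.2).card := by
  refine card_bij (fun e _ => e.1) (fun e he => ?_) (fun _ _ _ _ h => Subtype.ext h)
    fun x hx => ?_
  · simpa [eph, insert_subset_iff, mem_ins, e.2.1, e.2.2] using he
  · simp only [mem_inter, mem_filter, mem_product] at hx
    exact ⟨⟨x, hx.1, hx.2.2⟩, by simpa [eph, insert_subset_iff, mem_ins] using hx.2.1, rfl⟩

theorem Ex_pow_inter {α : Type} [Fintype α] [DecidableEq α] (p x : ℝ) (P : Finset α) :
    Ex p (fun H => x ^ (H ∩ P).card) = (1 + p * (x - 1)) ^ P.card := by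
  unfold Ex mu
  have : ∀ H : Finset α, (∏ i, if i ∈ H then p else 1 - p) * x ^ (H ∩ P).card =
      ∏ i, if i ∈ H then (if i ∈ P then p * x else p) else 1 - p := by
    intro H
    rw [← prod_const, ← Fintype.prod_ite_mem (H ∩ P), ← prod_mul_distrib]
    refine prod_congr rfl fun i _ => ?_
    by_cases h1 : i ∈ H <;> by_cases h2 : i ∈ P <;> simp [h1, h2]
  simp only [this]
  rw [sum_prod_mem, ← prod_const, ← Fintype.prod_ite_mem P]
  exact prod_congr rfl fun i _ => by split_ifs <;> ring

theorem avg_pow2 {p x : ℝ} (h0 : 0 ≤ p) (h1 : p ≤ 1) (hx : 0 ≤ x) (U : Finset (Fin v)) :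
    Ex p (fun H : Finset (Fin v × Fin v) => x ^ (ins (eph H) U).card) ≤
      Real.exp (p * (x - 1) * (U.card * (U.card - 1) / 2)) := by
  simp only [card_ins]
  rw [Ex_pow_inter, card_product_filter_lt, ← Nat.cast_choose_two, mul_comm (p * (x - 1)),
    Real.exp_nat_mul]
  exact pow_le_pow_left₀ (by nlinarith) (by linarith [Real.add_one_le_exp (p * (x - 1))]) _

theorem exists_host2 {D W k w : ℕ} (hD : 1 ≤ D) (hW : 32 * D ^ 2 * W ≤ v) (hw : w + 1 ≤ v)
    (hDv : D ≤ v) (hk2 : 2 ≤ k) {β : ℝ} (h0 : 0 ≤ β) (h1 : β ≤ 1)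
    (hk : 8 * (v : ℝ) ^ 2 ≤ β * k ^ 2 * D) :
    ∃ H : Finset (Fin v × Fin v), Host (eph H) W ∧
      Ex β (fun y => ind (∃ S : Finset (Fin v), k ≤ S.card ∧ ins (eph H) S ⊆ yᶜ)) ≤ (1 / 2) ^ w := by
  have n0 : (0 : ℝ) < v := by exact_mod_cast (by omega : 0 < v)
  have D1 : (1 : ℝ) ≤ D := by exact_mod_cast hD
  have p0 : (0 : ℝ) ≤ D / v := by positivity
  have p1 : (D : ℝ) / v ≤ 1 := div_le_one_of_le₀ (by exact_mod_cast hDv) n0.le
  have b1 : Ex ((D : ℝ) / v) (fun H : Finset (Fin v × Fin v) => ind (∃ U : Finset (Fin v),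
      U.card ≤ W ∧ 2 * U.card < (ins (eph H) U).card)) ≤ 1 / 3 := by
    calc _ ≤ Ex ((D : ℝ) / v) (fun H : Finset (Fin v × Fin v) => ∑ u ∈ Ico 1 (1 + W),
          ∑ U ∈ powersetCard u (univ : Finset (Fin v)), (((v : ℝ) / (u * D)) ^ (2 * u))⁻¹ *
          ((v : ℝ) / (u * D)) ^ (ins (eph H) U).card) := by
          refine Ex_mono p0 p1 fun H => ind_le_of (by positivity) ?_
          rintro ⟨U, hU, h⟩
          have hU1 : 1 ≤ U.card := by
            obtain ⟨e, he⟩ := card_pos.mp (Nat.zero_lt_of_lt h)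
            exact card_pos.mpr ⟨_, mem_ins.mp he (mem_insert_self _ _)⟩
          refine le_trans ?_ (single_le_sum (f := fun u : ℕ => ∑ U ∈ powersetCard u univ,
            (((v : ℝ) / (u * D)) ^ (2 * u))⁻¹ * ((v : ℝ) / (u * D)) ^ (ins (eph H) U).card)
            (fun _ _ => by positivity) (mem_Ico.mpr ⟨hU1, by omega⟩))
          refine le_trans ?_ (single_le_sum (f := fun U' : Finset (Fin v) =>
            (((v : ℝ) / (U.card * D)) ^ (2 * U.card))⁻¹ *
              ((v : ℝ) / (U.card * D)) ^ (ins (eph H) U').card) (a := U)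
              (fun _ _ => by positivity) (by simp))
          have u1 : (1 : ℝ) ≤ U.card := by exact_mod_cast hU1
          have e1 : (1 : ℝ) ≤ v / (U.card * D) := by
            rw [le_div_iff₀ (by positivity), one_mul]
            have : U.card * D ≤ v := le_trans (by
              rw [mul_comm]; exact Nat.mul_le_mul (by nlinarith) hU) hW
            exact_mod_cast this
          rw [← div_eq_inv_mul, one_le_div (by positivity)]
          exact pow_le_pow_right₀ e1 h.le
      _ ≤ ∑ u ∈ Ico 1 (1 + W), (1 / 4 : ℝ) ^ u := by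
          rw [Ex_sum]
          refine sum_le_sum fun u hu => ?_
          rw [mem_Ico] at hu
          have u0 : (0 : ℝ) < u := by exact_mod_cast hu.1
          have hv := le_trans (Nat.mul_le_mul_left _ (by omega : u ≤ W)) hW
          rw [Ex_sum]
          refine (sum_le_card_nsmul _ _ (Real.exp u / ((v : ℝ) / (u * D)) ^ (2 * u))
            fun U hU => ?_).trans ?_
          · rw [Ex_mul, div_eq_inv_mul (Real.exp u)]
            refine mul_le_mul_of_nonneg_left ((avg_pow2 p0 p1 (by positivity) U).trans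
              (Real.exp_le_exp.mpr ?_)) (by positivity)
            rw [(mem_powersetCard.mp hU).2]
            have e1 : (D : ℝ) / v * (v / (u * D)) * u = 1 := by field_simp
            have e2 : (1 : ℝ) ≤ u := by exact_mod_cast hu.1
            have e3 : 0 ≤ (D : ℝ) / v * (u * (u - 1) / 2) :=
              mul_nonneg p0 (div_nonneg (mul_nonneg u0.le (by linarith)) (by norm_num))
            have e4 : (D : ℝ) / v * (v / (u * D) - 1) * (u * (u - 1) / 2) =
              (D : ℝ) / v * (v / (u * D)) * u * ((u - 1) / 2) - D / v * (u * (u - 1) / 2) := by ring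
            rw [e4, e1]
            linarith
          · rw [card_powersetCard, card_univ, Fintype.card_fin, nsmul_eq_mul]
            exact sparse_term hu.1 hD hv
      _ ≤ _ := by
          refine (geo4 1 W).trans ?_
          have : (0 : ℝ) ≤ (1 / 4) ^ (1 + W) := by positivity
          linarith
  have b2 : Ex ((D : ℝ) / v) (fun H : Finset (Fin v × Fin v) => Ex β (fun y =>
      ind (∃ S : Finset (Fin v), k ≤ S.card ∧ ins (eph H) S ⊆ yᶜ))) ≤ (1 / 2) ^ (w + 1) := by
    calc _ ≤ Ex ((D : ℝ) / v) (fun H : Finset (Fin v × Fin v) =>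
          ∑ S ∈ univ.filter (fun S : Finset (Fin v) => k ≤ S.card),
          (1 - β) ^ (ins (eph H) S).card) := by
          refine Ex_mono p0 p1 fun H => ?_
          simp only [← Ex_subset, ← Ex_compl]
          rw [← Ex_sum]
          refine Ex_mono h0 h1 fun y => le_trans (ind_mono ?_) (ind_exists_le _ _)
          rintro ⟨S, h2, h3⟩
          exact ⟨S, by simpa using h2, h3⟩
      _ ≤ ∑ S ∈ univ.filter (fun S : Finset (Fin v) => k ≤ S.card), (1 / 4 : ℝ) ^ v := by
          rw [Ex_sum]
          refine sum_le_sum fun S hS => (avg_pow2 p0 p1 (by linarith) S).trans ?_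
          have e1 : (k : ℝ) ≤ S.card := by exact_mod_cast (mem_filter.mp hS).2
          have e0 : (2 : ℝ) ≤ k := by exact_mod_cast hk2
          have e2 : (k : ℝ) ^ 2 ≤ 4 * (S.card * (S.card - 1) / 2) := by nlinarith
          have e3 : (D : ℝ) / v * (1 - β - 1) * (S.card * (S.card - 1) / 2) ≤ v * (-2) := by
            rw [div_mul_eq_mul_div, div_mul_eq_mul_div, div_le_iff₀ n0]
            have := mul_le_mul_of_nonneg_left e2 (by positivity : 0 ≤ β * D)
            nlinarith
          refine (Real.exp_le_exp.mpr e3).trans ?_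
          rw [Real.exp_nat_mul]
          refine pow_le_pow_left₀ (Real.exp_pos _).le ?_ _
          rw [Real.exp_neg, one_div]
          refine inv_anti₀ (by norm_num) ?_
          have := Real.add_one_le_exp 1
          rw [show (2 : ℝ) = 1 + 1 by norm_num, Real.exp_add]
          nlinarith
      _ ≤ _ := by
          rw [sum_const, nsmul_eq_mul]
          have e1 : ((univ.filter (fun S : Finset (Fin v) => k ≤ S.card)).card : ℝ) ≤ 2 ^ v := by
            have := card_le_univ (univ.filter (fun S : Finset (Fin v) => k ≤ S.card))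
            rw [Fintype.card_finset, Fintype.card_fin] at this
            exact_mod_cast this
          refine (mul_le_mul_of_nonneg_right e1 (by positivity)).trans ?_
          rw [← mul_pow]
          norm_num
          exact pow_le_pow_of_le_one (by norm_num) (by norm_num) hw
  obtain ⟨H, hg⟩ : ∃ H : Finset (Fin v × Fin v), ind (∃ U : Finset (Fin v), U.card ≤ W ∧
      2 * U.card < (ins (eph H) U).card) + 2 ^ w *
      Ex β (fun y => ind (∃ S : Finset (Fin v), k ≤ S.card ∧ ins (eph H) S ⊆ yᶜ)) < 1 := by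
    by_contra h
    have e0 := Ex_mono p0 p1 fun H => not_lt.mp (not_exists.mp h H)
    rw [Ex_const, Ex_add, Ex_mul] at e0
    have e1 := mul_le_mul_of_nonneg_left b2 (by positivity : (0 : ℝ) ≤ 2 ^ w)
    have e2 : (2 : ℝ) ^ w * (1 / 2) ^ (w + 1) = 1 / 2 := by
      rw [pow_succ, ← mul_assoc, ← mul_pow]; norm_num
    linarith
  have e0 : 0 ≤ Ex β (fun y => ind (∃ S : Finset (Fin v), k ≤ S.card ∧ ins (eph H) S ⊆ yᶜ)) :=
    Ex_nonneg h0 h1 fun _ => ind_nonneg _
  refine ⟨H, ⟨fun e => insert_nonempty _ _, fun e => card_le_two, fun U hU => ?_⟩, ?_⟩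
  · by_contra h
    rw [ind_pos ⟨U, hU, not_le.mp h⟩] at hg
    have : (0 : ℝ) ≤ 2 ^ w := by positivity
    nlinarith
  · have := ind_nonneg (∃ U : Finset (Fin v), U.card ≤ W ∧ 2 * U.card < (ins (eph H) U).card)
    rw [one_div, inv_pow, ← one_div, le_div_iff₀ (by positivity)]
    linarith

end Pool.Agent.Lib.MP_79d702_lc.Two
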