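import Pool.Agent.Lib.MP_79d702_lc.Two.Graph
import Pool.Agent.Lib.MP_79d702_lc.Neg.Chain

/-!
Induction over the gates, and the multiplicative form of the lower bound.
-/

namespace Pool.Agent.Lib.MP_79d702_lc.Two

set_option linter.unusedSectionVars false

open Finset Pool.Agent.Lib.MP_79d702_lc.Neg

theorem gates {ι κ E : Type} [Fintype ι] [Fintype κ] {φ : ι → E → Prop} {ψ : κ → E → Prop}
    {wA : ι → ℝ} {wB : κ → ℝ} (hA : ∀ i, 0 ≤ wA i) (hB : ∀ i, 0 ≤ wB i) {c n : ℕ} {ρ : ℝ}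
    (step : ∀ X Y, Solv φ ψ (c + 1) X Y →
      ∃ D D', ms wA D ≤ ρ ∧ ms wB D' ≤ ρ ∧ Solv φ ψ c (X \ D) (Y \ D'))
    (xs : ι → Fin n → Bool) (ys : κ → Fin n → Bool)
    (inp : ∀ i, Solv φ ψ 0 {x | xs x i = true} {y | ¬ ys y i = true}) (gs : List (Gate n))
    (hgs : gs.countP Gate.isNot = 0) :
    ∃ D D', ms wA D ≤ gs.countP Gate.isAndOr * ρ ∧ ms wB D' ≤ gs.countP Gate.isAndOr * ρ ∧
      ∀ p, Solv φ ψ c ({x | node gs p (xs x) = true} \ D) ({y | ¬ node gs p (ys y) = true} \ D') := by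
  induction gs using List.reverseRecOn with
  | nil =>
    refine ⟨∅, ∅, by simp [ms_empty], by simp [ms_empty], fun p => Solv.up (c := 0) (Or.inl ?_)
      (Nat.zero_le _)⟩
    simp [node, values]
  | append_singleton gs g ih =>
    rw [List.countP_append] at hgs
    obtain ⟨D, D', h1, h2, h3⟩ := ih (by omega)
    have fin : ∀ D₁ D₁', D ⊆ D₁ → D' ⊆ D₁' →
        Solv φ ψ c ({x | g.value (xs x) (values (xs x) gs) = true} \ D₁)
          ({y | ¬ g.value (ys y) (values (ys y) gs) = true} \ D₁') →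
        ∀ p, Solv φ ψ c ({x | node (gs ++ [g]) p (xs x) = true} \ D₁)
          ({y | ¬ node (gs ++ [g]) p (ys y) = true} \ D₁') := by
      intro D₁ D₁' e1 e2 h p
      simp only [node_snoc]
      split_ifs
      · exact h
      · exact (h3 p).sub (Set.sdiff_subset_sdiff_right e1) (Set.sdiff_subset_sdiff_right e2)
    have exact_case : g.isAndOr = false →
        Solv φ ψ 0 {x | g.value (xs x) (values (xs x) gs) = true}
          {y | ¬ g.value (ys y) (values (ys y) gs) = true} →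
        ∃ D D', ms wA D ≤ (gs ++ [g]).countP Gate.isAndOr * ρ ∧
          ms wB D' ≤ (gs ++ [g]).countP Gate.isAndOr * ρ ∧
          ∀ p, Solv φ ψ c ({x | node (gs ++ [g]) p (xs x) = true} \ D)
            ({y | ¬ node (gs ++ [g]) p (ys y) = true} \ D') := by
      intro hg h
      have hc : (gs ++ [g]).countP Gate.isAndOr = gs.countP Gate.isAndOr := by
        simp [List.countP_append, hg]
      rw [hc]
      exact ⟨D, D', h1, h2, fin D D' le_rfl le_rfl
        ((h.up (Nat.zero_le _)).sub Set.sdiff_subset Set.sdiff_subset)⟩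
    have approx_case : g.isAndOr = true →
        Solv φ ψ (c + 1) ({x | g.value (xs x) (values (xs x) gs) = true} \ D)
          ({y | ¬ g.value (ys y) (values (ys y) gs) = true} \ D') →
        ∃ D D', ms wA D ≤ (gs ++ [g]).countP Gate.isAndOr * ρ ∧
          ms wB D' ≤ (gs ++ [g]).countP Gate.isAndOr * ρ ∧
          ∀ p, Solv φ ψ c ({x | node (gs ++ [g]) p (xs x) = true} \ D)
            ({y | ¬ node (gs ++ [g]) p (ys y) = true} \ D') := by
      intro hg h
      have hc : (gs ++ [g]).countP Gate.isAndOr = gs.countP Gate.isAndOr + 1 := by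
        simp [List.countP_append, hg]
      obtain ⟨D₁, D₁', e1, e2, e3⟩ := step _ _ h
      rw [Set.sdiff_sdiff, Set.sdiff_sdiff] at e3
      have e4 := ms_le_add hA (Set.Subset.refl (D ∪ D₁))
      have e5 := ms_le_add hB (Set.Subset.refl (D' ∪ D₁'))
      rw [hc]
      push_cast
      exact ⟨D ∪ D₁, D' ∪ D₁', by linarith, by linarith,
        fin _ _ Set.subset_union_left Set.subset_union_left e3⟩
    cases g with
    | const b =>
      cases b
      · exact exact_case rfl (Or.inl (by simp [Gate.value]))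
      · exact exact_case rfl (Or.inr (Or.inl (by simp [Gate.value])))
    | input j => exact exact_case rfl (inp j)
    | not a => simp [Gate.isNot] at hgs
    | and a b =>
      refine approx_case rfl (Or.inr ⟨_, _, fun y hy => ?_, (h3 a).sub (fun x hx => ⟨?_, hx.2⟩)
        le_rfl, (h3 b).sub (fun x hx => ⟨?_, hx.2⟩) le_rfl⟩)
      · obtain ⟨h4, h5⟩ := hy
        simp only [Gate.value, Bool.and_eq_true, Set.mem_ofPred_eq, not_and_or] at h4
        exact h4.imp (fun h => ⟨h, h5⟩) fun h => ⟨h, h5⟩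
      · exact (Bool.and_eq_true_iff.mp hx.1).1
      · exact (Bool.and_eq_true_iff.mp hx.1).2
    | or a b =>
      refine approx_case rfl (Or.inl ⟨_, _, fun x hx => ?_, (h3 a).sub le_rfl
        (fun y hy => ⟨?_, hy.2⟩), (h3 b).sub le_rfl (fun y hy => ⟨?_, hy.2⟩)⟩)
      · exact (Bool.or_eq_true_iff.mp hx.1).imp (fun h => ⟨h, hx.2⟩) fun h => ⟨h, hx.2⟩
      · exact fun h => hy.1 (Bool.or_eq_true_iff.mpr (Or.inl h))
      · exact fun h => hy.1 (Bool.or_eq_true_iff.mpr (Or.inr h))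

variable {V E : Type} [Fintype V] [DecidableEq V] [Fintype E] [DecidableEq E]

structure Par (ep : E → Finset V) (w m r : ℕ) (t : ℝ) : Prop where
  host : Host ep (400 * w)
  hw : 1 ≤ w
  hr : 200 * w < 2 ^ r
  hm : 1 ≤ m
  t0 : 0 < t
  t1 : 2048 * r * m * t ≤ 1
  small : r * ((2 / 3 : ℝ) ^ m * Fintype.card (V ⊕ E)) ≤ 1 / 8

variable {ep : E → Finset V} {w m r : ℕ} {t : ℝ}

theorem Par.facts (P : Par ep w m r t) : 1 ≤ r ∧ 2048 * m * t ≤ 1 ∧ 2048 * t ≤ 1 ∧
    27 ≤ -28 * Real.log t ∧ Real.exp (-(-28 * Real.log t)) = t ^ 28 := by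
  have hr : 1 ≤ r := by
    by_contra h
    have h1 := P.hr
    have := P.hw
    rw [show r = 0 by omega] at h1
    omega
  have r1 : (1 : ℝ) ≤ r := by exact_mod_cast hr
  have m1 : (1 : ℝ) ≤ m := by exact_mod_cast P.hm
  have t0 := P.t0
  have t1 : 2048 * m * t ≤ 1 := by nlinarith [mul_pos (zero_lt_one.trans_le m1) t0, P.t1]
  have t3 : 2048 * t ≤ 1 := by nlinarith
  refine ⟨hr, t1, t3, by linarith [Real.log_le_sub_one_of_pos t0], ?_⟩
  rw [show -(-28 * Real.log t) = (28 : ℕ) * Real.log t by push_cast; ring, Real.exp_nat_mul,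
    Real.exp_log t0]

theorem Par.noGood (P : Par ep w m r t) {c : ℕ} (hc : (c : ℝ) ≤ 60 * (-28 * Real.log t) * w)
    {X : Set (Finset V)} {Y : Set (Finset E)}
    (h : Solv (sideA (t ^ 2940) ep).φ (sideB E (t ^ 980)).φ c X Y) :
    ∀ X₁ K Y₁ K', X₁ ⊆ X → Y₁ ⊆ Y → (sideA (t ^ 2940) ep).h K + (sideB E (t ^ 980)).h K' ≤ w →
      ¬ Good (sideA (t ^ 2940) ep) (sideB E (t ^ 980)) (5 * (-28 * Real.log t)) X₁ K Y₁ K' := by
  intro X₁ K Y₁ K' h1 h2 h3 gd
  obtain ⟨hr, t1, t3, ha, he⟩ := P.facts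
  have t0 := P.t0
  have p1 : ∀ k : ℕ, t ^ k ≤ 1 := fun k => pow_le_one₀ t0.le (by linarith)
  have r1 : (1 : ℝ) ≤ r := by exact_mod_cast hr
  have s1 : (2 / 3 : ℝ) ^ m * Fintype.card (V ⊕ E) ≤ 1 / 8 :=
    (le_mul_of_one_le_left (by positivity) r1).trans P.small
  have s2 : (2 / 3 : ℝ) ^ m * Fintype.card E ≤ 1 / 8 :=
    (mul_le_mul_of_nonneg_left (by simp) (by positivity)).trans s1
  exact noSolv (sideA_ok P.host (by positivity) (p1 _)) (sideB_ok (by positivity) (p1 _))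
    (by linarith) (by positivity) (p1 6)
    (sideA_hat P.host (by omega) (by positivity) (p1 _) t0 t3 t1 he s1)
    (sideB_hat (by positivity) (p1 _) t0 t3 t1 he s2)
    (coverA P.host (by omega) (by positivity) (p1 _) t0 t3 t1 s2)
    (coverB P.host (by omega) P.hr hr P.hm t0 P.t1 P.small) hc gd h3 (h.sub h1 h2)

theorem Par.baseA (P : Par ep w m r t) (X : Set (Finset V)) (K : Finset V) (h : ∀ S ∈ X, K ⊆ S)
    (h0 : 0 < ms (mu (t ^ 2940)) X) : Real.log (ms (mu (t ^ 2940)) X) ≤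
      -(7 * (5 * (-28 * Real.log t))) * (sideA (t ^ 2940) ep).h K := by
  obtain ⟨-, -, t3, ha, -⟩ := P.facts
  have t0 := P.t0
  have h1 := Real.log_le_log h0 (ms_mu_le (by positivity) (pow_le_one₀ t0.le (by linarith)) h)
  rw [Real.log_pow, Real.log_pow] at h1
  have h2 : ((sideA (t ^ 2940) ep).h K : ℝ) ≤ 3 * K.card := by
    have : (sideA (t ^ 2940) ep).h K ≤ 3 * K.card := by simp only [sideA]; omega
    exact_mod_cast this
  push_cast at h1
  nlinarith

theorem Par.step (P : Par ep w m r t) (X : Set (Finset V)) (Y : Set (Finset E))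
    (h : Solv (sideA (t ^ 2940) ep).φ (sideB E (t ^ 980)).φ
      (⌊55 * (-28 * Real.log t) * w⌋₊ + 1) X Y) :
    ∃ D D', ms (mu (t ^ 2940)) D ≤ (1 / 2) ^ w ∧ ms (mu (t ^ 980)) D' ≤ (1 / 2) ^ w ∧
      Solv (sideA (t ^ 2940) ep).φ (sideB E (t ^ 980)).φ ⌊55 * (-28 * Real.log t) * w⌋₊
        (X \ D) (Y \ D') := by
  obtain ⟨-, -, t3, ha, -⟩ := P.facts
  have t0 := P.t0
  have w1 : (1 : ℝ) ≤ w := by exact_mod_cast P.hw
  have p1 : ∀ k : ℕ, t ^ k ≤ 1 := fun k => pow_le_one₀ t0.le (by linarith)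
  have hf := Nat.floor_le (a := 55 * (-28 * Real.log t) * w) (by positivity)
  obtain ⟨D, D', d1, d2, n, d3, d4⟩ := dichotomy (sideA_ok P.host (by positivity) (p1 2940))
    (sideB_ok (by positivity) (p1 980)) (w := w) (by omega) P.hw (a := 5 * (-28 * Real.log t))
    (by linarith) P.baseA (fun Y K h h0 => by
      have h1 := Real.log_le_log h0 (ms_mu_le (by positivity) (p1 _) h)
      rw [Real.log_pow, Real.log_pow] at h1
      refine h1.trans_eq ?_
      simp only [sideB]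
      push_cast
      ring) (by simp [sideA]) rfl
    (fun X => (ms_mu_le (K := ∅) (X := X) (by positivity) (p1 2940) (by simp)).trans_eq (by simp))
    (fun X => (ms_mu_le (K := ∅) (X := X) (by positivity) (p1 980) (by simp)).trans_eq (by simp))
    P.host.h0 (fun e => singleton_nonempty e) X Y (P.noGood (by push_cast; nlinarith) h)
  exact ⟨D, D', d1, d2, d4.up (Nat.le_floor (by linarith))⟩

/-- the multiplicative form of the lower bound -/
theorem Par.key (P : Par ep w m r t) {n : ℕ} (ρ : Finset E → Fin n → Bool)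
    (hρ : ∀ i, (∃ a, ∀ V, ρ V i = true ↔ a ∈ V) ∨ ∃ b, ∀ V, ρ V i = b) (gs : List (Gate n))
    (hgs : gs.countP Gate.isNot = 0) (p : ℕ) :
    Ex (t ^ 2940) (fun S => ind (node gs p (ρ (ins ep S)) = true)) ≤
      2 * Ex (t ^ 980) (fun y => ind (node gs p (ρ yᶜ) = true)) +
        3 * ((gs.countP Gate.isAndOr + 1) * (1 / 2) ^ w) := by
  obtain ⟨-, -, t3, ha, he⟩ := P.facts
  have t0 := P.t0
  have w1 : (1 : ℝ) ≤ w := by exact_mod_cast P.hw
  have p1 : ∀ k : ℕ, t ^ k ≤ 1 := fun k => pow_le_one₀ t0.le (by linarith)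
  have hA := mu_nonneg (α := V) (q := t ^ 2940) (by positivity) (p1 _)
  have hB := mu_nonneg (α := E) (q := t ^ 980) (by positivity) (p1 _)
  obtain ⟨D, D', d1, d2, d3⟩ := gates hA hB P.step (fun S => ρ (ins ep S)) (fun y => ρ yᶜ)
    (fun i => by
      rcases hρ i with ⟨a, h⟩ | ⟨b, h⟩
      · exact Or.inr (Or.inr ⟨a, fun S hS => mem_ins.mp ((h _).mp hS), fun y hy =>
          singleton_subset_iff.mpr (by simpa [h] using hy)⟩)
      · cases b
        · exact Or.inl (by simp [h])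
        · exact Or.inr (Or.inl (by simp [h]))) gs hgs
  have hf := Nat.floor_le (a := 55 * (-28 * Real.log t) * w) (by positivity)
  have hno := P.noGood (by nlinarith) (d3 p)
  obtain ⟨X, hX⟩ : ∃ X : Set (Finset V), X = {S | node gs p (ρ (ins ep S)) = true} := ⟨_, rfl⟩
  obtain ⟨Y, hY⟩ : ∃ Y : Set (Finset E), Y = {y | node gs p (ρ yᶜ) = true} := ⟨_, rfl⟩
  have eX : Ex (t ^ 2940) (fun S => ind (node gs p (ρ (ins ep S)) = true)) =
    ms (mu (t ^ 2940)) X := by rw [hX]; rfl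
  have eY : Ex (t ^ 980) (fun y => ind (node gs p (ρ yᶜ) = true)) = ms (mu (t ^ 980)) Y := by
    rw [hY]; rfl
  have eY' : {y | ¬ node gs p (ρ yᶜ) = true} = Yᶜ := by rw [hY]; rfl
  rw [← hX, eY'] at hno
  rw [eX, eY]
  have s1 : (0 : ℝ) ≤ (gs.countP Gate.isAndOr : ℕ) := Nat.cast_nonneg _
  generalize ((gs.countP Gate.isAndOr : ℕ) : ℝ) = s at *
  set δ : ℝ := (1 / 2) ^ w with hδ
  have δ0 : 0 < δ := by positivity
  have s0 : 0 ≤ s * δ := by positivity
  have y0 := ms_nonneg hB Y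
  have e1 := ms_le_add hA (X := X) (Y := X \ D) (Z := D)
    (by rw [Set.sdiff_union_self]; exact Set.subset_union_left)
  by_contra hcon
  have h0 : δ < ms (mu (t ^ 2940)) (X \ D) := by linarith
  obtain ⟨J, Q, r', ω, D₀, g1, g2, -, g4⟩ := greedyS (sideA_ok P.host (by positivity) (p1 2940))
    (5 * (-28 * Real.log t)) (half_pos (δ0.trans h0)) (X \ D) ∅ (by simp) le_rfl
  obtain ⟨K, hK⟩ : J.Nonempty := by
    by_contra h
    rw [not_nonempty_iff_eq_empty] at h
    have := (ms_mono hA (X := X \ D) (Y := D₀) fun S hS => by simpa [h] using g2 S hS).trans g1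
    linarith
  obtain ⟨-, a1, a2, a3, -, a5, -⟩ := g4 K hK
  have b1 := P.baseA _ K a2.2.1 a2.1
  have b2 := Real.log_le_log (half_pos (δ0.trans h0)) a3.le
  have b3 := Real.log_le_log (half_pos δ0) (by linarith : δ / 2 ≤ ms (mu (t ^ 2940)) (X \ D) / 2)
  have hz : (sideA (t ^ 2940) ep).h ∅ = 0 := by simp [sideA]
  rw [hz] at a5
  set k := (sideA (t ^ 2940) ep).h K with hk
  have b4 : Real.log (ms (mu (t ^ 2940)) (X \ D) / 2) ≤ k * (840 * Real.log t) := by
    change Real.log (r' K) - Real.log (ms (mu (t ^ 2940)) (Q K)) ≤ _ at a5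
    push_cast at a5
    linarith
  have b5 : k ≤ w := by
    rw [Real.log_div δ0.ne' (by norm_num), hδ, Real.log_pow, one_div, Real.log_inv] at b3
    have l2 := Real.log_two_lt_d9
    have k0 : (0 : ℝ) ≤ k := Nat.cast_nonneg _
    have : (k : ℝ) ≤ w := by nlinarith
    exact_mod_cast this
  have b6 : (ins ep K).card ≤ k := by
    have := P.host.sp K (by simp only [hk, sideA] at b5; omega)
    simp only [hk, sideA]
    omega
  have b7 : ms (mu (t ^ 2940)) (X \ D) ≤ (1 - t ^ 980) ^ (ins ep K).card := by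
    rcases Nat.eq_zero_or_pos k with h | h
    · rw [show (ins ep K).card = 0 by omega]
      simpa using ms_mu_le (K := ∅) (X := X \ D) (by positivity) (p1 2940) (by simp)
    have c1 : t ^ 980 ≤ t := pow_le_of_le_one t0.le (by linarith) (by norm_num)
    have c2 : t ^ 840 ≤ t := pow_le_of_le_one t0.le (by linarith) (by norm_num)
    have c3 : ms (mu (t ^ 2940)) (X \ D) / 2 ≤ (t ^ 840) ^ k := by
      rw [← Real.log_le_log_iff (half_pos (δ0.trans h0)) (by positivity), Real.log_pow,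
        Real.log_pow]
      exact_mod_cast b4
    have c4 : 2 * (t ^ 840) ^ k ≤ (1 - t ^ 980) ^ k := by
      refine le_trans ?_ (pow_le_pow_left₀ (by positivity) (by linarith : 2 * t ^ 840 ≤ _) k)
      rw [mul_pow]
      exact mul_le_mul_of_nonneg_right (le_self_pow₀ (by norm_num) h.ne') (by positivity)
    exact le_trans (by linarith) (pow_le_pow_of_le_one (by linarith)
      (by have := pow_pos t0 980; linarith) b6)
  have e2 : ∀ U : Finset E, ms (mu (t ^ 980)) {y ∈ {y ∈ Yᶜ \ D' | Disjoint (ins ep K) y} | U ⊆ y} ≤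
      (t ^ 980) ^ U.card * (1 - t ^ 980) ^ (ins ep K).card := by
    intro U
    by_cases hU : Disjoint U (ins ep K)
    · exact (ms_mono hB (Y := {y | U ⊆ y ∧ Disjoint (ins ep K) y})
        fun y hy => ⟨hy.2, hy.1.2⟩).trans_eq (Ex_sub_disj _ _ _ hU)
    · rw [Set.eq_empty_of_forall_notMem
        (s := {y ∈ {y ∈ Yᶜ \ D' | Disjoint (ins ep K) y} | U ⊆ y})
        fun y hy => hU (disjoint_of_subset_left hy.2 hy.1.2.symm), ms_empty]
      exact mul_nonneg (by positivity) (pow_nonneg (by linarith [p1 980]) _)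
  have e3 : (1 - t ^ 980) ^ (ins ep K).card ≤
      2 * ms (mu (t ^ 980)) {y ∈ Yᶜ \ D' | Disjoint (ins ep K) y} := by
    have c1 : ms (mu (t ^ 980)) {y | ∅ ⊆ y ∧ Disjoint (ins ep K) y} = _ :=
      Ex_sub_disj _ _ _ (disjoint_empty_left _)
    have c2 := ms_le_add hB (X := {y | ∅ ⊆ y ∧ Disjoint (ins ep K) y})
      (Y := {y ∈ Yᶜ \ D' | Disjoint (ins ep K) y}) (Z := Y ∪ D') fun y hy => by
        by_cases h : y ∈ Y ∪ D'
        · exact Or.inr h
        · exact Or.inl ⟨⟨fun h' => h (Or.inl h'), fun h' => h (Or.inr h')⟩, hy.2⟩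
    have c3 := ms_le_add hB (Set.Subset.refl (Y ∪ D'))
    rw [card_empty, pow_zero, one_mul] at c1
    linarith
  have e4 : 0 < ms (mu (t ^ 980)) {y ∈ Yᶜ \ D' | Disjoint (ins ep K) y} := by linarith
  refine hno (Q K) K {y ∈ Yᶜ \ D' | Disjoint (ins ep K) y} ∅ a1 (fun y hy => hy.1) b5
    ⟨a2, ⟨e4, by simp, fun U _ => ?_⟩, fun S _ e h => by simp [sideB] at h, fun y hy e h h' =>
      disjoint_left.mp hy.2 (mem_ins.mpr h) (singleton_subset_iff.mp h')⟩
  simp only [sideB, card_empty, Nat.cast_zero, mul_zero, Real.exp_zero, mul_one]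
  rcases U.eq_empty_or_nonempty with rfl | hU
  · simp
  refine ((e2 U).trans (mul_le_mul_of_nonneg_left e3 (by positivity))).trans ?_
  rw [← mul_assoc]
  refine mul_le_mul_of_nonneg_right ?_ e4.le
  rw [show -(5 * (-28 * Real.log t)) * U.card = (U.card * 5 : ℕ) * -(-28 * Real.log t) by
    push_cast; ring, Real.exp_nat_mul, he, ← pow_mul, ← pow_mul]
  have c1 := hU.card_pos
  have c2 : t ^ (980 * U.card) ≤ t ^ (28 * (U.card * 5) + 1) :=
    pow_le_pow_of_le_one t0.le (by linarith) (by omega)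
  have c3 : 0 < t ^ (28 * (U.card * 5)) := by positivity
  rw [pow_succ] at c2
  nlinarith

end Pool.Agent.Lib.MP_79d702_lc.Two
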