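import Pool.Agent.Lib.MP_79d702_lc.Two.Chain2
import Pool.Agent.Lib.MP_79d702_lc.Neg.Selector

/-!
The language: three selector bits give the numbers of vertices and of edge slots and the clique
size, the second quarter of the input gives the host graph in dual rail, and the second half
consists of blocks of edge bits; the witness is a large clique of one block.
-/

namespace Pool.Agent.Lib.MP_79d702_lc.Two

open Pool.Agent.Lib.MP_79d702_lc.Neg Pool.Agent.Shared.PolyTime

def rail (n v i c b u : ℕ) : ℕ := n / 4 + (((i * 2 + c) * Nat.size v + b) * 2 + u / 2 ^ b % 2)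

def Spec (n : ℕ) (g : ℕ → Prop) (y : List Bool) : Prop :=
  ∃ v N k j, 3 * v < n / 4 ∧ 3 * N + 1 < n / 4 ∧ 3 * k + 2 < n / 4 ∧ j < n ∧
    g (3 * v) ∧ g (3 * N + 1) ∧ g (3 * k + 2) ∧
    k ≤ (List.range v).countP (fun u => y.getD u false) ∧
    ∀ i < N, g (n / 2 + j * N + i) ∨
      ∃ c < 2, ∃ u < v, y.getD u false = false ∧ ∀ b < Nat.size v, g (rail n v i c b u)

open Classical in
noncomputable def langT (x : List Bool) : Bool :=
  decide (∃ y : List Bool, y.length ≤ x.length ∧ Spec x.length (fun p => x.getD p false = true) y)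

theorem Spec.mono {n : ℕ} {g g' : ℕ → Prop} (h : ∀ p, g p → g' p) {y : List Bool}
    (s : Spec n g y) : Spec n g' y := by
  obtain ⟨v, N, k, j, a1, a2, a3, a4, a5, a6, a7, a8, a9⟩ := s
  refine ⟨v, N, k, j, a1, a2, a3, a4, h _ a5, h _ a6, h _ a7, a8, fun i hi => (a9 i hi).imp (h _) ?_⟩
  rintro ⟨c, hc, u, hu, e1, e2⟩
  exact ⟨c, hc, u, hu, e1, fun b hb => h _ (e2 b hb)⟩

theorem langT_mono : MonotoneSlices langT := by
  intro n x y hxy
  rw [Bool.le_iff_imp]
  simp only [langT, decide_eq_true_eq, List.length_ofFn]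
  rintro ⟨z, h1, h2⟩
  exact ⟨z, h1, h2.mono (getD_mono hxy)⟩

def slot (x y : List Bool) (v N j i : ℕ) : Bool :=
  x.getD (x.length / 2 + j * N + i) false || (List.range 2).any fun c =>
    (List.range (min v x.length)).any fun u => !y.getD u false &&
      (List.range (Nat.size v)).all fun b => x.getD (x.length / 4 +
        (((i * 2 + c) * Nat.size v + b) * 2 + u / 2 ^ min b x.length % 2)) false

@[fun_prop] theorem slot_pt {α : Type} [N487b59b3 α] {x y : α → List Bool} {v N j i : α → ℕ}
    (hx : PT x) (hy : PT y) (hv : PT v) (hN : PT N) (hj : PT j) (hi : PT i) :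
    PT (fun a => slot (x a) (y a) (v a) (N a) (j a) (i a)) := by
  unfold slot; fun_prop

def ver4 (x y : List Bool) (v N k j : ℕ) : Bool :=
  decide (3 * v < x.length / 4) && decide (3 * N + 1 < x.length / 4) &&
    decide (3 * k + 2 < x.length / 4) && x.getD (3 * v) false && x.getD (3 * N + 1) false &&
    x.getD (3 * k + 2) false &&
    decide (k ≤ (List.range (min v x.length)).countP (fun u => y.getD u false)) &&
    (List.range (min N x.length)).all fun i => slot x y v N j i

@[fun_prop] theorem ver4_pt {α : Type} [N487b59b3 α] {x y : α → List Bool} {v N k j : α → ℕ}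
    (hx : PT x) (hy : PT y) (hv : PT v) (hN : PT N) (hk : PT k) (hj : PT j) :
    PT (fun a => ver4 (x a) (y a) (v a) (N a) (k a) (j a)) := by
  unfold ver4; fun_prop

theorem slot_iff {x y : List Bool} {v : ℕ} (hv : v ≤ x.length) (N j i : ℕ) :
    slot x y v N j i = true ↔ x.getD (x.length / 2 + j * N + i) false = true ∨
      ∃ c < 2, ∃ u < v, y.getD u false = false ∧
        ∀ b < Nat.size v, x.getD (rail x.length v i c b u) false = true := by
  unfold slot rail
  simp only [min_eq_left hv, Bool.or_eq_true, List.any_eq_true, List.mem_range, Bool.and_eq_true,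
    Bool.not_eq_true', List.all_eq_true]
  refine or_congr_right (exists_congr fun c => and_congr_right fun _ => exists_congr fun u =>
    and_congr_right fun _ => and_congr_right fun _ => forall_congr' fun b =>
    imp_congr_right fun hb => ?_)
  rw [min_eq_left (by have := size_le_self v; omega)]

theorem langT_np : langT ∈ N68a2faeb.NP := by
  refine ⟨Polynomial.X, fun p => (List.range p.1.length).any fun v =>
    (List.range p.1.length).any fun N => (List.range p.1.length).any fun k =>
    (List.range p.1.length).any fun j => ver4 p.1 p.2 v N k j,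
    PT.isPolyTime (by fun_prop), fun x => ?_⟩
  simp only [langT, decide_eq_true_eq, Polynomial.eval_X, List.any_eq_true, List.mem_range]
  refine exists_congr fun y => and_congr_right fun _ => ⟨?_, ?_⟩
  · rintro ⟨v, N, k, j, a1, a2, a3, a4, a5, a6, a7, a8, a9⟩
    refine ⟨v, by omega, N, by omega, k, by omega, j, a4, ?_⟩
    simp only [ver4, Bool.and_eq_true, decide_eq_true_eq, List.all_eq_true, List.mem_range,
      min_eq_left (by omega : v ≤ x.length), min_eq_left (by omega : N ≤ x.length),
      slot_iff (by omega : v ≤ x.length)]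
    exact ⟨⟨⟨⟨⟨⟨⟨a1, a2⟩, a3⟩, a5⟩, a6⟩, a7⟩, a8⟩, a9⟩
  · rintro ⟨v, hv, N, hN, k, -, j, a4, h⟩
    simp only [ver4, Bool.and_eq_true, decide_eq_true_eq, List.all_eq_true, List.mem_range,
      min_eq_left hv.le, min_eq_left hN.le, slot_iff hv.le] at h
    obtain ⟨⟨⟨⟨⟨⟨⟨a1, a2⟩, a3⟩, a5⟩, a6⟩, a7⟩, a8⟩, a9⟩ := h
    exact ⟨v, N, k, j, a1, a2, a3, a4, a5, a6, a7, a8, a9⟩

theorem langT_vec (n : ℕ) (X : Finset ℕ) : langT (List.ofFn (vec n X)) = true ↔
    ∃ y : List Bool, y.length ≤ n ∧ Spec n (fun p => p < n ∧ p ∈ X) y := by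
  simp only [langT, decide_eq_true_eq, List.length_ofFn, getD_vec]

end Pool.Agent.Lib.MP_79d702_lc.Two
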