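import Pool.Agent.Lib.MP_79d702_lc.Two.Greedy

/-!
Deterministic protocols that find a common element on a rectangle.
-/

namespace Pool.Agent.Lib.MP_79d702_lc.Two

open Finset Pool.Agent.Lib.MP_79d702_lc.Neg

variable {ι κ E : Type}

/-- the rectangle has a protocol of cost `c` -/
def Solv (φ : ι → E → Prop) (ψ : κ → E → Prop) : ℕ → Set ι → Set κ → Prop
  | 0, X, Y => X = ∅ ∨ Y = ∅ ∨ ∃ e, (∀ x ∈ X, φ x e) ∧ ∀ y ∈ Y, ψ y e
  | c + 1, X, Y => (∃ X₁ X₂, X ⊆ X₁ ∪ X₂ ∧ Solv φ ψ c X₁ Y ∧ Solv φ ψ c X₂ Y) ∨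
      ∃ Y₁ Y₂, Y ⊆ Y₁ ∪ Y₂ ∧ Solv φ ψ c X Y₁ ∧ Solv φ ψ c X Y₂

variable {φ : ι → E → Prop} {ψ : κ → E → Prop}

theorem Solv.sub {c : ℕ} : ∀ {X X' : Set ι} {Y Y' : Set κ}, Solv φ ψ c X Y → X' ⊆ X → Y' ⊆ Y →
    Solv φ ψ c X' Y' := by
  induction c with
  | zero =>
    rintro X X' Y Y' (rfl | rfl | ⟨e, h1, h2⟩) hX hY
    · exact Or.inl (Set.subset_empty_iff.mp hX)
    · exact Or.inr (Or.inl (Set.subset_empty_iff.mp hY))
    · exact Or.inr (Or.inr ⟨e, fun x hx => h1 x (hX hx), fun y hy => h2 y (hY hy)⟩)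
  | succ c ih =>
    rintro X X' Y Y' (⟨X₁, X₂, h, h1, h2⟩ | ⟨Y₁, Y₂, h, h1, h2⟩) hX hY
    · exact Or.inl ⟨X₁, X₂, hX.trans h, ih h1 le_rfl hY, ih h2 le_rfl hY⟩
    · exact Or.inr ⟨Y₁, Y₂, hY.trans h, ih h1 hX le_rfl, ih h2 hX le_rfl⟩

theorem Solv.swap {c : ℕ} : ∀ {X : Set ι} {Y : Set κ}, Solv φ ψ c X Y → Solv ψ φ c Y X := by
  induction c with
  | zero =>
    rintro X Y (h | h | ⟨e, h1, h2⟩)
    · exact Or.inr (Or.inl h)
    · exact Or.inl h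
    · exact Or.inr (Or.inr ⟨e, h2, h1⟩)
  | succ c ih =>
    rintro X Y (⟨X₁, X₂, h, h1, h2⟩ | ⟨Y₁, Y₂, h, h1, h2⟩)
    · exact Or.inr ⟨X₁, X₂, h, ih h1, ih h2⟩
    · exact Or.inl ⟨Y₁, Y₂, h, ih h1, ih h2⟩

theorem Solv.up {c d : ℕ} {X : Set ι} {Y : Set κ} (h : Solv φ ψ c X Y) (hcd : c ≤ d) :
    Solv φ ψ d X Y := by
  induction d, hcd using Nat.le_induction with
  | base => exact h
  | succ d _ ih => exact Or.inl ⟨X, X, Set.subset_union_left, ih, ih⟩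

theorem kraft {γ : Type} [DecidableEq γ] (P : γ → Set ι) (Y : Set κ) (c : ℕ) :
    ∀ (J : Finset γ) (u : γ → ℝ) (X : Set ι), (∀ x ∈ X, ∃ j ∈ J, x ∈ P j) →
      ∑ j ∈ J, u j ≤ 2 / 3 →
      (∀ j ∈ J, ∃ n : ℕ, Solv φ ψ n (P j) Y ∧ (2 / 3 : ℝ) ^ c ≤ u j * (2 / 3) ^ n) →
      Solv φ ψ c X Y := by
  have pos : ∀ (c : ℕ) (J : Finset γ) (u : γ → ℝ),
      (∀ j ∈ J, ∃ n : ℕ, Solv φ ψ n (P j) Y ∧ (2 / 3 : ℝ) ^ c ≤ u j * (2 / 3) ^ n) →
      ∀ j ∈ J, 0 ≤ u j := by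
    intro c J u h j hj
    obtain ⟨n, -, h⟩ := h j hj
    exact nonneg_of_mul_nonneg_left ((pow_pos (by norm_num) c).trans_le h).le (by positivity)
  induction c with
  | zero =>
    intro J u X h1 h2 h3
    refine Or.inl (Set.eq_empty_of_forall_notMem fun x hx => ?_)
    obtain ⟨j, hj, -⟩ := h1 x hx
    obtain ⟨n, -, h⟩ := h3 j hj
    have h4 := single_le_sum (pos 0 J u h3) hj
    have h5 : u j * (2 / 3) ^ n ≤ u j :=
      mul_le_of_le_one_right (pos 0 J u h3 j hj) (pow_le_one₀ (by norm_num) (by norm_num))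
    rw [pow_zero] at h
    linarith
  | succ c ih =>
    intro J u X h1 h2 h3
    have hu := pos _ J u h3
    have part : ∀ J' ⊆ J, ∑ j ∈ J', u j ≤ 4 / 9 → Solv φ ψ c {x | ∃ j ∈ J', x ∈ P j} Y := by
      intro J' hJ h
      refine ih J' (fun j => 3 / 2 * u j) _ (fun x hx => hx) (by rw [← mul_sum]; linarith)
        fun j hj => ?_
      obtain ⟨n, h4, h5⟩ := h3 j (hJ hj)
      rw [pow_succ] at h5
      exact ⟨n, h4, by linarith⟩
    have fin : ∀ J' ⊆ J, 2 / 9 ≤ ∑ j ∈ J', u j → Solv φ ψ c {x | ∃ j ∈ J', x ∈ P j} Y →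
        Solv φ ψ (c + 1) X Y := by
      intro J' hJ h h'
      refine Or.inl ⟨_, _, fun x hx => ?_, h', part (J \ J') sdiff_subset ?_⟩
      · obtain ⟨j, hj, h⟩ := h1 x hx
        by_cases hj' : j ∈ J'
        · exact Or.inl ⟨j, hj', h⟩
        · exact Or.inr ⟨j, mem_sdiff.mpr ⟨hj, hj'⟩, h⟩
      · rw [sum_sdiff_eq_sub hJ]; linarith
    by_cases hbig : ∃ j ∈ J, 2 / 9 ≤ u j
    · obtain ⟨j, hj, h⟩ := hbig
      refine fin {j} (singleton_subset_iff.mpr hj) (by simpa using h) ?_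
      obtain ⟨n, h4, h5⟩ := h3 j hj
      have h6 := (single_le_sum hu hj).trans h2
      have h7 : (2 / 3 : ℝ) ^ (c + 1) ≤ (2 / 3) ^ (n + 1) := by
        rw [pow_succ _ n, mul_comm]
        exact h5.trans (mul_le_mul_of_nonneg_right h6 (by positivity))
      have h8 := (pow_le_pow_iff_right_of_lt_one₀ (by norm_num) (by norm_num)).mp h7
      exact (h4.up (by omega)).sub (by simp) le_rfl
    · obtain ⟨J', hJ, hmax⟩ := exists_max_image (J.powerset.filter fun J' => ∑ j ∈ J', u j ≤ 4 / 9)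
        card ⟨∅, by simp; norm_num⟩
      rw [mem_filter, mem_powerset] at hJ
      by_cases hall : J ⊆ J'
      · exact ((part J' hJ.1 hJ.2).up (Nat.le_succ c)).sub
          (fun x hx => (h1 x hx).imp fun j hj => ⟨hall hj.1, hj.2⟩) le_rfl
      · obtain ⟨j, hj, hj'⟩ := not_subset.mp hall
        refine fin J' hJ.1 ?_ (part J' hJ.1 hJ.2)
        by_contra h
        have h4 : ¬ 2 / 9 ≤ u j := fun h => hbig ⟨j, hj, h⟩
        have := hmax (insert j J') (mem_filter.mpr ⟨mem_powerset.mpr (insert_subset hj hJ.1), by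
          rw [sum_insert hj']; linarith⟩)
        rw [card_insert_of_notMem hj'] at this
        omega

theorem Solv.avoid [DecidableEq E] {c : ℕ} {X : Set ι} (F : Finset E) : ∀ {Y : Set κ},
    (∀ x ∈ X, ∀ e ∈ F, φ x e) → Solv φ ψ c X {y ∈ Y | ∀ e ∈ F, ¬ ψ y e} →
    Solv φ ψ (c + F.card) X Y := by
  induction F using Finset.induction_on with
  | empty => intro Y _ h; exact h.sub le_rfl fun y hy => ⟨hy, by simp⟩
  | insert e F he ih =>
    intro Y h1 h2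
    rw [card_insert_of_notMem he]
    refine Or.inr ⟨{y | ψ y e}, {y ∈ Y | ¬ ψ y e}, fun y hy => ?_, Solv.up (c := 0)
      (Or.inr (Or.inr ⟨e, fun x hx => h1 x hx e (mem_insert_self _ _), fun y hy => hy⟩))
      (Nat.zero_le _), ih (fun x hx e he => h1 x hx e (mem_insert_of_mem he)) (h2.sub le_rfl ?_)⟩
    · by_cases h : ψ y e
      · exact Or.inl h
      · exact Or.inr ⟨hy, h⟩
    · exact fun y hy => ⟨hy.1.1, forall_mem_insert _ _ _ |>.mpr ⟨hy.1.2, hy.2⟩⟩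

/-- protocols with a real bound on the cost -/
def SolvR (φ : ι → E → Prop) (ψ : κ → E → Prop) (c : ℝ) (X : Set ι) (Y : Set κ) : Prop :=
  ∃ n : ℕ, (n : ℝ) ≤ c ∧ Solv φ ψ n X Y

theorem kraftR {γ : Type} [DecidableEq γ] (P : γ → Set ι) (Y : Set κ) {c : ℝ} (hc : 0 ≤ c)
    (J : Finset γ) (ω : γ → ℝ) (X : Set ι) (h1 : ∀ x ∈ X, ∃ j ∈ J, x ∈ P j)
    (h2 : ∑ j ∈ J, ω j ≤ 1)
    (h3 : ∀ j ∈ J, 0 < ω j ∧ ω j ≤ 1 ∧ SolvR φ ψ (c - 2 + 3 * Real.log (ω j)) (P j) Y) :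
    SolvR φ ψ c X Y := by
  refine ⟨⌊c⌋₊, Nat.floor_le hc, kraft P Y _ J (fun j => 2 / 3 * ω j) X h1
    (by rw [← mul_sum]; linarith) fun j hj => ?_⟩
  obtain ⟨h4, h5, n, h6, h7⟩ := h3 j hj
  refine ⟨n, h7, ?_⟩
  have h8 := Nat.lt_floor_add_one c
  have h9 := Real.log_nonpos h4.le h5
  have h10 : Real.log (2 / 3) ≤ - (1 / 3) := (Real.log_le_sub_one_of_pos (by norm_num)).trans
    (by norm_num)
  rw [← Real.log_le_log_iff (by positivity) (by positivity), Real.log_mul (by positivity)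
    (by positivity), Real.log_mul (by positivity) (by positivity), Real.log_pow, Real.log_pow]
  nlinarith

end Pool.Agent.Lib.MP_79d702_lc.Two
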