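import Pool.Agent.Lib.MP_79d702_lc.Neg.Spread

/-!
The spread lemma for weighted families, masses of sets of points, two stage exposure.
-/

namespace Pool.Agent.Lib.MP_79d702_lc.Two

set_option linter.unusedSectionVars false

open Finset Pool.Agent.Lib.MP_79d702_lc.Neg

variable {α : Type} [Fintype α] [DecidableEq α] {ι : Type}

/-- one round of fragmentation, with weights -/
theorem one_round {q η : ℝ} (h0 : 0 < q) (h1 : q ≤ 1) (hη : 0 ≤ η) (hq : 256 * η ≤ q)
    (w : ι → ℝ) (hw : ∀ i, 0 ≤ w i) (I : Finset ι) (A : ι → Finset α)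
    (hS : ∀ T : Finset α, ∑ i ∈ I, w i * ind (T ⊆ A i) ≤ η ^ T.card * ∑ i ∈ I, w i) :
    ∃ B : Finset α → ι → Finset α,
      (∀ V, ∀ i ∈ I, B V i ⊆ A i ∧ ∃ j ∈ I, A j ⊆ V ∪ B V i) ∧
      Ex q (fun V => ∑ i ∈ I, w i * ((B V i).card : ℝ)) ≤
        (∑ i ∈ I, w i * ((A i).card : ℝ)) / 2 + (∑ i ∈ I, w i) / 6 := by
  classical
  choose! B hB1 hB2 hB3 hB4 using exists_frag I A
  choose J hJ1 hJ2 using exists_canon I A
  refine ⟨B, fun V i hi => ⟨hB1 V i hi, ?_⟩, ?_⟩
  · obtain ⟨j, hj, h, _⟩ := hB3 V i hi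
    exact ⟨j, hj, h⟩
  set n := Fintype.card α
  set M := ∑ i ∈ I, w i with hM
  have hM0 : 0 ≤ M := sum_nonneg fun i _ => hw i
  let E : ℕ → Finset α → Finset α → Prop := fun a T V =>
    Disjoint T V ∧ (T ⊆ J (V ∪ T) a ∧ a < 2 * T.card)
  have step1 : ∀ V, ∀ i ∈ I, ((B V i).card : ℝ) ≤ ((A i).card : ℝ) / 2 +
      ∑ a ∈ range (n + 1), ∑ T : Finset α, (a : ℝ) * (ind (T ⊆ A i) * ind (E a T V)) := by
    intro V i hi
    have hnn : ∀ a : ℕ, ∀ T : Finset α, 0 ≤ (a : ℝ) * (ind (T ⊆ A i) * ind (E a T V)) :=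
      fun a T => mul_nonneg (Nat.cast_nonneg a) (mul_nonneg (ind_nonneg _) (ind_nonneg _))
    by_cases h : (A i).card < 2 * (B V i).card
    · have h2 : ((B V i).card : ℝ) ≤ (A i).card := by exact_mod_cast card_le_card (hB1 V i hi)
      have h3 : E (A i).card (B V i) V := by
        refine ⟨hB2 V i hi, ?_, h⟩
        obtain ⟨j, hj, h1, h2, h3⟩ := hJ2 _ _ (hB3 V i hi)
        rw [h3]
        exact hB4 V i hi j hj h1 h2
      have h4 : ((A i).card : ℝ) ≤ ∑ a ∈ range (n + 1), ∑ T : Finset α,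
          (a : ℝ) * (ind (T ⊆ A i) * ind (E a T V)) := by
        refine le_trans ?_ (single_le_sum (f := fun a : ℕ => ∑ T : Finset α,
          (a : ℝ) * (ind (T ⊆ A i) * ind (E a T V))) (a := (A i).card)
          (fun a _ => sum_nonneg fun T _ => hnn a T)
          (mem_range.mpr (Nat.lt_succ_of_le (card_le_univ _))))
        refine le_trans ?_ (single_le_sum (f := fun T : Finset α =>
          ((A i).card : ℝ) * (ind (T ⊆ A i) * ind (E (A i).card T V))) (a := B V i)
          (fun T _ => hnn _ T) (mem_univ _))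
        simp only [ind_pos (hB1 V i hi), ind_pos h3, mul_one, le_refl]
      have : (0 : ℝ) ≤ (A i).card := Nat.cast_nonneg _
      linarith
    · have h2 : (2 * (B V i).card : ℝ) ≤ (A i).card := by exact_mod_cast not_lt.mp h
      have := sum_nonneg fun a (_ : a ∈ range (n + 1)) =>
        sum_nonneg fun T (_ : T ∈ (univ : Finset (Finset α))) => hnn a T
      linarith
  have step2 : ∀ (a : ℕ) (T : Finset α),
      (∑ i ∈ I, w i * ind (T ⊆ A i)) * Ex q (fun V => ind (E a T V)) ≤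
      M * ((1 / 16) ^ a * Ex q (fun W => ind (T ⊆ J W a))) := by
    intro a T
    have hE : 0 ≤ Ex q (fun W => ind (T ⊆ J W a)) := Ex_nonneg h0.le h1 fun _ => ind_nonneg _
    by_cases h : a < 2 * T.card
    · have h2 := shift h0.le h1 T (fun W => T ⊆ J W a ∧ a < 2 * T.card)
      have h3 : Ex q (fun W => ind (T ⊆ J W a ∧ a < 2 * T.card)) =
          Ex q (fun W => ind (T ⊆ J W a)) := by
        congr 1; funext W; exact ind_congr (and_iff_left h)
      rw [h3] at h2
      have h4 := hS T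
      have hx : 0 ≤ Ex q (fun V => ind (E a T V)) := Ex_nonneg h0.le h1 fun _ => ind_nonneg _
      have h5 : η ^ T.card ≤ (1 / 16) ^ a * q ^ T.card := by
        calc η ^ T.card ≤ ((1 / 16) ^ 2 * q) ^ T.card := pow_le_pow_left₀ hη (by linarith) _
          _ = (1 / 16) ^ (2 * T.card) * q ^ T.card := by rw [mul_pow, pow_mul]
          _ ≤ _ := mul_le_mul_of_nonneg_right
              (pow_le_pow_of_le_one (by norm_num) (by norm_num) h.le) (by positivity)
      calc _ ≤ ((1 / 16) ^ a * q ^ T.card * M) * Ex q (fun V => ind (E a T V)) :=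
            mul_le_mul_of_nonneg_right (h4.trans (mul_le_mul_of_nonneg_right h5 hM0)) hx
        _ = M * ((1 / 16) ^ a * (Ex q (fun V => ind (E a T V)) * q ^ T.card)) := by ring
        _ ≤ _ := mul_le_mul_of_nonneg_left (mul_le_mul_of_nonneg_left h2 (by positivity)) hM0
    · have : Ex q (fun V => ind (E a T V)) = 0 := by
        rw [← Ex_const (α := α) q 0]
        congr 1; funext V; exact ind_neg fun h' => h h'.2.2
      rw [this, mul_zero]
      positivity
  have step3 : ∀ a : ℕ, ∑ T : Finset α, Ex q (fun W => ind (T ⊆ J W a)) ≤ 2 ^ a := by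
    intro a
    rw [← Ex_sum]
    refine Ex_le h0.le h1 fun W => ?_
    rw [sum_subsets]
    exact pow_le_pow_right₀ (by norm_num) (hJ1 W a)
  calc Ex q (fun V => ∑ i ∈ I, w i * ((B V i).card : ℝ))
      ≤ Ex q (fun V => (∑ i ∈ I, w i * ((A i).card : ℝ)) / 2 +
          ∑ a ∈ range (n + 1), ∑ T : Finset α,
          ((a : ℝ) * ∑ i ∈ I, w i * ind (T ⊆ A i)) * ind (E a T V)) := by
        refine Ex_mono h0.le h1 fun V => (sum_le_sum fun i hi =>
          mul_le_mul_of_nonneg_left (step1 V i hi) (hw i)).trans_eq ?_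
        simp only [mul_add]
        rw [sum_add_distrib, sum_div]
        congr 1
        · exact sum_congr rfl fun i _ => by ring
        simp only [mul_sum, sum_mul]
        rw [sum_comm]
        refine sum_congr rfl fun a _ => ?_
        rw [sum_comm]
        refine sum_congr rfl fun T _ => sum_congr rfl fun i _ => by ring
    _ = (∑ i ∈ I, w i * ((A i).card : ℝ)) / 2 + ∑ a ∈ range (n + 1), ∑ T : Finset α,
          ((a : ℝ) * ∑ i ∈ I, w i * ind (T ⊆ A i)) * Ex q (fun V => ind (E a T V)) := by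
        rw [Ex_add, Ex_const, Ex_sum]
        simp only [Ex_sum, Ex_mul]
    _ ≤ (∑ i ∈ I, w i * ((A i).card : ℝ)) / 2 + ∑ a ∈ range (n + 1),
          M * ((a : ℝ) * (1 / 8) ^ a) := by
        refine add_le_add le_rfl (sum_le_sum fun a _ => ?_)
        calc _ ≤ ∑ T : Finset α, (a : ℝ) *
              (M * ((1 / 16) ^ a * Ex q (fun W => ind (T ⊆ J W a)))) :=
              sum_le_sum fun T _ => by
                rw [mul_assoc]
                exact mul_le_mul_of_nonneg_left (step2 a T) (Nat.cast_nonneg a)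
          _ = (a : ℝ) * (M * ((1 / 16) ^ a *
              ∑ T : Finset α, Ex q (fun W => ind (T ⊆ J W a)))) := by
              simp only [mul_sum]
          _ ≤ (a : ℝ) * (M * ((1 / 16) ^ a * 2 ^ a)) := by
              gcongr
              exact step3 a
          _ = _ := by rw [← mul_pow]; norm_num; ring
    _ ≤ _ := by
        rw [← mul_sum]
        have := mul_le_mul_of_nonneg_left (sum_geo n) hM0
        linarith

/-- the spread lemma with weights -/
theorem spread_lemma {q η : ℝ} (h0 : 0 < q) (h1 : q < 1) (hη : 0 ≤ η) (hq : 256 * η ≤ q)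
    (w : ι → ℝ) (hw : ∀ i, 0 ≤ w i) (I : Finset ι) (m : ℕ) :
    ∀ (p : ℝ) (A : ι → Finset α), p ≤ 1 → 1 - p ≤ (1 - q) ^ m →
      (∀ T : Finset α, ∑ i ∈ I, w i * ind (T ⊆ A i) ≤ η ^ T.card * ∑ i ∈ I, w i) →
      (∑ i ∈ I, w i) * Ex p (fun V => ind (¬ ∃ i ∈ I, A i ⊆ V)) ≤
        (2 / 3) ^ m * ∑ i ∈ I, w i * ((A i).card : ℝ) := by
  have hM0 : 0 ≤ ∑ i ∈ I, w i := sum_nonneg fun i _ => hw i
  have empt : ∀ (p : ℝ) (A : ι → Finset α) (m : ℕ), (∃ i ∈ I, A i = ∅) →
      (∑ i ∈ I, w i) * Ex p (fun V => ind (¬ ∃ i ∈ I, A i ⊆ V)) ≤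
        (2 / 3) ^ m * ∑ i ∈ I, w i * ((A i).card : ℝ) := by
    rintro p A m ⟨i, hi, hA⟩
    have : Ex p (fun V => ind (¬ ∃ i ∈ I, A i ⊆ V)) = 0 := by
      rw [← Ex_const (α := α) p 0]
      congr 1; funext V; exact ind_neg fun h' => h' ⟨i, hi, hA ▸ empty_subset _⟩
    rw [this, mul_zero]
    exact mul_nonneg (by positivity) (sum_nonneg fun i _ => mul_nonneg (hw i) (Nat.cast_nonneg _))
  have nonempt : ∀ A : ι → Finset α, (¬ ∃ i ∈ I, A i = ∅) →
      ∑ i ∈ I, w i ≤ ∑ i ∈ I, w i * ((A i).card : ℝ) := by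
    intro A h
    refine sum_le_sum fun i hi => le_mul_of_one_le_right (hw i) ?_
    have : 1 ≤ (A i).card := card_pos.mpr (nonempty_iff_ne_empty.mpr fun h' => h ⟨i, hi, h'⟩)
    exact_mod_cast this
  have hp0 : ∀ (p : ℝ) (m : ℕ), 1 - p ≤ (1 - q) ^ m → 0 ≤ p := by
    intro p m h
    have : (1 - q) ^ m ≤ 1 := pow_le_one₀ (by linarith) (by linarith)
    linarith
  induction m with
  | zero =>
    intro p A hp hpq _
    by_cases h : ∃ i ∈ I, A i = ∅
    · exact empt p A 0 h
    · have h2 : Ex p (fun V => ind (¬ ∃ i ∈ I, A i ⊆ V)) ≤ 1 :=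
        Ex_le (hp0 p 0 hpq) hp fun _ => ind_le_one _
      have := mul_le_mul_of_nonneg_left h2 hM0
      have := nonempt A h
      simp only [pow_zero, one_mul]
      linarith
  | succ m ih =>
    intro p A hp hpq hS
    by_cases h : ∃ i ∈ I, A i = ∅
    · exact empt p A _ h
    obtain ⟨B, hB, hE⟩ := one_round h0 h1.le hη hq w hw I A hS
    have hq : 0 < 1 - q := by linarith
    set p' := 1 - (1 - p) / (1 - q) with hp'
    have e1 : p = 1 - (1 - q) * (1 - p') := by rw [hp']; field_simp; ring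
    have e2 : p' ≤ 1 := by
      have : 0 ≤ (1 - p) / (1 - q) := div_nonneg (by linarith) hq.le
      linarith
    have e3 : 1 - p' ≤ (1 - q) ^ m := by
      rw [hp', sub_sub_cancel, div_le_iff₀ hq, ← pow_succ]; exact hpq
    rw [e1, ← Ex_conv, ← Ex_mul]
    calc _ ≤ Ex q (fun V => (2 / 3) ^ m * ∑ i ∈ I, w i * ((B V i).card : ℝ)) := by
          refine Ex_mono h0.le h1.le fun V => le_trans ?_ (ih p' (B V) e2 e3 fun T => ?_)
          · refine mul_le_mul_of_nonneg_left (Ex_mono (hp0 p' m e3) e2 fun W => ind_mono ?_) hM0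
            rintro h1 ⟨i, hi, h2⟩
            obtain ⟨j, hj, h3⟩ := (hB V i hi).2
            exact h1 ⟨j, hj, h3.trans (union_subset_union Subset.rfl h2)⟩
          · exact le_trans (sum_le_sum fun i hi => mul_le_mul_of_nonneg_left
              (ind_mono fun h => h.trans (hB V i hi).1) (hw i)) (hS T)
      _ ≤ (2 / 3) ^ m * ((∑ i ∈ I, w i * ((A i).card : ℝ)) / 2 + (∑ i ∈ I, w i) / 6) := by
          rw [Ex_mul]; exact mul_le_mul_of_nonneg_left hE (by positivity)
      _ ≤ _ := by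
          rw [pow_succ, mul_assoc]
          refine mul_le_mul_of_nonneg_left ?_ (by positivity)
          have := nonempt A h
          linarith

section mass
variable [Fintype ι]

/-- the mass of a set of points -/
noncomputable def ms (w : ι → ℝ) (X : Set ι) : ℝ := ∑ i, w i * ind (i ∈ X)

variable {w : ι → ℝ}

theorem ms_nonneg (hw : ∀ i, 0 ≤ w i) (X : Set ι) : 0 ≤ ms w X :=
  sum_nonneg fun i _ => mul_nonneg (hw i) (ind_nonneg _)

theorem ms_mono (hw : ∀ i, 0 ≤ w i) {X Y : Set ι} (h : X ⊆ Y) : ms w X ≤ ms w Y :=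
  sum_le_sum fun i _ => mul_le_mul_of_nonneg_left (ind_mono fun hi => h hi) (hw i)

theorem ms_empty : ms w ∅ = 0 := sum_eq_zero fun i _ => by rw [ind_neg (by simp), mul_zero]

theorem ms_nonempty {X : Set ι} (h : 0 < ms w X) : X.Nonempty := by
  rcases X.eq_empty_or_nonempty with rfl | h'
  · rw [ms_empty] at h; exact absurd h (lt_irrefl _)
  · exact h'

theorem ms_le_add (hw : ∀ i, 0 ≤ w i) {X Y Z : Set ι} (h : X ⊆ Y ∪ Z) :
    ms w X ≤ ms w Y + ms w Z := by
  unfold ms
  rw [← sum_add_distrib]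
  refine sum_le_sum fun i _ => ?_
  rw [← mul_add]
  exact mul_le_mul_of_nonneg_left ((ind_mono fun hi => h hi).trans (ind_or_le _ _)) (hw i)

theorem ms_split (X : Set ι) (P : ι → Prop) :
    ms w X = ms w {i ∈ X | P i} + ms w {i ∈ X | ¬ P i} := by
  unfold ms
  rw [← sum_add_distrib]
  refine sum_congr rfl fun i _ => ?_
  by_cases h1 : i ∈ X <;> by_cases h2 : P i <;> simp [ind, h1, h2]

theorem ms_le_sum (hw : ∀ i, 0 ≤ w i) {γ : Type} (J : Finset γ) (P : γ → Set ι) {X : Set ι}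
    (h : ∀ i ∈ X, ∃ c ∈ J, i ∈ P c) : ms w X ≤ ∑ c ∈ J, ms w (P c) := by
  unfold ms
  rw [sum_comm]
  refine sum_le_sum fun i _ => ?_
  rw [← mul_sum]
  exact mul_le_mul_of_nonneg_left ((ind_mono (h i)).trans (ind_exists_le J _)) (hw i)

/-- a random set contains a member of a spread family -/
theorem hit (hw : ∀ i, 0 ≤ w i) {η p : ℝ} {m : ℕ} (hη : 0 < η) (hη' : 256 * η < 1)
    (hp : 256 * m * η ≤ p) (hp1 : p ≤ 1) (X : Set ι) (hX : 0 < ms w X) (A : ι → Finset α)
    (hS : ∀ T : Finset α, T.Nonempty → ms w {i ∈ X | T ⊆ A i} ≤ η ^ T.card * ms w X) :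
    Ex p (fun V => ind (¬ ∃ i ∈ X, A i ⊆ V)) ≤ (2 / 3) ^ m * Fintype.card α := by
  classical
  have e : ∀ f : ι → ℝ, ∑ i ∈ univ.filter (· ∈ X), w i * f i = ∑ i, w i * (ind (i ∈ X) * f i) := by
    intro f
    rw [sum_filter]
    refine sum_congr rfl fun i _ => ?_
    by_cases h : i ∈ X <;> simp [ind, h]
  have e1 : ∑ i ∈ univ.filter (· ∈ X), w i = ms w X := by
    simpa [ms] using e fun _ => 1
  have h := spread_lemma (q := 256 * η) (by positivity) hη' hη.le le_rfl w hw
    (univ.filter (· ∈ X)) m p A hp1 ?_ fun T => ?_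
  · rw [e1] at h
    have h2 : ∑ i ∈ univ.filter (· ∈ X), w i * ((A i).card : ℝ) ≤ ms w X * Fintype.card α := by
      rw [← e1, sum_mul]
      exact sum_le_sum fun i _ => mul_le_mul_of_nonneg_left
        (by exact_mod_cast card_le_univ _) (hw i)
    have h3 := h.trans (mul_le_mul_of_nonneg_left h2 (by positivity))
    simp only [mem_filter, mem_univ, true_and] at h3
    rw [mul_left_comm] at h3
    exact le_of_mul_le_mul_left h3 hX
  · have := one_add_mul_le_pow (a := -(256 * η)) (by linarith) m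
    rw [← sub_eq_add_neg] at this
    linarith
  · rw [e1, e]
    rcases T.eq_empty_or_nonempty with rfl | hT
    · simp [ms, ind]
    · refine le_trans (le_of_eq ?_) (hS T hT)
      exact sum_congr rfl fun i _ => by rw [← ind_and]; rfl

end mass

theorem Ex_compl (q : ℝ) (φ : Finset α → ℝ) : Ex q (fun V => φ Vᶜ) = Ex (1 - q) φ := by
  unfold Ex
  refine Fintype.sum_equiv ⟨compl, compl, compl_compl, compl_compl⟩ _ _ fun V => ?_
  simp only [Equiv.coe_fn_mk]
  congr 1
  unfold mu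
  refine prod_congr rfl fun i _ => ?_
  by_cases h : i ∈ V <;> simp [h]

theorem Ex_sdiff (p τ : ℝ) (φ : Finset α → ℝ) :
    Ex p (fun A => Ex τ (fun B => φ (B \ A))) = Ex (τ * (1 - p)) φ := by
  have h := Ex_conv p (1 - τ) (fun V : Finset α => φ Vᶜ)
  rw [Ex_compl] at h
  rw [show τ * (1 - p) = 1 - (1 - (1 - p) * (1 - (1 - τ))) by ring, ← h]
  congr 1
  funext A
  rw [← Ex_compl τ]
  congr 1
  funext B
  congr 1
  ext i
  simp [and_comm]

/-- two stage exposure -/
theorem two_stage {p τ e₁ e₂ e₃ : ℝ} (hp0 : 0 ≤ p) (hp1 : p ≤ 1) (hτ0 : 0 ≤ τ) (hτ1 : τ ≤ 1)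
    (P R : Finset α → Prop) (Q : Finset α → Finset α → Prop) (he₂ : 0 ≤ e₂)
    (h1 : Ex p (fun A => ind (¬ P A)) ≤ e₁) (h2 : ∀ A, P A → Ex τ (fun B => ind (Q A B)) ≤ e₂)
    (h3 : Ex (τ * (1 - p)) (fun B => ind (¬ R B)) ≤ e₃) (he : e₁ + e₂ + e₃ < 1) :
    ∃ A B, P A ∧ ¬ Q A B ∧ R (B \ A) := by
  by_contra hcon
  rw [← Ex_sdiff] at h3
  have h4 : ∀ A : Finset α, (1 : ℝ) ≤ ind (¬ P A) + e₂ + Ex τ (fun B => ind (¬ R (B \ A))) := by
    intro A
    have h5 : 0 ≤ Ex τ (fun B => ind (¬ R (B \ A))) := Ex_nonneg hτ0 hτ1 fun _ => ind_nonneg _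
    by_cases hA : P A
    · have h6 : Ex τ (fun _ : Finset α => (1 : ℝ)) ≤
          Ex τ (fun B => ind (Q A B) + ind (¬ R (B \ A))) := by
        refine Ex_mono hτ0 hτ1 fun B => le_trans (le_of_eq (ind_pos ?_).symm) (ind_or_le _ _)
        by_contra h7
        rw [not_or, not_not] at h7
        exact hcon ⟨A, B, hA, h7.1, h7.2⟩
      rw [Ex_const, Ex_add] at h6
      have := h2 A hA
      have := ind_nonneg (¬ P A)
      linarith
    · rw [ind_pos hA]; linarith
  have h5 := Ex_mono hp0 hp1 h4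
  rw [Ex_const, Ex_add, Ex_add, Ex_const] at h5
  linarith

/-- prescribed elements and forbidden elements -/
theorem Ex_sub_disj (q : ℝ) (A F : Finset α) (h : Disjoint A F) :
    Ex q (fun V => ind (A ⊆ V ∧ Disjoint F V)) = q ^ A.card * (1 - q) ^ F.card := by
  unfold Ex mu
  have : ∀ V : Finset α, (∏ i, if i ∈ V then q else 1 - q) * ind (A ⊆ V ∧ Disjoint F V) =
      ∏ i, if i ∈ V then (if i ∈ F then 0 else q) else (if i ∈ A then 0 else 1 - q) := by
    intro V
    rw [ind_congr (p := A ⊆ V ∧ Disjoint F V) (q := ∀ i, (i ∈ A → i ∈ V) ∧ (i ∈ F → i ∉ V))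
      (by rw [forall_and, disjoint_left]; rfl), ind_forall, ← prod_mul_distrib]
    refine prod_congr rfl fun i _ => ?_
    by_cases h1 : i ∈ V <;> by_cases h2 : i ∈ A <;> by_cases h3 : i ∈ F <;> simp [ind, h1, h2, h3]
  simp only [this]
  rw [sum_prod_mem, ← prod_const, ← prod_const, ← Fintype.prod_ite_mem A, ← Fintype.prod_ite_mem F,
    ← prod_mul_distrib]
  refine prod_congr rfl fun i _ => ?_
  by_cases h2 : i ∈ A <;> by_cases h3 : i ∈ F
  · exact absurd h3 (disjoint_left.mp h h2)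
  all_goals simp [h2, h3]

end Pool.Agent.Lib.MP_79d702_lc.Two
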